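import Pool.Agent.T2H19.GR.Stm
import Pool.Agent.H373R2.T4.DivB

/-! Package ADM1: `(x + 1) ^ p - 1` is admissible. -/

set_option autoImplicit false

namespace Pool.Agent.T2H19.GR

namespace PkgADM1

open Finset

/-- the number of solutions of `u ^ p = 1` modulo `n` -/
noncomputable def sol (p n : ℕ) : ℕ := Nat.card {u : ZMod n // u ^ p = 1}

lemma hp_add (p x : ℕ) : hp p x + 1 = (x + 1) ^ p := by
  unfold hp
  have : 1 ≤ (x + 1) ^ p := Nat.one_le_pow _ _ (Nat.succ_pos x)
  omega

lemma dvd_hp {d p x : ℕ} : d ∣ hp p x ↔ ((x + 1 : ℕ) : ZMod d) ^ p = 1 := by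
  rw [← Nat.cast_pow, ← hp_add p x, ← ZMod.natCast_eq_zero_iff]
  push_cast
  constructor
  · intro h
    rw [h, zero_add]
  · intro h
    have : ((hp p x : ℕ) : ZMod d) = (((hp p x : ℕ) : ZMod d) + 1) - 1 := by ring
    rw [this, h, sub_self]

/-- the number of `x < d` -/
lemma card_le (p d : ℕ) (hd : 1 ≤ d) :
    ((range d).filter (fun x => d ∣ hp p x)).card ≤ sol p d := by
  classical
  haveI : NeZero d := ⟨by omega⟩
  unfold sol
  rw [Nat.card_eq_fintype_card, Fintype.card_subtype]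
  refine Finset.card_le_card_of_injOn (fun x => ((x + 1 : ℕ) : ZMod d)) ?_ ?_
  · intro x hx
    have hx' := (mem_filter.1 (mem_coe.1 hx)).2
    exact mem_coe.2 (mem_filter.2 ⟨mem_univ _, dvd_hp.1 hx'⟩)
  · intro x hx y hy hxy
    have hx' := mem_range.1 (mem_filter.1 (mem_coe.1 hx)).1
    have hy' := mem_range.1 (mem_filter.1 (mem_coe.1 hy)).1
    have h1 := (ZMod.natCast_eq_natCast_iff _ _ _).1 hxy
    have h2 : x ≡ y [MOD d] := Nat.ModEq.add_right_cancel' 1 h1
    have h3 := h2
    unfold Nat.ModEq at h3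
    rwa [Nat.mod_eq_of_lt hx', Nat.mod_eq_of_lt hy'] at h3

/-- coprime moduli -/
lemma sol_mul {p a b : ℕ} (hab : Nat.Coprime a b) : sol p (a * b) = sol p a * sol p b := by
  unfold sol
  rw [← Nat.card_prod]
  have e := ZMod.chineseRemainder hab
  refine Nat.card_congr ?_
  refine
    { toFun := fun u => (⟨(e u.1).1, ?_⟩, ⟨(e u.1).2, ?_⟩)
      invFun := fun v => ⟨e.symm (v.1.1, v.2.1), ?_⟩
      left_inv := ?_
      right_inv := ?_ }
  · have h := congrArg e u.2
    rw [map_pow, map_one] at h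
    have := congrArg Prod.fst h
    simpa using this
  · have h := congrArg e u.2
    rw [map_pow, map_one] at h
    have := congrArg Prod.snd h
    simpa using this
  · rw [← map_pow]
    have : ((v.1.1, v.2.1) : ZMod a × ZMod b) ^ p = 1 := by
      rw [Prod.pow_mk, v.1.2, v.2.2]
      rfl
    rw [this, map_one]
  · intro u
    apply Subtype.ext
    simp
  · intro v
    simp

/-- solutions are units -/
lemma sol_units {p n : ℕ} (hp : p ≠ 0) :
    sol p n = Nat.card {g : (ZMod n)ˣ // g ^ p = 1} := by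
  unfold sol
  refine Nat.card_congr ?_
  refine
    { toFun := fun u => ⟨Units.ofPowEqOne u.1 p u.2 hp, Units.pow_ofPowEqOne u.2 hp⟩
      invFun := fun g => ⟨(g.1 : ZMod n), ?_⟩
      left_inv := ?_
      right_inv := ?_ }
  · rw [← Units.val_pow_eq_pow_val, g.2, Units.val_one]
  · intro u
    apply Subtype.ext
    simp
  · intro g
    apply Subtype.ext
    apply Units.ext
    simp

lemma sol_cyc {p n : ℕ} [NeZero n] (hp : 0 < p) (hc : IsCyclic (ZMod n)ˣ) : sol p n ≤ p := by
  classical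
  rw [sol_units hp.ne', Nat.card_eq_fintype_card, Fintype.card_subtype]
  exact IsCyclic.card_pow_eq_one_le hp

lemma sol_odd2 {p j : ℕ} (hp : p.Prime) (hp2 : p ≠ 2) : sol p (2 ^ j) ≤ 1 := by
  classical
  haveI : NeZero (2 ^ j) := ⟨by positivity⟩
  rw [sol_units hp.ne_zero]
  rw [Nat.card_eq_fintype_card, Fintype.card_le_one_iff]
  have key : ∀ g : (ZMod (2 ^ j))ˣ, g ^ p = 1 → g = 1 := by
    intro g hg
    have h1 : orderOf g ∣ p := orderOf_dvd_of_pow_eq_one hg
    have h2 : orderOf g ∣ Fintype.card (ZMod (2 ^ j))ˣ := orderOf_dvd_card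
    rw [ZMod.card_units_eq_totient] at h2
    have h3 : Nat.totient (2 ^ j) ∣ 2 ^ j := by
      rcases j with _ | j
      · simp
      · rw [Nat.totient_prime_pow_succ Nat.prime_two]
        simpa using pow_dvd_pow 2 (Nat.le_succ j)
    have h4 : Nat.Coprime p (2 ^ j) := by
      apply Nat.Coprime.pow_right
      rw [Nat.coprime_primes hp Nat.prime_two]
      exact hp2
    have h5 : orderOf g ∣ 1 := by
      rw [← Nat.Coprime.gcd_eq_one h4]
      exact Nat.dvd_gcd h1 (h2.trans h3)
    exact orderOf_eq_one_iff.1 (Nat.dvd_one.1 h5)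
  intro g h
  apply Subtype.ext
  rw [key _ g.2, key _ h.2]

lemma two_adic {j x : ℕ} (hj : 1 ≤ j) (h : 2 ^ j ∣ (x + 1) ^ 2 - 1) (hx : x < 2 ^ j) :
    x = 0 ∨ x = 2 ^ (j - 1) ∨ x + 2 = 2 ^ (j - 1) ∨ x + 2 = 2 ^ j ∨ x + 2 = 2 ^ (j - 1) * 3 := by
  obtain ⟨i, rfl⟩ : ∃ i, j = i + 1 := ⟨j - 1, by omega⟩
  rw [Nat.add_sub_cancel]
  have e : (x + 1) ^ 2 - 1 = x * (x + 2) := by
    have : (x + 1) ^ 2 = x * (x + 2) + 1 := by ring
    omega
  rw [e] at h
  have h2 : 2 ∣ x := by
    have h3 : 2 ∣ x * (x + 2) := dvd_trans (dvd_pow_self 2 (by omega)) h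
    rcases (Nat.prime_two.dvd_mul).1 h3 with h4 | h4
    · exact h4
    · omega
  obtain ⟨y, rfl⟩ := h2
  have e2 : 2 * y * (2 * y + 2) = 4 * (y * (y + 1)) := by ring
  rw [e2] at h
  rw [pow_succ] at hx h ⊢
  -- `2 ^ (i + 1) ∣ 4 y (y + 1)`
  rcases Nat.even_or_odd y with hy | hy
  · -- `y + 1` odd, so `2 ^ i ∣ 2 y`
    have hc : Nat.Coprime (2 ^ i * 2) (y + 1) := by
      rw [← pow_succ]
      apply Nat.Coprime.pow_left
      rw [Nat.coprime_two_left]
      exact hy.add_one
    have h4 : 2 ^ i * 2 ∣ 4 * y := by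
      have : 4 * (y * (y + 1)) = 4 * y * (y + 1) := by ring
      rw [this] at h
      exact hc.dvd_of_dvd_mul_right h
    have h5 : 2 ^ i ∣ 2 * y := by
      have : 4 * y = 2 * y * 2 := by ring
      rw [this] at h4
      exact Nat.dvd_of_mul_dvd_mul_right (by norm_num) h4
    obtain ⟨k, hk⟩ := h5
    have hk2 : k < 2 := by
      by_contra hcon
      have h6 : 2 ^ i * 2 ≤ 2 ^ i * k := Nat.mul_le_mul_left _ (by omega)
      omega
    interval_cases k
    · left; omega
    · right; left; omega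
  · have hc : Nat.Coprime (2 ^ i * 2) y := by
      rw [← pow_succ]
      apply Nat.Coprime.pow_left
      rw [Nat.coprime_two_left]
      exact hy
    have h4 : 2 ^ i * 2 ∣ 4 * (y + 1) := by
      have : 4 * (y * (y + 1)) = 4 * (y + 1) * y := by ring
      rw [this] at h
      exact hc.dvd_of_dvd_mul_right h
    have h5 : 2 ^ i ∣ 2 * (y + 1) := by
      have : 4 * (y + 1) = 2 * (y + 1) * 2 := by ring
      rw [this] at h4
      exact Nat.dvd_of_mul_dvd_mul_right (by norm_num) h4
    obtain ⟨k, hk⟩ := h5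
    have hk2 : k < 4 := by
      by_contra hcon
      have h6 : 2 ^ i * 4 ≤ 2 ^ i * k := Nat.mul_le_mul_left _ (by omega)
      have h7 : 1 ≤ 2 ^ i := Nat.one_le_two_pow
      omega
    interval_cases k
    · omega
    · right; right; left; omega
    · right; right; right; left; omega
    · right; right; right; right; omega

lemma sol_two {j : ℕ} (hj : 1 ≤ j) : sol 2 (2 ^ j) ≤ 5 := by
  classical
  haveI : NeZero (2 ^ j) := ⟨by positivity⟩
  unfold sol
  rw [Nat.card_eq_fintype_card, Fintype.card_subtype]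
  have hsub : (univ.filter (fun u : ZMod (2 ^ j) => u ^ 2 = 1)) ⊆
      (({0, 2 ^ (j - 1), 2 ^ (j - 1) - 2, 2 ^ j - 2, 2 ^ (j - 1) * 3 - 2} : Finset ℕ).image
        (fun x : ℕ => ((x + 1 : ℕ) : ZMod (2 ^ j)))) := by
    intro u hu
    have hu' := (mem_filter.1 hu).2
    obtain ⟨x, hx⟩ : ∃ x : ℕ, x = (u - 1).val := ⟨_, rfl⟩
    have hxlt : x < 2 ^ j := by rw [hx]; exact ZMod.val_lt _
    have hux : u = ((x + 1 : ℕ) : ZMod (2 ^ j)) := by
      push_cast
      rw [hx, ZMod.natCast_zmod_val]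
      ring
    have hd : 2 ^ j ∣ hp 2 x := by
      rw [dvd_hp, ← hux]
      exact hu'
    have hd' : 2 ^ j ∣ (x + 1) ^ 2 - 1 := hd
    rw [mem_image]
    refine ⟨x, ?_, hux.symm⟩
    rcases two_adic hj hd' hxlt with h | h | h | h | h
    · simp [h]
    · simp [h]
    · have : x = 2 ^ (j - 1) - 2 := by omega
      simp [this]
    · have : x = 2 ^ j - 2 := by omega
      simp [this]
    · have : x = 2 ^ (j - 1) * 3 - 2 := by omega
      simp [this]
  refine (Finset.card_le_card hsub).trans (Finset.card_image_le.trans ?_)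
  exact (Finset.card_le_five)

lemma sol_pp {p l j : ℕ} (hp : p.Prime) (hl : l.Prime) (hj : 0 < j) : sol p (l ^ j) ≤ p + 5 := by
  haveI : NeZero (l ^ j) := ⟨pow_ne_zero _ hl.ne_zero⟩
  by_cases h2 : l = 2
  · subst h2
    by_cases hp2 : p = 2
    · subst hp2
      exact (sol_two hj).trans (by omega)
    · exact (sol_odd2 hp hp2).trans (by omega)
  · have hc : IsCyclic (ZMod (l ^ j))ˣ := ZMod.isCyclic_units_of_prime_pow l hl h2 j
    exact (sol_cyc hp.pos hc).trans (by omega)

lemma sol_div {p : ℕ} (hp : p.Prime) (d : ℕ) : 1 ≤ d →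
    sol p d ≤ d.divisors.card ^ (p + 5) := by
  induction d using Nat.recOnPosPrimePosCoprime with
  | prime_pow l j hl hj =>
    intro _
    have h1 := sol_pp (p := p) hp hl hj
    have h2 : (l ^ j).divisors.card = j + 1 := by
      rw [Nat.divisors_prime_pow hl, Finset.card_map, Finset.card_range]
    rw [h2]
    calc sol p (l ^ j) ≤ p + 5 := h1
      _ ≤ 2 ^ (p + 5) := Nat.lt_two_pow_self.le
      _ ≤ (j + 1) ^ (p + 5) := Nat.pow_le_pow_left (by omega) _
  | zero => intro h; omega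
  | one =>
    intro _
    unfold sol
    haveI : Subsingleton (ZMod 1) := inferInstance
    have : Nat.card {u : ZMod 1 // u ^ p = 1} ≤ 1 := by
      rw [Nat.card_eq_fintype_card, Fintype.card_le_one_iff]
      intro a b
      exact Subsingleton.elim _ _
    simpa using this
  | coprime a b ha hb hab iha ihb =>
    intro _
    rw [sol_mul hab, Nat.Coprime.card_divisors_mul hab, mul_pow]
    exact Nat.mul_le_mul (iha (by omega)) (ihb (by omega))

end PkgADM1

open PkgADM1 Finset in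
theorem T_ADM1 : P_ADM1 := by
  intro p hp0
  refine ⟨?_, ?_, ?_, ?_⟩
  · intro d x y hxy
    have h1 : (x + 1) ^ p ≡ (y + 1) ^ p [MOD d] := (hxy.add_right 1).pow p
    rw [← hp_add, ← hp_add] at h1
    exact Nat.ModEq.add_right_cancel' 1 h1
  · intro l hl
    classical
    haveI : Fact l.Prime := ⟨hl⟩
    refine (card_le p l hl.one_le).trans ?_
    unfold sol
    rw [Nat.card_eq_fintype_card, Fintype.card_subtype]
    have h1 : (univ.filter (fun u : ZMod l => u ^ p = 1)) ⊆
        (Polynomial.nthRoots p (1 : ZMod l)).toFinset := by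
      intro u hu
      rw [Multiset.mem_toFinset, Polynomial.mem_nthRoots hp0.pos]
      exact (mem_filter.1 hu).2
    exact (Finset.card_le_card h1).trans ((Multiset.toFinset_card_le _).trans
      (Polynomial.card_nthRoots p 1))
  · intro l hl
    refine ⟨l - 1, fun h => ?_⟩
    have h1 := hp_add p (l - 1)
    rw [Nat.sub_add_cancel hl.one_le] at h1
    have h2 : l ∣ l ^ p := dvd_pow_self l hp0.ne_zero
    rw [← h1] at h2
    exact hl.one_lt.ne' (Nat.dvd_one.1 ((Nat.dvd_add_right h).1 h2))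
  · intro δ hδ
    obtain ⟨C, hC1, hC⟩ := Pool.Agent.H373R2.T4.DivB.div_bound
      (δ := δ / (p + 5 : ℕ)) (by positivity)
    refine ⟨C ^ (p + 5), fun d hd => ?_⟩
    have h1 : (((range d).filter (fun x => d ∣ hp p x)).card : ℝ) ≤
        (d.divisors.card : ℝ) ^ (p + 5) := by
      exact_mod_cast (card_le p d hd).trans (sol_div hp0 d hd)
    refine h1.trans ?_
    have h2 := hC d (by omega)
    calc (d.divisors.card : ℝ) ^ (p + 5) ≤ (C * (d : ℝ) ^ (δ / (p + 5 : ℕ))) ^ (p + 5) :=
          pow_le_pow_left₀ (Nat.cast_nonneg _) h2 _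
      _ = C ^ (p + 5) * (d : ℝ) ^ δ := by
          rw [mul_pow, ← Real.rpow_natCast ((d : ℝ) ^ (δ / (p + 5 : ℕ))), ← Real.rpow_mul
            (Nat.cast_nonneg _)]
          congr 2
          have : ((p + 5 : ℕ) : ℝ) ≠ 0 := by positivity
          field_simp

end Pool.Agent.T2H19.GR
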