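import Pool.Agent.T2H19.GR.Stm

/-! # Package CHN : the zeros of the recursion -/

set_option autoImplicit false
set_option linter.unusedVariables false

namespace Pool.Agent.T2H19.GR.PkgCHN

open Pool.Agent.T2H19.GR

lemma zt_zero (H : ℕ → ℕ) (n : ℕ) : zt H n 0 = n := by
  rw [zt]
  simp

lemma zt_pos (H : ℕ → ℕ) (n a : ℕ) (ha : a ≠ 0) :
    zt H n a = zt H (n + 1) (a - Nat.gcd a (H (a + n))) := by
  rw [zt]
  simp [ha]

/-- one stage -/
lemma stage (hZT : P_ZT) {h R : ℕ → ℕ} {X : ℕ → ℕ → ℕ} {a σ : ℕ → ℕ} {s₀ : ℕ} (hR : ∀ s, 0 < R s)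
    (h1 : ∀ n, s₀ ≤ n → a n = 0 → a (n + 1) = R n ∧ σ (n + 1) = n)
    (h2 : ∀ n, s₀ ≤ n → a n ≠ 0 →
      a (n + 1) = a n - Nat.gcd (a n) (h (X (σ n) (a n + n))) ∧ σ (n + 1) = σ n)
    {s : ℕ} (hs : s₀ ≤ s) (ha : a s = 0) :
    ∀ k, s + 1 + k ≤ nx h R X s → σ (s + 1 + k) = s ∧
      zt (fun b => h (X s b)) (s + 1 + k) (a (s + 1 + k)) = nx h R X s ∧
      (a (s + 1 + k) = 0 ↔ s + 1 + k = nx h R X s) := by
  have hlast : ∀ n, zt (fun b => h (X s b)) n (a n) = nx h R X s →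
      (a n = 0 ↔ n = nx h R X s) := by
    intro n hn
    constructor
    · intro h0
      rw [h0, zt_zero] at hn
      exact hn
    · intro h0
      by_contra hc
      have := (hZT.1 (fun b => h (X s b)) n (a n)).2.2 (Nat.pos_of_ne_zero hc)
      omega
  intro k
  induction k with
  | zero =>
    intro _
    obtain ⟨h3, h4⟩ := h1 s hs ha
    have h5 : zt (fun b => h (X s b)) (s + 1) (a (s + 1)) = nx h R X s := by
      rw [h3]
      rfl
    exact ⟨h4, h5, hlast _ h5⟩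
  | succ k ih =>
    intro hk
    obtain ⟨h3, h4, h5⟩ := ih (by omega)
    have h6 : a (s + 1 + k) ≠ 0 := fun hc => by
      have := h5.1 hc
      omega
    obtain ⟨h7, h8⟩ := h2 (s + 1 + k) (by omega) h6
    have h9 : zt (fun b => h (X s b)) (s + 1 + (k + 1)) (a (s + 1 + (k + 1))) = nx h R X s := by
      rw [zt_pos _ _ _ h6] at h4
      rw [h3] at h7
      rw [← h4, ← Nat.add_assoc, h7]
    exact ⟨by rw [← Nat.add_assoc, h8, h3], h9, hlast _ h9⟩

end Pool.Agent.T2H19.GR.PkgCHN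

namespace Pool.Agent.T2H19.GR

open PkgCHN

theorem T_CHN (hZT : P_ZT) : P_CHN := by
  intro h R X a σ s₀ hR ha0 h1 h2
  have hnx : ∀ s, s < nx h R X s := fun s =>
    (hZT.1 (fun b => h (X s b)) (s + 1) (R s)).1
  have hmono : StrictMono (ch h R X s₀) := strictMono_nat_of_lt_succ fun k => hnx _
  have hge : ∀ k, s₀ ≤ ch h R X s₀ k := fun k => hmono.monotone (Nat.zero_le k)
  have hst : ∀ s, s₀ ≤ s → a s = 0 → a (nx h R X s) = 0 ∧ σ (nx h R X s) = s ∧
      ∀ n, s < n → n < nx h R X s → a n ≠ 0 := by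
    intro s hs ha
    have key := stage hZT hR h1 h2 hs ha
    have hlt := hnx s
    have e1 : s + 1 + (nx h R X s - (s + 1)) = nx h R X s := by omega
    have k1 := key (nx h R X s - (s + 1)) (by omega)
    rw [e1] at k1
    refine ⟨k1.2.2.2 rfl, k1.1, fun n hn1 hn2 hc => ?_⟩
    have e2 : s + 1 + (n - (s + 1)) = n := by omega
    have k2 := key (n - (s + 1)) (by omega)
    rw [e2] at k2
    have := k2.2.2.1 hc
    omega
  have hz : ∀ k, a (ch h R X s₀ k) = 0 := by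
    intro k
    induction k with
    | zero => exact ha0
    | succ k ih => exact (hst _ (hge k) ih).1
  refine ⟨hmono, fun n hn => ⟨fun h0 => ?_, ?_⟩, fun k => (hst _ (hge k) (hz k)).2.1⟩
  · have hex : ∃ k, n < ch h R X s₀ k := ⟨n + 1, lt_of_lt_of_le (Nat.lt_succ_self n)
      (hmono.le_apply (x := n + 1))⟩
    classical
    have h3 := Nat.find_spec hex
    have h4 : Nat.find hex ≠ 0 := by
      intro hc
      rw [hc] at h3
      have : ch h R X s₀ 0 = s₀ := rfl
      omega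
    obtain ⟨k, hk⟩ := Nat.exists_eq_succ_of_ne_zero h4
    have h5 := Nat.find_min hex (m := k) (by omega)
    rw [hk] at h3
    refine ⟨k, ?_⟩
    by_contra hne
    exact (hst _ (hge k) (hz k)).2.2 n (by omega) h3 h0
  · rintro ⟨k, rfl⟩
    exact hz k

end Pool.Agent.T2H19.GR
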