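import Pool.Agent.T2H19.GR.Stm
import Pool.Agent.Cov.PrimesAP
import Pool.Agent.Helper601.Mertens

/-! # Package CMP -/

set_option autoImplicit false

namespace Pool.Agent.T2H19.GR

open MeasureTheory ProbabilityTheory Finset Filter Topology

namespace PkgCMP

/-! ## Algebra of `qp` -/

theorem hp_eq (p x : ℕ) : (x + 1) ^ p = x * qp p x + 1 := by
  rw [add_pow, Finset.sum_range_succ', qp, Finset.mul_sum]
  simp only [one_pow, mul_one, pow_zero, Nat.choose_zero_right, Nat.cast_one]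
  congr 1
  rw [Finset.sum_bij (fun k _ => k + 1)]
  · intro k hk
    rw [Finset.mem_range] at hk
    rw [Finset.mem_Icc]
    omega
  · intro a _ b _ h
    omega
  · intro k hk
    rw [Finset.mem_Icc] at hk
    exact ⟨k - 1, by rw [Finset.mem_range]; omega, by omega⟩
  · intro k _
    rw [Nat.add_sub_cancel, pow_succ]
    push_cast
    ring

theorem hp_mul (p x : ℕ) : hp p x = x * qp p x := by
  rw [hp, hp_eq, Nat.add_sub_cancel]

theorem qp_mod (p l y : ℕ) : l ∣ qp p (y % l) ↔ l ∣ qp p y := by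
  rw [← ZMod.natCast_eq_zero_iff, ← ZMod.natCast_eq_zero_iff]
  simp only [qp, Nat.cast_sum, Nat.cast_mul, Nat.cast_pow, ZMod.natCast_mod]

theorem hp_mod (p l y : ℕ) : l ∣ hp p (y % l) ↔ l ∣ hp p y := by
  rw [hp_mul, hp_mul, ← ZMod.natCast_eq_zero_iff, ← ZMod.natCast_eq_zero_iff]
  simp only [qp, Nat.cast_sum, Nat.cast_mul, Nat.cast_pow, ZMod.natCast_mod]

theorem qp_ge {p : ℕ} (hp1 : 1 ≤ p) (x : ℕ) : x ^ (p - 1) ≤ qp p x := by
  rw [qp]
  calc x ^ (p - 1) = p.choose p * x ^ (p - 1) := by rw [Nat.choose_self, one_mul]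
    _ ≤ _ := Finset.single_le_sum (f := fun k => p.choose k * x ^ (k - 1)) (fun _ _ => Nat.zero_le _)
        (by rw [Finset.mem_Icc]; omega)

theorem qp_le {p x : ℕ} (hx : 2 ≤ x) : qp p x ≤ x ^ (2 * p) := by
  have h1 : qp p x ≤ (x + 1) ^ p := by
    rw [hp_eq]
    have : qp p x ≤ x * qp p x := Nat.le_mul_of_pos_left _ (by omega)
    omega
  have h2 : (x + 1) ^ p ≤ (x ^ 2) ^ p := Nat.pow_le_pow_left (by nlinarith) p
  rw [← pow_mul] at h2
  exact h1.trans h2

/-- the roots of `qp` -/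
theorem qp_root {p l : ℕ} (hpp : p.Prime) (hl : l.Prime) (h : l % p = 1) : ∃ x < l, l ∣ qp p x := by
  have := Fact.mk hl
  have := Fact.mk hpp
  have hdvd : p ∣ Nat.card (ZMod l)ˣ := by
    rw [Nat.card_eq_fintype_card, ZMod.card_units]
    have := Nat.div_add_mod l p
    rw [h] at this
    exact ⟨l / p, by omega⟩
  obtain ⟨u, hu⟩ := exists_prime_orderOf_dvd_card' p hdvd
  have hu1 : (u : ZMod l) ≠ 1 := by
    intro h1
    have : u = 1 := Units.ext h1
    rw [this, orderOf_one] at hu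
    exact hpp.one_lt.ne hu
  have hup : (u : ZMod l) ^ p = 1 := by
    rw [← hu, ← Units.val_pow_eq_pow_val, pow_orderOf_eq_one, Units.val_one]
  refine ⟨((u : ZMod l) - 1).val, ZMod.val_lt _, ?_⟩
  set x := ((u : ZMod l) - 1).val with hx
  have hxc : (x : ZMod l) = (u : ZMod l) - 1 := by rw [hx, ZMod.natCast_zmod_val]
  have hx0 : (x : ZMod l) ≠ 0 := by rw [hxc]; exact sub_ne_zero.2 hu1
  have h2 : (((x + 1) ^ p : ℕ) : ZMod l) = 1 := by
    push_cast
    rw [hxc, sub_add_cancel, hup]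
  rw [hp_eq] at h2
  push_cast at h2
  have h3 : (x : ZMod l) * (qp p x : ZMod l) = 0 := by
    have := sub_eq_zero.2 h2
    rwa [add_sub_cancel_right] at this
  rw [← ZMod.natCast_eq_zero_iff]
  exact (mul_eq_zero.1 h3).resolve_left hx0

/-! ## `un` -/

theorem un_eq (M : ℕ) (Q : ℕ → Prop) [DecidablePred Q] :
    un M Q = (((range M).filter Q).card : ℝ) / M := by
  unfold un
  congr!

theorem un_nonneg (M : ℕ) (Q : ℕ → Prop) : 0 ≤ un M Q := by
  unfold un
  positivity

theorem un_split (M : ℕ) (Q R : ℕ → Prop) :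
    un M Q = un M (fun y => Q y ∧ R y) + un M (fun y => Q y ∧ ¬ R y) := by
  classical
  unfold un
  rw [← add_div]
  congr 1
  have := Finset.card_filter_add_card_filter_not (s := (range M).filter Q) (p := R)
  rw [Finset.filter_filter, Finset.filter_filter] at this
  have h2 : (((range M).filter Q).card : ℝ) = (((range M).filter (fun y => Q y ∧ R y)).card : ℝ) +
      (((range M).filter (fun y => Q y ∧ ¬ R y)).card : ℝ) := by exact_mod_cast this.symm
  convert h2

theorem un_not {M : ℕ} (hM : 0 < M) (Q : ℕ → Prop) : un M (fun y => ¬ Q y) = 1 - un M Q := by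
  classical
  have h := un_split M (fun _ => True) Q
  have h1 : un M (fun _ => True) = 1 := by
    unfold un
    have h2 : ((((range M).filter (fun _ => True)).card : ℕ) : ℝ) = M := by simp
    have hM' : (M : ℝ) ≠ 0 := by exact_mod_cast hM.ne'
    rw [div_eq_one_iff_eq hM']
    convert h2
  simp only [true_and] at h
  rw [h1] at h
  linarith

/-! ## primes in the progression `1 mod p` -/

theorem ap_lower {p : ℕ} (hpp : p.Prime) :
    ∀ᶠ b : ℕ in atTop, 1 / (40 * (p : ℝ)) ≤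
      ∑ l ∈ (range (b ^ 2 + 1)).filter (fun l => l.Prime ∧ 2 * b < l ∧ l % p = 1), 1 / (l : ℝ) := by
  obtain ⟨I₀, hI₀⟩ := Pool.Agent.Cov.fresh_lower 1 p le_rfl hpp
  have hp0 : (0 : ℝ) < p := by exact_mod_cast hpp.pos
  filter_upwards [eventually_ge_atTop (2 ^ (I₀ + 20))] with b hb
  -- `K = log2 b`
  have hb0 : b ≠ 0 := by
    have : 0 < 2 ^ (I₀ + 20) := by positivity
    omega
  set K := Nat.log 2 b with hK
  have hK1 : 2 ^ K ≤ b := Nat.pow_log_le_self 2 hb0
  have hK2 : b < 2 ^ (K + 1) := Nat.lt_pow_succ_log_self (by norm_num) b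
  have hKI : I₀ + 20 ≤ K := by
    rw [hK]
    exact Nat.le_log_of_pow_le (by norm_num) hb
  -- the scales `I` in `[K + 4, 2 K]`
  have hdis : ((Finset.Icc (K + 4) (2 * K) : Finset ℕ) : Set ℕ).PairwiseDisjoint
      (fun I => Pool.Agent.Cov.Fr 1 p I) := by
    intro I _ J _ hIJ
    simp only [Function.onFun]
    rw [Finset.disjoint_left]
    intro r h4 h5
    rw [Pool.Agent.Cov.Fr, Finset.mem_filter] at h4 h5
    exact hIJ (h4.2.2.2.symm.trans h5.2.2.2)
  have hsub : (Finset.Icc (K + 4) (2 * K)).biUnion (fun I => Pool.Agent.Cov.Fr 1 p I) ⊆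
      (range (b ^ 2 + 1)).filter (fun l => l.Prime ∧ 2 * b < l ∧ l % p = 1) := by
    intro r hr
    rw [Finset.mem_biUnion] at hr
    obtain ⟨I, hI, hr⟩ := hr
    rw [Finset.mem_Icc] at hI
    rw [Pool.Agent.Cov.Fr, Finset.mem_filter] at hr
    obtain ⟨_, hr1, hr2, hr3⟩ := hr
    have hr0 : 2 * 1 * r ≠ 0 := by have := hr1.pos; omega
    rw [Nat.log_eq_iff (Or.inr ⟨by norm_num, hr0⟩)] at hr3
    have g1 : 2 ^ (K + 4) ≤ 2 ^ I := Nat.pow_le_pow_right (by norm_num) hI.1
    have g2 : 2 ^ I ≤ 2 ^ (2 * K) := Nat.pow_le_pow_right (by norm_num) hI.2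
    have g3 : 2 ^ (2 * K) ≤ b ^ 2 := by
      rw [mul_comm, pow_mul]
      exact Nat.pow_le_pow_left hK1 2
    have g4 : 2 ^ (K + 4) = 8 * 2 ^ (K + 1) := by rw [pow_succ, pow_succ, pow_succ, pow_succ]; ring
    rw [pow_succ 2 I] at hr3
    rw [Finset.mem_filter, Finset.mem_range]
    refine ⟨by omega, hr1, by omega, hr2⟩
  have hterm : ∀ I ∈ Finset.Icc (K + 4) (2 * K), 1 / (16 * (p : ℝ) * K) ≤
      ∑ r ∈ Pool.Agent.Cov.Fr 1 p I, 1 / (r : ℝ) := by
    intro I hI
    rw [Finset.mem_Icc] at hI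
    have hI0 : (0 : ℝ) < I := by exact_mod_cast (show 0 < I by omega)
    have hK0 : (0 : ℝ) < K := by exact_mod_cast (show 0 < K by omega)
    have h4 := hI₀ I (by omega)
    have h5 : ((Pool.Agent.Cov.Fr 1 p I).card : ℝ) * (1 / 2 ^ I) ≤
        ∑ r ∈ Pool.Agent.Cov.Fr 1 p I, 1 / (r : ℝ) := by
      rw [← nsmul_eq_mul]
      refine Finset.card_nsmul_le_sum _ _ _ fun r hr => ?_
      rw [Pool.Agent.Cov.Fr, Finset.mem_filter] at hr
      have hr0 : (0 : ℝ) < r := by exact_mod_cast hr.2.1.pos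
      have g : 2 * 1 * r < 2 ^ (I + 1) := by
        rw [← hr.2.2.2]
        exact Nat.lt_pow_succ_log_self (by norm_num) _
      rw [pow_succ] at g
      have g2 : r ≤ 2 ^ I := by omega
      apply one_div_le_one_div_of_le hr0
      exact_mod_cast g2
    refine le_trans ?_ h5
    have h2I : (0 : ℝ) < 2 ^ I := by positivity
    rw [mul_one_div, le_div_iff₀ h2I]
    refine le_trans ?_ h4
    have hI2 : (I : ℝ) ≤ 2 * K := by exact_mod_cast hI.2
    rw [div_mul_eq_mul_div, one_mul]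
    apply div_le_div_of_nonneg_left (by positivity) (by positivity)
    push_cast
    nlinarith [mul_le_mul_of_nonneg_left hI2 hp0.le]
  have hK0 : (0 : ℝ) < K := by exact_mod_cast (show 0 < K by omega)
  calc 1 / (40 * (p : ℝ)) ≤ ((Finset.Icc (K + 4) (2 * K)).card : ℝ) * (1 / (16 * (p : ℝ) * K)) := by
        rw [Nat.card_Icc]
        have h6 : (K : ℝ) ≤ 2 * ((2 * K + 1 - (K + 4) : ℕ) : ℝ) := by
          exact_mod_cast (show K ≤ 2 * (2 * K + 1 - (K + 4)) by omega)
        rw [mul_one_div, div_le_div_iff₀ (by positivity) (by positivity)]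
        nlinarith [mul_le_mul_of_nonneg_left h6 hp0.le]
    _ ≤ ∑ I ∈ Finset.Icc (K + 4) (2 * K), ∑ r ∈ Pool.Agent.Cov.Fr 1 p I, 1 / (r : ℝ) := by
        rw [← nsmul_eq_mul]
        exact Finset.card_nsmul_le_sum _ _ _ hterm
    _ = ∑ r ∈ (Finset.Icc (K + 4) (2 * K)).biUnion (fun I => Pool.Agent.Cov.Fr 1 p I), 1 / (r : ℝ) :=
        (Finset.sum_biUnion hdis).symm
    _ ≤ _ := Finset.sum_le_sum_of_subset_of_nonneg hsub fun r _ _ => by positivity

/-- all the primes in `(2b, b^p]` -/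
theorem mert_upper {p : ℕ} (hpp : p.Prime) :
    ∃ C : ℝ, ∀ b : ℕ, 3 ≤ b →
      ∑ l ∈ (range (b ^ p + 1)).filter (fun l => l.Prime ∧ 2 * b < l), 1 / (l : ℝ) ≤ C := by
  obtain ⟨C, hC⟩ := Pool.Agent.Helper601.Mertens.mertens_inv
  refine ⟨Real.log p + 2 * C, fun b hb => ?_⟩
  have hbp : b ≤ b ^ p := Nat.le_self_pow hpp.ne_zero b
  have hb2p : 2 * b ≤ b ^ p := by
    have : b ^ 2 ≤ b ^ p := Nat.pow_le_pow_right (by omega) hpp.two_le
    nlinarith
  have h1 := abs_le.1 (hC (b ^ p) (by omega))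
  have h2 := abs_le.1 (hC (2 * b) (by omega))
  have hb1 : (1 : ℝ) < b := by exact_mod_cast (show 1 < b by omega)
  have hlb : 0 < Real.log b := Real.log_pos hb1
  have hp0 : (0 : ℝ) < p := by exact_mod_cast hpp.pos
  have h3 : Real.log (Real.log ((b ^ p : ℕ) : ℝ)) = Real.log p + Real.log (Real.log b) := by
    push_cast
    rw [Real.log_pow, Real.log_mul hp0.ne' hlb.ne']
  have h4 : Real.log (Real.log b) ≤ Real.log (Real.log ((2 * b : ℕ) : ℝ)) := by
    apply Real.log_le_log hlb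
    apply Real.log_le_log (by linarith)
    push_cast
    linarith
  have h5 : ∑ l ∈ (range (b ^ p + 1)).filter (fun l => l.Prime ∧ 2 * b < l), 1 / (l : ℝ) +
      ∑ l ∈ (Finset.Icc 1 (2 * b)).filter Nat.Prime, 1 / (l : ℝ) =
      ∑ l ∈ (Finset.Icc 1 (b ^ p)).filter Nat.Prime, 1 / (l : ℝ) := by
    rw [← Finset.sum_union]
    · apply Finset.sum_congr _ fun _ _ => rfl
      ext l
      simp only [Finset.mem_union, Finset.mem_filter, Finset.mem_range, Finset.mem_Icc]
      constructor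
      · rintro (⟨h6, h7, h8⟩ | ⟨⟨h6, h7⟩, h8⟩)
        · exact ⟨⟨h7.pos, by omega⟩, h7⟩
        · exact ⟨⟨h6, by omega⟩, h8⟩
      · rintro ⟨⟨h6, h7⟩, h8⟩
        rcases le_or_gt l (2 * b) with h9 | h9
        · exact Or.inr ⟨⟨h6, h9⟩, h8⟩
        · exact Or.inl ⟨by omega, h8, h9⟩
    · rw [Finset.disjoint_left]
      intro l h6 h7
      simp only [Finset.mem_filter, Finset.mem_Icc] at h6 h7
      omega
  linarith [h1.1, h1.2, h2.1, h2.2]

theorem one_sub_ge {t : ℝ} (h0 : 0 ≤ t) (h1 : t ≤ 1 / 2) : Real.exp (-(2 * t)) ≤ 1 - t := by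
  -- `exp (2t) (1 - t) ≥ (1 + 2 t)(1 - t) ≥ 1`
  rw [Real.exp_neg, inv_le_comm₀ (Real.exp_pos _) (by linarith)]
  have h2 := Real.add_one_le_exp (2 * t)
  refine le_trans ?_ h2
  rw [inv_le_iff_one_le_mul₀ (by linarith)]
  nlinarith

end PkgCMP

open PkgCMP

theorem T_CMP (hCRT : P_CRT) (hADM1 : P_ADM1) : P_CMP := by
  intro p hpp hp5
  obtain ⟨C, hC⟩ := mert_upper hpp
  have hp0 : (0 : ℝ) < p := by exact_mod_cast hpp.pos
  have hadm := hADM1 p hpp
  set θ₁ : ℝ := Real.exp (-(2 * p * C)) with hθ₁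
  set θ₂ : ℝ := 1 - Real.exp (-(1 / (40 * (p : ℝ)))) with hθ₂
  have hθ₁0 : 0 < θ₁ := Real.exp_pos _
  have hθ₂0 : 0 < θ₂ := by
    rw [hθ₂, sub_pos, Real.exp_lt_one_iff]
    have : 0 < 1 / (40 * (p : ℝ)) := by positivity
    linarith
  refine ⟨min θ₁ θ₂, lt_min hθ₁0 hθ₂0, ?_⟩
  filter_upwards [ap_lower hpp, eventually_ge_atTop (max 3 p)] with b hb hbp
  have hb3 : 3 ≤ b := le_trans (le_max_left _ _) hbp
  have hbp' : p ≤ b := le_trans (le_max_right _ _) hbp
  set M := (b ^ p).factorial with hM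
  have hM0 : 0 < M := Nat.factorial_pos _
  have hb2p : 2 * b ≤ b ^ p := by
    have : b ^ 2 ≤ b ^ p := Nat.pow_le_pow_right (by omega) hpp.two_le
    nlinarith
  -- the prime sets
  set S := (range (2 * b + 1)).filter Nat.Prime with hS
  set T := (range (b ^ p + 1)).filter (fun l => l.Prime ∧ 2 * b < l ∧ l ^ 2 ≤ qp p b) with hT
  have hSm : ∀ l, l ∈ S ↔ l.Prime ∧ l ≤ 2 * b := by
    intro l
    rw [hS, Finset.mem_filter, Finset.mem_range]
    constructor
    · rintro ⟨h1, h2⟩; exact ⟨h2, by omega⟩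
    · rintro ⟨h1, h2⟩; exact ⟨by omega, h1⟩
  have hTm : ∀ l, l ∈ T ↔ l.Prime ∧ 2 * b < l ∧ l ^ 2 ≤ qp p b := by
    intro l
    rw [hT, Finset.mem_filter, Finset.mem_range]
    constructor
    · rintro ⟨_, h2⟩; exact h2
    · intro h2
      refine ⟨?_, h2⟩
      have h3 : l ^ 2 ≤ (b ^ p) ^ 2 := by
        refine h2.2.2.trans ((qp_le (by omega)).trans (le_of_eq ?_))
        rw [← pow_mul, mul_comm]
      have := (Nat.pow_le_pow_iff_left (by norm_num : 2 ≠ 0)).1 h3
      omega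
  have hdis : Disjoint S T := by
    rw [Finset.disjoint_left]
    intro l h1 h2
    rw [hSm] at h1
    rw [hTm] at h2
    omega
  have hSM : ∀ l ∈ S, l.Prime ∧ l ∣ M := by
    intro l hl
    rw [hSm] at hl
    exact ⟨hl.1, Nat.dvd_factorial hl.1.pos (by omega)⟩
  have hTM : ∀ l ∈ T, l.Prime ∧ l ∣ M := by
    intro l hl
    rw [hT, Finset.mem_filter, Finset.mem_range] at hl
    exact ⟨hl.2.1, Nat.dvd_factorial hl.2.1.pos (by omega)⟩
  -- the two products
  have hF : un M (fun y => Free b (hp p y)) = ∏ l ∈ S, un l (fun x => ¬ l ∣ hp p x) := by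
    rw [← hCRT M S (fun l x => ¬ l ∣ hp p x) hM0 hSM]
    congr 1
    funext y
    apply propext
    unfold Free
    constructor
    · intro h l hl
      rw [hp_mod]
      rw [hSm] at hl
      exact h l hl.1 hl.2
    · intro h l hl1 hl2
      have := h l ((hSm l).2 ⟨hl1, hl2⟩)
      rwa [hp_mod] at this
  set Pr : ℝ := ∏ l ∈ T, un l (fun x => ¬ l ∣ qp p x) with hPr
  have hFC : un M (fun y => Free b (hp p y) ∧ ¬ Comp p b y) =
      un M (fun y => Free b (hp p y)) * Pr := by
    have hU : ∀ l ∈ S ∪ T, l.Prime ∧ l ∣ M := by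
      intro l hl
      rcases Finset.mem_union.1 hl with h | h
      · exact hSM l h
      · exact hTM l h
    have h1 := hCRT M (S ∪ T) (fun l x => (l ≤ 2 * b → ¬ l ∣ hp p x) ∧ (2 * b < l → ¬ l ∣ qp p x)) hM0 hU
    rw [Finset.prod_union hdis] at h1
    have h2 : ∏ l ∈ S, un l (fun x => (l ≤ 2 * b → ¬ l ∣ hp p x) ∧ (2 * b < l → ¬ l ∣ qp p x)) =
        ∏ l ∈ S, un l (fun x => ¬ l ∣ hp p x) := by
      refine Finset.prod_congr rfl fun l hl => ?_
      rw [hSm] at hl
      congr 1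
      funext x
      apply propext
      constructor
      · rintro ⟨h3, _⟩; exact h3 hl.2
      · intro h3; exact ⟨fun _ => h3, fun h4 => absurd h4 (by omega)⟩
    have h3 : ∏ l ∈ T, un l (fun x => (l ≤ 2 * b → ¬ l ∣ hp p x) ∧ (2 * b < l → ¬ l ∣ qp p x)) = Pr := by
      rw [hPr]
      refine Finset.prod_congr rfl fun l hl => ?_
      rw [hTm] at hl
      congr 1
      funext x
      apply propext
      constructor
      · rintro ⟨_, h3⟩; exact h3 hl.2.1
      · intro h3; exact ⟨fun h4 => absurd h4 (by omega), fun _ => h3⟩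
    rw [h2, h3, ← hF] at h1
    rw [← h1]
    congr 1
    funext y
    apply propext
    unfold Free Comp
    constructor
    · rintro ⟨h4, h5⟩ l hl
      push Not at h5
      refine ⟨fun h6 => ?_, fun h6 => ?_⟩
      · rw [hp_mod]
        rcases Finset.mem_union.1 hl with h | h
        · exact h4 l ((hSm l).1 h).1 h6
        · have := (hTm l).1 h; omega
      · rw [qp_mod]
        rcases Finset.mem_union.1 hl with h | h
        · have := (hSm l).1 h; omega
        · exact h5 l ((hTm l).1 h).1 ((hTm l).1 h).2.2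
    · intro h4
      refine ⟨fun l hl1 hl2 => ?_, ?_⟩
      · have := (h4 l (Finset.mem_union_left _ ((hSm l).2 ⟨hl1, hl2⟩))).1 hl2
        rwa [hp_mod] at this
      · rintro ⟨l, hl1, hl2, hl3⟩
        rcases le_or_gt l (2 * b) with h5 | h5
        · have := (h4 l (Finset.mem_union_left _ ((hSm l).2 ⟨hl1, h5⟩))).1 h5
          rw [hp_mod, hp_mul] at this
          exact this (Dvd.dvd.mul_left hl3 y)
        · have := (h4 l (Finset.mem_union_right _ ((hTm l).2 ⟨hl1, h5, hl2⟩))).2 h5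
          rw [qp_mod] at this
          exact this hl3
  -- bounds for the product
  have hN1 : ∀ l ∈ T, un l (fun x => l ∣ qp p x) ≤ p / l := by
    intro l hl
    have hl' := (hTm l).1 hl
    have h1 := hadm.roots l hl'.1
    rw [un_eq]
    apply div_le_div_of_nonneg_right _ (by positivity)
    have h2 : ((range l).filter (fun x => l ∣ qp p x)).card ≤ ((range l).filter (fun x => l ∣ hp p x)).card := by
      apply Finset.card_le_card
      intro x hx
      rw [Finset.mem_filter] at hx ⊢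
      refine ⟨hx.1, ?_⟩
      rw [hp_mul]
      exact Dvd.dvd.mul_left hx.2 x
    exact_mod_cast h2.trans h1
  have hN2 : ∀ l ∈ T, l % p = 1 → 1 / (l : ℝ) ≤ un l (fun x => l ∣ qp p x) := by
    classical
    intro l hl hlp
    have hl' := (hTm l).1 hl
    obtain ⟨x, hx1, hx2⟩ := qp_root hpp hl'.1 hlp
    rw [un_eq]
    apply div_le_div_of_nonneg_right _ (by positivity)
    have h2 : 1 ≤ ((range l).filter (fun x => l ∣ qp p x)).card := by
      rw [Nat.one_le_iff_ne_zero, Finset.card_ne_zero]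
      exact ⟨x, Finset.mem_filter.2 ⟨Finset.mem_range.2 hx1, hx2⟩⟩
    exact_mod_cast h2
  have hnot : ∀ l ∈ T, un l (fun x => ¬ l ∣ qp p x) = 1 - un l (fun x => l ∣ qp p x) := by
    intro l hl
    exact un_not ((hTm l).1 hl).1.pos _
  -- lower bound
  have hPr1 : θ₁ ≤ Pr := by
    have h1 : ∏ l ∈ T, Real.exp (-(2 * (p / l))) ≤ Pr := by
      rw [hPr]
      refine Finset.prod_le_prod (fun l _ => (Real.exp_pos _).le) fun l hl => ?_
      rw [hnot l hl]
      have hl' := (hTm l).1 hl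
      have hl0 : (0 : ℝ) < l := by exact_mod_cast hl'.1.pos
      have h2 : (p : ℝ) / l ≤ 1 / 2 := by
        rw [div_le_div_iff₀ hl0 (by norm_num)]
        have : p * 2 ≤ 1 * l := by omega
        exact_mod_cast this
      have h3 := one_sub_ge (t := (p : ℝ) / l) (by positivity) h2
      have h4 := hN1 l hl
      linarith
    refine le_trans ?_ h1
    rw [← Real.exp_sum, hθ₁]
    apply Real.exp_le_exp.2
    rw [Finset.sum_neg_distrib, neg_le_neg_iff]
    have h2 : ∑ l ∈ T, 2 * ((p : ℝ) / l) = 2 * p * ∑ l ∈ T, 1 / (l : ℝ) := by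
      rw [Finset.mul_sum]
      refine Finset.sum_congr rfl fun l _ => ?_
      ring
    rw [h2]
    apply mul_le_mul_of_nonneg_left _ (by positivity)
    refine le_trans ?_ (hC b hb3)
    apply Finset.sum_le_sum_of_subset_of_nonneg
    · intro l hl
      rw [hT, Finset.mem_filter] at hl
      rw [Finset.mem_filter]
      exact ⟨hl.1, hl.2.1, hl.2.2.1⟩
    · intro l _ _
      positivity
  -- upper bound
  have hPr2 : Pr ≤ Real.exp (-(1 / (40 * (p : ℝ)))) := by
    have h1 : Pr ≤ ∏ l ∈ T, Real.exp (-(un l (fun x => l ∣ qp p x))) := by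
      rw [hPr]
      refine Finset.prod_le_prod (fun l _ => un_nonneg _ _) fun l hl => ?_
      rw [hnot l hl]
      have := Real.add_one_le_exp (-(un l (fun x => l ∣ qp p x)))
      linarith
    refine h1.trans ?_
    rw [← Real.exp_sum]
    apply Real.exp_le_exp.2
    rw [Finset.sum_neg_distrib, neg_le_neg_iff]
    refine hb.trans ?_
    have hb4 : b ^ 4 ≤ qp p b := by
      refine le_trans ?_ (qp_ge hpp.one_lt.le b)
      exact Nat.pow_le_pow_right (by omega) (by omega)
    have h2 : ∀ l ∈ (range (b ^ 2 + 1)).filter (fun l => l.Prime ∧ 2 * b < l ∧ l % p = 1), l ∈ T ∧ l % p = 1 := by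
      intro l hl
      rw [Finset.mem_filter, Finset.mem_range] at hl
      refine ⟨(hTm l).2 ⟨hl.2.1, hl.2.2.1, ?_⟩, hl.2.2.2⟩
      have h3 : l ^ 2 ≤ (b ^ 2) ^ 2 := Nat.pow_le_pow_left (by omega) 2
      rw [← pow_mul] at h3
      exact h3.trans hb4
    calc ∑ l ∈ (range (b ^ 2 + 1)).filter (fun l => l.Prime ∧ 2 * b < l ∧ l % p = 1), 1 / (l : ℝ)
        ≤ ∑ l ∈ (range (b ^ 2 + 1)).filter (fun l => l.Prime ∧ 2 * b < l ∧ l % p = 1),
            un l (fun x => l ∣ qp p x) := by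
          refine Finset.sum_le_sum fun l hl => ?_
          exact hN2 l (h2 l hl).1 (h2 l hl).2
      _ ≤ ∑ l ∈ T, un l (fun x => l ∣ qp p x) := by
          apply Finset.sum_le_sum_of_subset_of_nonneg
          · intro l hl
            exact (h2 l hl).1
          · intro l _ _
            exact un_nonneg _ _
  have hF0 : 0 ≤ un M (fun y => Free b (hp p y)) := un_nonneg _ _
  have hsplit := un_split M (fun y => Free b (hp p y)) (fun y => Comp p b y)
  constructor
  · have h1 : un M (fun y => Free b (hp p y) ∧ Comp p b y) = un M (fun y => Free b (hp p y)) * (1 - Pr) := by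
      have := hFC
      linarith
    rw [h1, mul_comm]
    apply mul_le_mul_of_nonneg_left _ hF0
    have := min_le_right θ₁ θ₂
    linarith
  · rw [hFC, mul_comm]
    apply mul_le_mul_of_nonneg_left _ hF0
    exact (min_le_left θ₁ θ₂).trans hPr1

end Pool.Agent.T2H19.GR
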