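import Pool.Agent.T2H19.GR.Stm2
import Pool.Agent.T2H19.GR.T_CMP

/-! # Package CMPL -/

set_option autoImplicit false

namespace Pool.Agent.T2H19.GR

open MeasureTheory ProbabilityTheory Finset Filter Topology

namespace PkgCMPL

open PkgCMP

/-! ## The roots of `qp` modulo a prime `l > p` -/

theorem dvd_qp_iff {p l x : ℕ} (hpp : p.Prime) (hl : l.Prime) (hpl : p < l) :
    l ∣ qp p x ↔ ((x : ZMod l) + 1) ^ p = 1 ∧ (x : ZMod l) + 1 ≠ 1 := by
  have := Fact.mk hl
  have key : ((x : ZMod l) + 1) ^ p = (x : ZMod l) * (qp p x : ZMod l) + 1 := by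
    have := congrArg (Nat.cast (R := ZMod l)) (hp_eq p x)
    push_cast at this
    exact this
  rw [← ZMod.natCast_eq_zero_iff]
  constructor
  · intro h
    refine ⟨by rw [key, h, mul_zero, zero_add], fun h1 => ?_⟩
    have hx0 : (x : ZMod l) = 0 := by simpa using h1
    have h2 : (qp p x : ZMod l) = (p : ZMod l) := by
      rw [qp, Nat.cast_sum, Finset.sum_eq_single 1]
      · simp
      · intro k hk hk1
        rw [Finset.mem_Icc] at hk
        rw [Nat.cast_mul, Nat.cast_pow, hx0, zero_pow (by omega), mul_zero]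
      · intro h3
        exact absurd (Finset.mem_Icc.2 ⟨le_rfl, hpp.one_lt.le⟩) h3
    rw [h2, ZMod.natCast_eq_zero_iff] at h
    exact absurd (Nat.le_of_dvd hpp.pos h) (by omega)
  · rintro ⟨h1, h2⟩
    rw [key] at h1
    have h3 : (x : ZMod l) * (qp p x : ZMod l) = 0 := by
      have := sub_eq_zero.2 h1
      rwa [add_sub_cancel_right] at this
    have hx0 : (x : ZMod l) ≠ 0 := by
      intro h4
      exact h2 (by rw [h4, zero_add])
    exact (mul_eq_zero.1 h3).resolve_left hx0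

theorem roots_card_one {p l : ℕ} (hpp : p.Prime) (hl : l.Prime) (hpl : p < l) (h : l % p = 1) :
    ((range l).filter (fun x => l ∣ qp p x)).card = p - 1 := by
  classical
  have := Fact.mk hl
  have := Fact.mk hpp
  have hdvd : p ∣ Nat.card (ZMod l)ˣ := by
    rw [Nat.card_eq_fintype_card, ZMod.card_units]
    have := Nat.div_add_mod l p
    rw [h] at this
    exact ⟨l / p, by omega⟩
  obtain ⟨u, hu⟩ := exists_prime_orderOf_dvd_card' p hdvd
  have hprim : IsPrimitiveRoot (u : ZMod l) p := by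
    rw [← hu, ← orderOf_units]
    exact IsPrimitiveRoot.orderOf _
  have h1 : (Polynomial.nthRootsFinset p (1 : ZMod l)).card = p := hprim.card_nthRootsFinset
  have h2 : ((Polynomial.nthRootsFinset p (1 : ZMod l)).erase 1).card = p - 1 := by
    rw [Finset.card_erase_of_mem, h1]
    rw [Polynomial.mem_nthRootsFinset hpp.pos, one_pow]
  rw [← h2]
  refine Finset.card_nbij' (fun x : ℕ => (x : ZMod l) + 1) (fun u : ZMod l => (u - 1).val) ?_ ?_ ?_ ?_
  · intro x hx
    have hx' := (Finset.mem_filter.1 (Finset.mem_coe.1 hx)).2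
    rw [dvd_qp_iff hpp hl hpl] at hx'
    rw [Finset.mem_coe, Finset.mem_erase, Polynomial.mem_nthRootsFinset hpp.pos]
    exact ⟨hx'.2, hx'.1⟩
  · intro v hv
    rw [Finset.mem_coe, Finset.mem_erase, Polynomial.mem_nthRootsFinset hpp.pos] at hv
    rw [Finset.mem_coe, Finset.mem_filter, Finset.mem_range, dvd_qp_iff hpp hl hpl, ZMod.natCast_zmod_val,
      sub_add_cancel]
    exact ⟨ZMod.val_lt _, hv.2, hv.1⟩
  · intro x hx
    have hx' := (Finset.mem_filter.1 (Finset.mem_coe.1 hx)).1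
    rw [Finset.mem_range] at hx'
    simp only [add_sub_cancel_right]
    exact ZMod.val_natCast_of_lt hx'
  · intro v _
    simp only [ZMod.natCast_zmod_val, sub_add_cancel]

theorem roots_card_zero {p l : ℕ} (hpp : p.Prime) (hl : l.Prime) (hpl : p < l) (h : l % p ≠ 1) :
    ((range l).filter (fun x => l ∣ qp p x)).card = 0 := by
  have := Fact.mk hl
  have := Fact.mk hpp
  rw [Finset.card_eq_zero, Finset.filter_eq_empty_iff]
  intro x _ hx
  rw [dvd_qp_iff hpp hl hpl] at hx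
  obtain ⟨h1, h2⟩ := hx
  have h3 : (x : ZMod l) + 1 ≠ 0 := by
    intro h4
    rw [h4, zero_pow hpp.ne_zero] at h1
    exact zero_ne_one h1
  have h4 : orderOf ((x : ZMod l) + 1) = p := orderOf_eq_prime h1 h2
  have h5 : orderOf ((x : ZMod l) + 1) ∣ l - 1 := ZMod.orderOf_dvd_card_sub_one h3
  rw [h4] at h5
  obtain ⟨c, hc⟩ := h5
  apply h
  have h6 : l = p * c + 1 := by have := hl.one_lt; omega
  rw [h6, Nat.mul_add_mod, Nat.mod_eq_of_lt hpp.one_lt]

/-! ## The product formula -/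

theorem Tmem {p b : ℕ} (hb : 2 ≤ b) (l : ℕ) :
    l ∈ (range (b ^ p + 1)).filter (fun l => l.Prime ∧ 2 * b < l ∧ l ^ 2 ≤ qp p b) ↔
      l.Prime ∧ 2 * b < l ∧ l ^ 2 ≤ qp p b := by
  rw [Finset.mem_filter, Finset.mem_range]
  constructor
  · rintro ⟨_, h2⟩; exact h2
  · intro h2
    refine ⟨?_, h2⟩
    have h3 : l ^ 2 ≤ (b ^ p) ^ 2 := by
      refine h2.2.2.trans ((qp_le hb).trans (le_of_eq ?_))
      rw [← pow_mul, mul_comm]
    have := (Nat.pow_le_pow_iff_left (by norm_num : 2 ≠ 0)).1 h3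
    omega

theorem FC_eq (hCRT : P_CRT) {p b : ℕ} (hpp : p.Prime) (hb : 2 ≤ b) :
    un ((b ^ p).factorial) (fun y => Free b (hp p y) ∧ ¬ Comp p b y) =
      un ((b ^ p).factorial) (fun y => Free b (hp p y)) *
        ∏ l ∈ (range (b ^ p + 1)).filter (fun l => l.Prime ∧ 2 * b < l ∧ l ^ 2 ≤ qp p b),
          un l (fun x => ¬ l ∣ qp p x) ∧
    0 < un ((b ^ p).factorial) (fun y => Free b (hp p y)) := by
  classical
  set M := (b ^ p).factorial with hM
  have hM0 : 0 < M := Nat.factorial_pos _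
  have hb2p : 2 * b ≤ b ^ p := by
    have : b ^ 2 ≤ b ^ p := Nat.pow_le_pow_right (by omega) hpp.two_le
    nlinarith
  -- the prime sets
  set S := (range (2 * b + 1)).filter Nat.Prime with hS
  have hTm := Tmem (p := p) hb
  set T := (range (b ^ p + 1)).filter (fun l => l.Prime ∧ 2 * b < l ∧ l ^ 2 ≤ qp p b) with hT
  have hSm : ∀ l, l ∈ S ↔ l.Prime ∧ l ≤ 2 * b := by
    intro l
    rw [hS, Finset.mem_filter, Finset.mem_range]
    constructor
    · rintro ⟨h1, h2⟩; exact ⟨h2, by omega⟩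
    · rintro ⟨h1, h2⟩; exact ⟨by omega, h1⟩
  have hdis : Disjoint S T := by
    rw [Finset.disjoint_left]
    intro l h1 h2
    rw [hSm] at h1
    rw [hTm] at h2
    omega
  have hSM : ∀ l ∈ S, l.Prime ∧ l ∣ M := by
    intro l hl
    rw [hSm] at hl
    exact ⟨hl.1, Nat.dvd_factorial hl.1.pos (by omega)⟩
  have hTM : ∀ l ∈ T, l.Prime ∧ l ∣ M := by
    intro l hl
    rw [hT, Finset.mem_filter, Finset.mem_range] at hl
    exact ⟨hl.2.1, Nat.dvd_factorial hl.2.1.pos (by omega)⟩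
  -- the two products
  have hF : un M (fun y => Free b (hp p y)) = ∏ l ∈ S, un l (fun x => ¬ l ∣ hp p x) := by
    rw [← hCRT M S (fun l x => ¬ l ∣ hp p x) hM0 hSM]
    congr 1
    funext y
    apply propext
    unfold Free
    constructor
    · intro h l hl
      rw [hp_mod]
      rw [hSm] at hl
      exact h l hl.1 hl.2
    · intro h l hl1 hl2
      have := h l ((hSm l).2 ⟨hl1, hl2⟩)
      rwa [hp_mod] at this
  constructor
  · have hU : ∀ l ∈ S ∪ T, l.Prime ∧ l ∣ M := by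
      intro l hl
      rcases Finset.mem_union.1 hl with h | h
      · exact hSM l h
      · exact hTM l h
    have h1 := hCRT M (S ∪ T) (fun l x => (l ≤ 2 * b → ¬ l ∣ hp p x) ∧ (2 * b < l → ¬ l ∣ qp p x)) hM0 hU
    rw [Finset.prod_union hdis] at h1
    have h2 : ∏ l ∈ S, un l (fun x => (l ≤ 2 * b → ¬ l ∣ hp p x) ∧ (2 * b < l → ¬ l ∣ qp p x)) =
        ∏ l ∈ S, un l (fun x => ¬ l ∣ hp p x) := by
      refine Finset.prod_congr rfl fun l hl => ?_
      rw [hSm] at hl
      congr 1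
      funext x
      apply propext
      constructor
      · rintro ⟨h3, _⟩; exact h3 hl.2
      · intro h3; exact ⟨fun _ => h3, fun h4 => absurd h4 (by omega)⟩
    have h3 : ∏ l ∈ T, un l (fun x => (l ≤ 2 * b → ¬ l ∣ hp p x) ∧ (2 * b < l → ¬ l ∣ qp p x)) =
        ∏ l ∈ T, un l (fun x => ¬ l ∣ qp p x) := by
      refine Finset.prod_congr rfl fun l hl => ?_
      rw [hTm] at hl
      congr 1
      funext x
      apply propext
      constructor
      · rintro ⟨_, h3⟩; exact h3 hl.2.1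
      · intro h3; exact ⟨fun h4 => absurd h4 (by omega), fun _ => h3⟩
    rw [h2, h3, ← hF] at h1
    rw [← h1]
    congr 1
    funext y
    apply propext
    unfold Free Comp
    constructor
    · rintro ⟨h4, h5⟩ l hl
      push Not at h5
      refine ⟨fun h6 => ?_, fun h6 => ?_⟩
      · rw [hp_mod]
        rcases Finset.mem_union.1 hl with h | h
        · exact h4 l ((hSm l).1 h).1 h6
        · have := (hTm l).1 h; omega
      · rw [qp_mod]
        rcases Finset.mem_union.1 hl with h | h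
        · have := (hSm l).1 h; omega
        · exact h5 l ((hTm l).1 h).1 ((hTm l).1 h).2.2
    · intro h4
      refine ⟨fun l hl1 hl2 => ?_, ?_⟩
      · have := (h4 l (Finset.mem_union_left _ ((hSm l).2 ⟨hl1, hl2⟩))).1 hl2
        rwa [hp_mod] at this
      · rintro ⟨l, hl1, hl2, hl3⟩
        rcases le_or_gt l (2 * b) with h5 | h5
        · have := (h4 l (Finset.mem_union_left _ ((hSm l).2 ⟨hl1, h5⟩))).1 h5
          rw [hp_mod, hp_mul] at this
          exact this (Dvd.dvd.mul_left hl3 y)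
        · have := (h4 l (Finset.mem_union_right _ ((hTm l).2 ⟨hl1, h5, hl2⟩))).2 h5
          rw [qp_mod] at this
          exact this hl3
  · rw [hF]
    apply Finset.prod_pos
    intro l hl
    have hl' := (hSm l).1 hl
    rw [un_eq]
    have h1 : 0 < ((range l).filter (fun x => ¬ l ∣ hp p x)).card := by
      rw [Finset.card_pos]
      refine ⟨l - 1, Finset.mem_filter.2 ⟨Finset.mem_range.2 (by have := hl'.1.pos; omega), ?_⟩⟩
      intro h2
      rw [hp, Nat.sub_add_cancel hl'.1.one_lt.le] at h2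
      have h3 : l ∣ l ^ p := dvd_pow_self l hpp.ne_zero
      have h4 : 1 ≤ l ^ p := Nat.one_le_pow _ _ hl'.1.pos
      have h5 : l ∣ 1 := by
        have h6 := Nat.dvd_sub h3 h2
        have h7 : l ^ p - (l ^ p - 1) = 1 := by omega
        rwa [h7] at h6
      exact hl'.1.one_lt.ne' (Nat.dvd_one.1 h5)
    have h6 : 0 < l := hl'.1.pos
    positivity

theorem tail_sq {b N : ℕ} (hb : 1 ≤ b) (P : ℕ → Prop) [DecidablePred P] :
    ∑ l ∈ (Ioc (2 * b) N).filter P, 1 / (l : ℝ) ^ 2 ≤ (1 : ℝ) / b := by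
  have h1 : ∑ l ∈ (Ioc (2 * b) N).filter P, 1 / (l : ℝ) ^ 2 ≤ ∑ l ∈ Ioc (2 * b) N, 1 / (l : ℝ) ^ 2 :=
    Finset.sum_le_sum_of_subset_of_nonneg (Finset.filter_subset _ _) fun _ _ _ => by positivity
  refine h1.trans ?_
  have hb0 : (0 : ℝ) < b := by exact_mod_cast hb
  rcases le_or_gt (2 * b) N with h | h
  · have h2 := sum_Ioc_inv_sq_le_sub (α := ℝ) (show 2 * b ≠ 0 by omega) h
    simp only [one_div]
    refine h2.trans ?_
    have h3 : (0 : ℝ) ≤ (N : ℝ)⁻¹ := by positivity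
    have h4 : (((2 * b : ℕ) : ℝ))⁻¹ ≤ (b : ℝ)⁻¹ := by
      apply inv_anti₀ hb0
      push_cast
      linarith
    linarith
  · rw [Finset.Ioc_eq_empty (by omega), Finset.sum_empty]
    positivity

/-- the logarithm of the product -/
theorem log_prod {p b : ℕ} (hpp : p.Prime) (hb : 2 ≤ b) (hpb : p ≤ b) :
    0 < ∏ l ∈ (range (b ^ p + 1)).filter (fun l => l.Prime ∧ 2 * b < l ∧ l ^ 2 ≤ qp p b),
          un l (fun x => ¬ l ∣ qp p x) ∧
    |Real.log (∏ l ∈ (range (b ^ p + 1)).filter (fun l => l.Prime ∧ 2 * b < l ∧ l ^ 2 ≤ qp p b),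
          un l (fun x => ¬ l ∣ qp p x)) +
      ((p : ℝ) - 1) * ∑ l ∈ (Ioc (2 * b) (Nat.sqrt (qp p b))).filter (fun l => l.Prime ∧ l ≡ 1 [MOD p]),
        (1 : ℝ) / l| ≤ 2 * (p : ℝ) ^ 2 / b := by
  classical
  have hTm := Tmem (p := p) hb
  set T := (range (b ^ p + 1)).filter (fun l => l.Prime ∧ 2 * b < l ∧ l ^ 2 ≤ qp p b) with hT
  have hp1 : (1 : ℝ) ≤ p := by exact_mod_cast hpp.one_lt.le
  have hmod : ∀ l : ℕ, l ≡ 1 [MOD p] ↔ l % p = 1 := by
    intro l
    unfold Nat.ModEq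
    rw [Nat.mod_eq_of_lt hpp.one_lt]
  have hval : ∀ l ∈ T, un l (fun x => ¬ l ∣ qp p x) = if l % p = 1 then 1 - ((p : ℝ) - 1) / l else 1 := by
    intro l hl
    have hl' := (hTm l).1 hl
    rw [un_not hl'.1.pos, un_eq]
    split_ifs with h
    · rw [roots_card_one hpp hl'.1 (by omega) h, Nat.cast_sub hpp.one_lt.le, Nat.cast_one]
    · rw [roots_card_zero hpp hl'.1 (by omega) h, Nat.cast_zero, zero_div, sub_zero]
  have hsmall : ∀ l ∈ T, 0 ≤ ((p : ℝ) - 1) / l ∧ ((p : ℝ) - 1) / l ≤ 1 / 2 := by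
    intro l hl
    have hl' := (hTm l).1 hl
    have hl0 : (0 : ℝ) < l := by exact_mod_cast hl'.1.pos
    refine ⟨div_nonneg (by linarith) hl0.le, ?_⟩
    rw [div_le_div_iff₀ hl0 (by norm_num)]
    have : (p : ℝ) * 2 ≤ l := by exact_mod_cast (show p * 2 ≤ l by omega)
    linarith
  have hpos : ∀ l ∈ T, 0 < un l (fun x => ¬ l ∣ qp p x) := by
    intro l hl
    rw [hval l hl]
    have := hsmall l hl
    split_ifs
    · linarith
    · norm_num
  refine ⟨Finset.prod_pos hpos, ?_⟩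
  rw [Real.log_prod fun l hl => (hpos l hl).ne']
  have e1 : ∑ l ∈ T, Real.log (un l (fun x => ¬ l ∣ qp p x)) =
      ∑ l ∈ T.filter (fun l => l % p = 1), Real.log (1 - ((p : ℝ) - 1) / l) := by
    refine Eq.trans (Finset.sum_congr rfl fun l hl => ?_) (Finset.sum_filter _ _).symm
    rw [hval l hl]
    split_ifs
    · rfl
    · exact Real.log_one
  have e2 : (Ioc (2 * b) (Nat.sqrt (qp p b))).filter (fun l => l.Prime ∧ l ≡ 1 [MOD p]) =
      T.filter (fun l => l % p = 1) := by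
    ext l
    rw [Finset.mem_filter, Finset.mem_filter, Finset.mem_Ioc, hTm, Nat.le_sqrt', hmod]
    tauto
  rw [e1, e2, Finset.mul_sum, ← Finset.sum_add_distrib]
  refine (Finset.abs_sum_le_sum_abs _ _).trans ?_
  have h1 : ∀ l ∈ T.filter (fun l => l % p = 1),
      |Real.log (1 - ((p : ℝ) - 1) / l) + ((p : ℝ) - 1) * (1 / (l : ℝ))| ≤ 2 * (p : ℝ) ^ 2 * (1 / (l : ℝ) ^ 2) := by
    intro l hl
    have hlT := (Finset.mem_filter.1 hl).1
    have hs := hsmall l hlT
    have hl0 : (0 : ℝ) < l := by exact_mod_cast ((hTm l).1 hlT).1.pos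
    set t := ((p : ℝ) - 1) / l with ht
    have h2 := Real.abs_log_sub_add_sum_range_le (x := t) (by rw [abs_of_nonneg hs.1]; linarith) 1
    rw [Finset.sum_range_one] at h2
    simp only [Nat.cast_zero, zero_add, pow_one, div_one] at h2
    rw [abs_of_nonneg hs.1] at h2
    have h3 : ((p : ℝ) - 1) * (1 / (l : ℝ)) = t := by rw [ht]; ring
    rw [h3, add_comm]
    refine h2.trans ?_
    have h4 : t ^ (1 + 1) / (1 - t) ≤ 2 * t ^ 2 := by
      rw [div_le_iff₀ (by linarith)]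
      have h6 : 0 ≤ t ^ 2 * (1 / 2 - t) := mul_nonneg (sq_nonneg t) (by linarith)
      have h7 : t ^ (1 + 1) = t ^ 2 := rfl
      rw [h7]
      nlinarith
    refine h4.trans ?_
    have h5 : t ^ 2 = ((p : ℝ) - 1) ^ 2 * (1 / (l : ℝ) ^ 2) := by rw [ht, div_pow]; ring
    rw [h5, ← mul_assoc]
    apply mul_le_mul_of_nonneg_right _ (by positivity)
    nlinarith
  refine (Finset.sum_le_sum h1).trans ?_
  rw [← Finset.mul_sum, ← e2, div_eq_mul_one_div (2 * (p : ℝ) ^ 2) (b : ℝ)]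
  apply mul_le_mul_of_nonneg_left _ (by positivity)
  exact tail_sq (by omega) _

theorem qp_up {p b : ℕ} (hb : 1 ≤ b) : qp p b ≤ 2 ^ p * b ^ (p - 1) := by
  rw [qp, ← Nat.sum_range_choose, Finset.sum_mul]
  calc ∑ k ∈ Icc 1 p, p.choose k * b ^ (k - 1) ≤ ∑ k ∈ Icc 1 p, p.choose k * b ^ (p - 1) := by
        refine Finset.sum_le_sum fun k hk => ?_
        rw [Finset.mem_Icc] at hk
        exact Nat.mul_le_mul_left _ (Nat.pow_le_pow_right hb (by omega))
    _ ≤ _ := by
        apply Finset.sum_le_sum_of_subset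
        intro k hk
        rw [Finset.mem_Icc] at hk
        rw [Finset.mem_range]
        omega

theorem log_ratio {p : ℕ} (hpp : p.Prime) (hp5 : 5 ≤ p) :
    Tendsto (fun b : ℕ => Real.log (Nat.sqrt (qp p b) : ℝ) / Real.log ((2 * b : ℕ) : ℝ)) atTop
      (𝓝 (((p : ℝ) - 1) / 2)) := by
  have hp5' : (5 : ℝ) ≤ p := by exact_mod_cast hp5
  have hl2 : Real.log 2 < 1 := by have := Real.log_two_lt_d9; linarith
  have hl20 : 0 < Real.log 2 := Real.log_pos (by norm_num)
  rw [tendsto_iff_norm_sub_tendsto_zero]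
  have h0 : Tendsto (fun b : ℕ => Real.log ((2 * b : ℕ) : ℝ)) atTop atTop :=
    Real.tendsto_log_atTop.comp (tendsto_natCast_atTop_atTop.comp
      (tendsto_atTop_mono (fun b : ℕ => (by omega : b ≤ 2 * b)) tendsto_id))
  refine squeeze_zero' (Eventually.of_forall fun b => norm_nonneg _) ?_ (h0.const_div_atTop (2 * (p : ℝ)))
  filter_upwards [eventually_ge_atTop 2] with b hb
  have hb0 : (0 : ℝ) < b := by exact_mod_cast (show 0 < b by omega)
  have hb1 : (1 : ℝ) < b := by exact_mod_cast (show 1 < b by omega)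
  have hlb : 0 < Real.log b := Real.log_pos hb1
  have hY1 : 1 ≤ Nat.sqrt (qp p b) := by
    rw [Nat.le_sqrt', one_pow]
    exact le_trans (Nat.one_le_pow _ _ (by omega)) (qp_ge hpp.one_lt.le b)
  set Y := Nat.sqrt (qp p b) with hY
  have hY0 : (0 : ℝ) < Y := by exact_mod_cast hY1
  have h1 : (Y : ℝ) ^ 2 ≤ 2 ^ p * (b : ℝ) ^ (p - 1) := by
    have h : Y ^ 2 ≤ 2 ^ p * b ^ (p - 1) := le_trans (Nat.sqrt_le' _) (qp_up (by omega))
    exact_mod_cast h
  have h2 : (b : ℝ) ^ (p - 1) ≤ (2 * (Y : ℝ)) ^ 2 := by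
    have h : b ^ (p - 1) ≤ (2 * Y) ^ 2 := by
      have h3 : qp p b < (Y + 1) ^ 2 := Nat.lt_succ_sqrt' _
      have h4 : (Y + 1) ^ 2 ≤ (2 * Y) ^ 2 := Nat.pow_le_pow_left (by omega) 2
      have h5 := qp_ge hpp.one_lt.le b
      omega
    exact_mod_cast h
  have hp1 : ((p - 1 : ℕ) : ℝ) = (p : ℝ) - 1 := by
    rw [Nat.cast_sub hpp.one_lt.le, Nat.cast_one]
  have h3 : 2 * Real.log Y ≤ p * Real.log 2 + ((p : ℝ) - 1) * Real.log b := by
    have h := Real.log_le_log (by positivity) h1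
    rw [Real.log_mul (by positivity) (by positivity), Real.log_pow, Real.log_pow, Real.log_pow, hp1] at h
    exact_mod_cast h
  have h4 : ((p : ℝ) - 1) * Real.log b ≤ 2 * (Real.log 2 + Real.log Y) := by
    have h := Real.log_le_log (by positivity) h2
    rw [Real.log_pow, Real.log_pow, Real.log_mul (by norm_num) hY0.ne', hp1] at h
    exact_mod_cast h
  have h5 : Real.log ((2 * b : ℕ) : ℝ) = Real.log 2 + Real.log b := by
    rw [Nat.cast_mul, Nat.cast_ofNat, Real.log_mul (by norm_num) hb0.ne']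
  rw [h5]
  have h6 : 0 < Real.log 2 + Real.log b := by linarith
  have h7 : Real.log Y / (Real.log 2 + Real.log b) - ((p : ℝ) - 1) / 2 =
      (Real.log Y - ((p : ℝ) - 1) / 2 * (Real.log 2 + Real.log b)) / (Real.log 2 + Real.log b) := by
    field_simp
  rw [h7, Real.norm_eq_abs, abs_div, abs_of_pos h6]
  apply div_le_div_of_nonneg_right _ h6.le
  have h8 : (p : ℝ) * Real.log 2 ≤ p := by nlinarith
  rw [abs_le]
  constructor
  · nlinarith
  · nlinarith

end PkgCMPL

open PkgCMP PkgCMPL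

theorem T_CMPL (hCRT : P_CRT) (hMAP : P_MAP) : P_CMPL := by
  intro p hpp hp5
  have hp5' : (5 : ℝ) ≤ p := by exact_mod_cast hp5
  set S : ℕ → ℝ := fun b => ∑ l ∈ (Ioc (2 * b) (Nat.sqrt (qp p b))).filter (fun l => l.Prime ∧ l ≡ 1 [MOD p]),
        (1 : ℝ) / l with hS
  set L : ℕ → ℝ := fun b => Real.log (Real.log (Nat.sqrt (qp p b) : ℝ) / Real.log ((2 * b : ℕ) : ℝ)) with hL
  set Q : ℕ → ℝ := fun b => ∏ l ∈ (range (b ^ p + 1)).filter (fun l => l.Prime ∧ 2 * b < l ∧ l ^ 2 ≤ qp p b),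
          un l (fun x => ¬ l ∣ qp p x) with hQ
  have h1 : Tendsto (fun b : ℕ => (2 * (p : ℝ) ^ 2) / b) atTop (𝓝 0) :=
    tendsto_const_div_atTop_nhds_zero_nat _
  have h2 : Tendsto (fun b : ℕ => Real.log (Q b) + ((p : ℝ) - 1) * S b) atTop (𝓝 0) := by
    refine squeeze_zero_norm' ?_ h1
    filter_upwards [eventually_ge_atTop (max 2 p)] with b hb
    rw [Real.norm_eq_abs]
    exact (log_prod hpp (le_trans (le_max_left _ _) hb) (le_trans (le_max_right _ _) hb)).2
  -- the size of `Y = sqrt (qp p b)`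
  have hY : ∀ b : ℕ, 2 ≤ b → b ^ 2 ≤ Nat.sqrt (qp p b) := by
    intro b hb
    rw [Nat.le_sqrt', ← pow_mul]
    refine le_trans ?_ (qp_ge hpp.one_lt.le b)
    exact Nat.pow_le_pow_right (by omega) (by omega)
  have h3 : Tendsto (fun b : ℕ => S b - 1 / ((p : ℝ) - 1) * L b) atTop (𝓝 0) := by
    rw [Metric.tendsto_atTop]
    intro ε hε
    obtain ⟨x₀, hx₀⟩ := eventually_atTop.1 (hMAP p hpp (ε / 2) (half_pos hε))
    refine ⟨max x₀ 2, fun b hb => ?_⟩
    have hb1 := le_trans (le_max_left _ _) hb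
    have hb2 := le_trans (le_max_right _ _) hb
    rw [Real.dist_eq, sub_zero]
    have h4 := hx₀ (2 * b) (by omega) (Nat.sqrt (qp p b)) (le_trans (by nlinarith) (hY b hb2))
    exact lt_of_le_of_lt h4 (by linarith)
  have h4 : Tendsto (fun b : ℕ => Real.log (Nat.sqrt (qp p b) : ℝ) / Real.log ((2 * b : ℕ) : ℝ)) atTop
      (𝓝 (((p : ℝ) - 1) / 2)) := log_ratio hpp hp5
  have h5 : Tendsto L atTop (𝓝 (Real.log (((p : ℝ) - 1) / 2))) := by
    refine h4.log ?_
    have : 0 < ((p : ℝ) - 1) / 2 := by linarith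
    exact this.ne'
  have h6 : Tendsto (fun b : ℕ => Real.log (Q b)) atTop (𝓝 (-Real.log (((p : ℝ) - 1) / 2))) := by
    have h7 := (h2.sub (h3.const_mul ((p : ℝ) - 1))).sub h5
    have h8 : (0 : ℝ) - ((p : ℝ) - 1) * 0 - Real.log (((p : ℝ) - 1) / 2) = -Real.log (((p : ℝ) - 1) / 2) := by
      ring
    rw [h8] at h7
    refine h7.congr fun b => ?_
    have hp1 : (p : ℝ) - 1 ≠ 0 := by
      have : 0 < (p : ℝ) - 1 := by linarith
      exact this.ne'
    field_simp
    ring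
  have h7 := (Real.continuous_exp.tendsto _).comp h6
  have h8 : Real.exp (-Real.log (((p : ℝ) - 1) / 2)) = 2 / ((p : ℝ) - 1) := by
    rw [Real.exp_neg, Real.exp_log (by linarith), inv_div]
  rw [h8] at h7
  refine h7.congr' ?_
  filter_upwards [eventually_ge_atTop (max 2 p)] with b hb
  have hb1 := le_trans (le_max_left _ _) hb
  have hb2 := le_trans (le_max_right _ _) hb
  obtain ⟨e1, e2⟩ := FC_eq hCRT hpp hb1
  rw [e1, mul_div_cancel_left₀ _ e2.ne', Function.comp]
  exact Real.exp_log (log_prod hpp hb1 hb2).1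

end Pool.Agent.T2H19.GR
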