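import Pool.Agent.T2H19.GR.Stm

/-! # Package CRT of project GR (helper19), written by helper8 -/

set_option autoImplicit false

namespace Pool.Agent.T2H19.GR

open MeasureTheory ProbabilityTheory Finset Filter Topology

namespace PkgCRT

lemma un_eq (M : ℕ) (Q : ℕ → Prop) [DecidablePred Q] :
    un M Q = (((range M).filter Q).card : ℝ) / M := by
  unfold un
  congr!

lemma count_per (q : ℕ) (R : ℕ → Prop) [DecidablePred R] (t : ℕ) :
    Nat.count (fun y => R (y % q)) (q * t) = t * Nat.count R q := by
  induction t with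
  | zero => simp
  | succ t ih =>
    rw [Nat.mul_succ, Nat.count_add, ih, Nat.succ_mul]
    congr 1
    rw [Nat.count_eq_card_filter_range, Nat.count_eq_card_filter_range]
    congr 1
    apply Finset.filter_congr
    intro y hy
    rw [Finset.mem_range] at hy
    rw [Nat.mul_add_mod, Nat.mod_eq_of_lt hy]

lemma un_per (M q : ℕ) (hM : 0 < M) (hq : q ∣ M) (R : ℕ → Prop) :
    un M (fun y => R (y % q)) = un q R := by
  classical
  obtain ⟨t, rfl⟩ := hq
  have hq0 : 0 < q := Nat.pos_of_mul_pos_right hM
  have ht0 : 0 < t := Nat.pos_of_mul_pos_left hM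
  have h1 := count_per q R t
  rw [Nat.count_eq_card_filter_range, Nat.count_eq_card_filter_range] at h1
  unfold un
  have h2 : (((range (q * t)).filter fun y => R (y % q)).card : ℝ) =
      (t : ℝ) * (((range q).filter R).card : ℝ) := by
    exact_mod_cast h1
  have hq1 : (q : ℝ) ≠ 0 := by exact_mod_cast hq0.ne'
  have ht1 : (t : ℝ) ≠ 0 := by exact_mod_cast ht0.ne'
  have h3 : ((((range (q * t)).filter fun y => R (y % q)).card : ℕ) : ℝ) / ((q * t : ℕ) : ℝ) =
      (((range q).filter R).card : ℝ) / (q : ℝ) := by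
    rw [h2]
    push_cast
    field_simp
  convert h3 using 2

lemma un_mul (q l : ℕ) (hq : 0 < q) (hl : 0 < l) (hc : Nat.Coprime q l) (Q₁ Q₂ : ℕ → Prop) :
    un (q * l) (fun y => Q₁ (y % q) ∧ Q₂ (y % l)) = un q Q₁ * un l Q₂ := by
  classical
  have hcard : ((range (q * l)).filter fun y => Q₁ (y % q) ∧ Q₂ (y % l)).card =
      (((range q).filter Q₁) ×ˢ ((range l).filter Q₂)).card := by
    apply Finset.card_nbij' (fun y => (y % q, y % l))
      (fun p => (Nat.chineseRemainder hc p.1 p.2 : ℕ))
    · intro y hy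
      simp only [Finset.mem_coe, Finset.mem_filter, Finset.mem_range, Finset.mem_product] at hy ⊢
      exact ⟨⟨Nat.mod_lt _ hq, hy.2.1⟩, ⟨Nat.mod_lt _ hl, hy.2.2⟩⟩
    · rintro ⟨x, y⟩ hy
      simp only [Finset.mem_coe, Finset.mem_filter, Finset.mem_range, Finset.mem_product] at hy ⊢
      have h1 := (Nat.chineseRemainder hc x y).2
      have h2 : (Nat.chineseRemainder hc x y : ℕ) % q = x := by
        have := h1.1
        unfold Nat.ModEq at this
        rw [this, Nat.mod_eq_of_lt hy.1.1]
      have h3 : (Nat.chineseRemainder hc x y : ℕ) % l = y := by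
        have := h1.2
        unfold Nat.ModEq at this
        rw [this, Nat.mod_eq_of_lt hy.2.1]
      refine ⟨Nat.chineseRemainder_lt_mul hc x y hq.ne' hl.ne', ?_, ?_⟩
      · rw [h2]
        exact hy.1.2
      · rw [h3]
        exact hy.2.2
    · intro y hy
      simp only [Finset.mem_coe, Finset.mem_filter, Finset.mem_range] at hy ⊢
      have h1 : y ≡ y % q [MOD q] := (Nat.mod_modEq y q).symm
      have h2 : y ≡ y % l [MOD l] := (Nat.mod_modEq y l).symm
      have h3 := Nat.chineseRemainder_modEq_unique hc h1 h2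
      have h4 := Nat.chineseRemainder_lt_mul hc (y % q) (y % l) hq.ne' hl.ne'
      exact (Nat.ModEq.eq_of_lt_of_lt h3 hy.1 h4).symm
    · rintro ⟨x, y⟩ hy
      simp only [Finset.mem_coe, Finset.mem_filter, Finset.mem_range, Finset.mem_product] at hy ⊢
      have h1 := (Nat.chineseRemainder hc x y).2
      have h2 : (Nat.chineseRemainder hc x y : ℕ) % q = x := by
        have := h1.1
        unfold Nat.ModEq at this
        rw [this, Nat.mod_eq_of_lt hy.1.1]
      have h3 : (Nat.chineseRemainder hc x y : ℕ) % l = y := by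
        have := h1.2
        unfold Nat.ModEq at this
        rw [this, Nat.mod_eq_of_lt hy.2.1]
      rw [h2, h3]
  rw [Finset.card_product] at hcard
  rw [un_eq, un_eq, un_eq]
  have hq1 : (q : ℝ) ≠ 0 := by exact_mod_cast hq.ne'
  have hl1 : (l : ℝ) ≠ 0 := by exact_mod_cast hl.ne'
  rw [hcard]
  push_cast
  field_simp

lemma un_congr {M : ℕ} {Q Q' : ℕ → Prop} (h : ∀ y, y < M → (Q y ↔ Q' y)) : un M Q = un M Q' := by
  classical
  unfold un
  congr 2
  apply congrArg Finset.card
  apply Finset.filter_congr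
  intro y hy
  exact h y (Finset.mem_range.1 hy)

lemma un_one (Q : ℕ → Prop) (h : Q 0) : un 1 Q = 1 := by
  classical
  unfold un
  have : (range 1).filter Q = {0} := by
    ext y
    simp only [Finset.mem_filter, Finset.mem_range, Finset.mem_singleton]
    constructor
    · intro hy
      omega
    · rintro rfl
      exact ⟨by omega, h⟩
  have h2 : ((range 1).filter Q).card = 1 := by rw [this, Finset.card_singleton]
  have h3 : ((((range 1).filter Q).card : ℕ) : ℝ) / ((1 : ℕ) : ℝ) = 1 := by
    rw [h2]
    norm_num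
  convert h3 using 2

lemma crt_prod (S : Finset ℕ) (Q : ℕ → ℕ → Prop) (hS : ∀ l ∈ S, l.Prime) :
    un (∏ l ∈ S, l) (fun y => ∀ l ∈ S, Q l (y % l)) = ∏ l ∈ S, un l (Q l) := by
  classical
  induction S using Finset.induction_on with
  | empty =>
    rw [Finset.prod_empty, Finset.prod_empty]
    apply un_one
    intro l hl
    exact absurd hl (Finset.notMem_empty l)
  | insert l S hl ih =>
    have hS' : ∀ l ∈ S, l.Prime := fun x hx => hS x (Finset.mem_insert_of_mem hx)
    have hlp : l.Prime := hS l (Finset.mem_insert_self _ _)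
    have hcop : Nat.Coprime (∏ x ∈ S, x) l := by
      apply Nat.Coprime.prod_left
      intro x hx
      rw [Nat.coprime_primes (hS' x hx) hlp]
      rintro rfl
      exact hl hx
    have hpos : 0 < ∏ x ∈ S, x := Finset.prod_pos fun x hx => (hS' x hx).pos
    rw [Finset.prod_insert hl, Finset.prod_insert hl, mul_comm l, mul_comm (un l (Q l)), ← ih hS',
      ← un_mul _ _ hpos hlp.pos hcop]
    apply un_congr
    intro y _
    constructor
    · intro h
      refine ⟨fun x hx => ?_, h l (Finset.mem_insert_self _ _)⟩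
      rw [Nat.mod_mod_of_dvd y (Finset.dvd_prod_of_mem (fun x => x) hx)]
      exact h x (Finset.mem_insert_of_mem hx)
    · rintro ⟨h1, h2⟩ x hx
      rcases Finset.mem_insert.1 hx with rfl | hx
      · exact h2
      · have h3 := h1 x hx
        rwa [Nat.mod_mod_of_dvd y (Finset.dvd_prod_of_mem (fun x => x) hx)] at h3

end PkgCRT

theorem T_CRT : P_CRT := by
  intro M S Q hM hS
  have hdvd : (∏ l ∈ S, l) ∣ M :=
    Finset.prod_primes_dvd M (fun l hl => (hS l hl).1.prime) (fun l hl => (hS l hl).2)
  rw [← PkgCRT.crt_prod S Q fun l hl => (hS l hl).1,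
    ← PkgCRT.un_per M _ hM hdvd (fun y => ∀ l ∈ S, Q l (y % l))]
  apply PkgCRT.un_congr
  intro y _
  constructor
  · intro h x hx
    rw [Nat.mod_mod_of_dvd y (Finset.dvd_prod_of_mem (fun x => x) hx)]
    exact h x hx
  · intro h x hx
    have h3 := h x hx
    rwa [Nat.mod_mod_of_dvd y (Finset.dvd_prod_of_mem (fun x => x) hx)] at h3

end Pool.Agent.T2H19.GR
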