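import Pool.Agent.T2H19.GR.T_FREE

/-! Package DA1 (helper13): the dangerous values with a large prime factor. -/

set_option autoImplicit false
set_option maxHeartbeats 4000000

open Finset Filter Topology

namespace Pool.Agent.T2H19.GR
namespace PkgDA1
open PkgFREE

/-- the sum of `1 / l` over the primes in an interval -/
theorem inv_sum : ∃ C : ℝ, 0 ≤ C ∧ ∀ u v : ℕ, 2 ≤ u → u ≤ v →
    ∑ l ∈ (Ioc u v).filter Nat.Prime, 1 / (l : ℝ) ≤
      (Real.log v - Real.log u + C) / Real.log u := by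
  obtain ⟨C, hC⟩ := Pool.Agent.Helper601.Mertens.mertens_log
  have hC0 : 0 ≤ C := (abs_nonneg _).trans (hC 1 le_rfl)
  refine ⟨2 * C, by positivity, fun u v hu huv => ?_⟩
  have hlu : 0 < Real.log u := Real.log_pos (by exact_mod_cast hu)
  rw [le_div_iff₀ hlu, sum_mul]
  have h1 : ∑ l ∈ (Ioc u v).filter Nat.Prime, 1 / (l : ℝ) * Real.log u ≤
      ∑ l ∈ (Ioc u v).filter Nat.Prime, Real.log l / l := by
    refine sum_le_sum fun l hl => ?_
    obtain ⟨h2, h3⟩ := mem_filter.1 hl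
    have h4 : (u : ℝ) ≤ l := by exact_mod_cast (mem_Ioc.1 h2).1.le
    have hu0 : (0 : ℝ) < u := by exact_mod_cast (by omega : 0 < u)
    have h5 := Real.log_le_log hu0 h4
    have hl0 : (0 : ℝ) < l := hu0.trans_le h4
    rw [one_div, inv_mul_eq_div]
    exact div_le_div_of_nonneg_right h5 hl0.le
  refine h1.trans ?_
  have h2 := (abs_le.1 (hC v (by omega))).2
  have h3 := (abs_le.1 (hC u (by omega))).1
  have h4 : (Icc 1 v).filter Nat.Prime =
      (Icc 1 u).filter Nat.Prime ∪ (Ioc u v).filter Nat.Prime := by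
    rw [← filter_union]
    congr 1
    ext x
    simp only [mem_union, mem_Icc, mem_Ioc]
    omega
  have h5 : Disjoint ((Icc 1 u).filter Nat.Prime) ((Ioc u v).filter Nat.Prime) := by
    rw [disjoint_left]
    intro x hx hx'
    have e1 := (mem_Icc.1 (mem_filter.1 hx).1).2
    have e2 := (mem_Ioc.1 (mem_filter.1 hx').1).1
    omega
  rw [h4, sum_union h5] at h2
  linarith

/-- what we use of large `A` -/
theorem large (D : ℕ) (C : ℝ) : ∀ᶠ A : ℕ in atTop, 16 ≤ A ∧ 4 * D ≤ Nat.sqrt A ∧ 2 ≤ Nat.sqrt A ∧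
    0 < Real.log A ∧ 1 ≤ Real.log (Real.log A) ∧
    Real.log A / 4 ≤ Real.log (Nat.sqrt A) ∧
    Real.log 8 + C ≤ Real.log A / 4 ∧ 2 ≤ zz D A ∧ zz D A ≤ A ∧ Real.log A / 2 ≤ Real.log (zz D A) ∧
    Real.log A - (D + 2) * Real.log (Real.log A) - Real.log 2 ≤ Real.log (zz D A) := by
  have hL : Tendsto (fun A : ℕ => Real.log (A : ℝ)) atTop atTop :=
    Real.tendsto_log_atTop.comp tendsto_natCast_atTop_atTop
  have hLL : Tendsto (fun A : ℕ => Real.log (Real.log (A : ℝ))) atTop atTop :=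
    Real.tendsto_log_atTop.comp hL
  have hsq : Tendsto (fun A : ℕ => Nat.sqrt A) atTop atTop := by
    refine tendsto_atTop.2 fun k => (eventually_ge_atTop (k * k)).mono fun A hA => ?_
    exact Nat.le_sqrt.2 hA
  have hlo : ∀ᶠ A : ℕ in atTop, (D + 2) * Real.log (Real.log (A : ℝ)) ≤ Real.log (A : ℝ) / 4 := by
    have h1 := (Real.isLittleO_log_id_atTop.comp_tendsto hL).def
      (show (0 : ℝ) < 1 / (4 * (D + 2)) by positivity)
    filter_upwards [h1, hL.eventually_ge_atTop 1, hLL.eventually_ge_atTop 0] with A h2 h3 h4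
    simp only [Function.comp_apply, id, Real.norm_eq_abs] at h2
    rw [abs_of_nonneg h4, abs_of_nonneg (by linarith)] at h2
    have h5 := mul_le_mul_of_nonneg_left h2 (show (0 : ℝ) ≤ D + 2 by positivity)
    refine h5.trans (le_of_eq ?_)
    field_simp
  filter_upwards [eventually_ge_atTop 16, hsq.eventually_ge_atTop (4 * D),
    hsq.eventually_ge_atTop 2, hLL.eventually_ge_atTop 1,
    hL.eventually_ge_atTop (4 * (Real.log 8 + |C|) + 4 * Real.log 2 + 4), hlo] with A h1 h2 h3 h4 h5 h6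
  have hl2 : 0 < Real.log 2 := Real.log_pos (by norm_num)
  have hl8 : 0 < Real.log 8 := Real.log_pos (by norm_num)
  have hCa := le_abs_self C
  have hC0 := abs_nonneg C
  have hA0 : (0 : ℝ) < A := by exact_mod_cast (by omega : 0 < A)
  have hLp : 0 < Real.log A := by linarith
  have hr0 : (0 : ℝ) < Nat.sqrt A := by exact_mod_cast (by omega : 0 < Nat.sqrt A)
  -- the square root
  have hr : Real.log A / 4 ≤ Real.log (Nat.sqrt A) := by
    have e1 : A < (Nat.sqrt A + 1) * (Nat.sqrt A + 1) := Nat.lt_succ_sqrt A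
    have e2 : (A : ℝ) ≤ (2 * (Nat.sqrt A : ℝ)) ^ 2 := by
      have e3 : (A : ℝ) < ((Nat.sqrt A : ℝ) + 1) * ((Nat.sqrt A : ℝ) + 1) := by exact_mod_cast e1
      have e4 : (1 : ℝ) ≤ Nat.sqrt A := by exact_mod_cast (by omega : 1 ≤ Nat.sqrt A)
      nlinarith
    have e5 := Real.log_le_log hA0 e2
    rw [Real.log_pow, Real.log_mul (by norm_num) hr0.ne'] at e5
    push_cast at e5
    linarith
  -- the cost bound
  have hz1 : Real.log A - (D + 2) * Real.log (Real.log A) - Real.log 2 ≤ Real.log (zz D A) ∧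
      2 ≤ zz D A := by
    have e1 : (A : ℝ) / Real.log A ^ (D + 2) =
        Real.exp (Real.log A - (D + 2) * Real.log (Real.log A)) := by
      have e2 : ((D : ℝ) + 2) * Real.log (Real.log A) = ((D + 2 : ℕ) : ℝ) * Real.log (Real.log A) := by
        push_cast; ring
      rw [Real.exp_sub, Real.exp_log hA0, e2, Real.exp_nat_mul, Real.exp_log hLp]
    have e3 : (3 : ℝ) ≤ (A : ℝ) / Real.log A ^ (D + 2) := by
      rw [e1]
      have e4 : (2 : ℝ) ≤ Real.log A - (D + 2) * Real.log (Real.log A) := by linarith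
      have e5 := Real.add_one_le_exp (Real.log A - (D + 2) * Real.log (Real.log A))
      linarith
    have e6 : (A : ℝ) / Real.log A ^ (D + 2) - 1 < (zz D A : ℝ) := Nat.sub_one_lt_floor _
    have e7 : 2 ≤ zz D A := by
      have : (1 : ℝ) < (zz D A : ℝ) := by linarith
      have : 1 < zz D A := by exact_mod_cast this
      omega
    refine ⟨?_, e7⟩
    have e8 : (A : ℝ) / Real.log A ^ (D + 2) ≤ 2 * (zz D A : ℝ) := by linarith
    have hz0 : (0 : ℝ) < zz D A := by exact_mod_cast (by omega : 0 < zz D A)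
    have e9 := Real.log_le_log (by linarith) e8
    rw [e1, Real.log_exp, Real.log_mul (by norm_num) hz0.ne'] at e9
    linarith
  have hz3 : zz D A ≤ A := by
    unfold zz
    refine Nat.floor_le_of_le ?_
    refine div_le_self hA0.le (one_le_pow₀ ?_)
    linarith
  exact ⟨h1, h2, h3, hLp, h4, hr, by linarith, hz1.2, hz3, by linarith [hz1.1], hz1.1⟩

end PkgDA1

open PkgFREE PkgDA1

theorem T_DA1 (hCRT : P_CRT) : P_DA1 := by
  intro h D H hD
  obtain ⟨C, hC0, hC⟩ := inv_sum
  have hD0 : (1 : ℝ) ≤ D := by exact_mod_cast hD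
  have hl8 : 0 < Real.log 8 := Real.log_pos (by norm_num)
  refine ⟨Real.exp (6 * D) * (D * (2 * (D + 2 + Real.log 8 + C))), ?_⟩
  filter_upwards [large D C] with A hA b M hb1 hb2 hM
  obtain ⟨h16, h4D, hr2, hLp, hLL, hr, hsm, hz2, hzA, hz, hz'⟩ := hA
  set r := Nat.sqrt A with hrd
  set z := zz D A with hzd
  have hA0 : (0 : ℝ) < A := by exact_mod_cast (by omega : 0 < A)
  have hrA : r ≤ 2 * b := (Nat.sqrt_le_self A).trans hb1
  have hzb : z ≤ 2 * b := hzA.trans hb1
  have hlv : Real.log ((2 * b : ℕ) : ℝ) ≤ Real.log 4 + Real.log A := by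
    rw [← Real.log_mul (by norm_num) hA0.ne']
    refine Real.log_le_log (by exact_mod_cast (by omega : 0 < 2 * b)) ?_
    exact_mod_cast (by omega : 2 * b ≤ 4 * A)
  have hl48 : Real.log 4 + Real.log 2 = Real.log 8 := by
    rw [← Real.log_mul (by norm_num) (by norm_num)]
    norm_num
  have hl2 : 0 < Real.log 2 := Real.log_pos (by norm_num)
  -- the two sets of primes
  set S : Finset ℕ := (Icc 1 r).filter Nat.Prime with hS
  set T : Finset ℕ := (Ioc r (2 * b)).filter Nat.Prime with hT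
  have hSp : ∀ l ∈ S, l.Prime ∧ l ≤ 2 * b := fun l hl =>
    ⟨(mem_filter.1 hl).2, (mem_Icc.1 (mem_filter.1 hl).1).2.trans hrA⟩
  have hTp : ∀ l ∈ T, l.Prime ∧ r < l ∧ l ≤ 2 * b := fun l hl =>
    ⟨(mem_filter.1 hl).2, (mem_Ioc.1 (mem_filter.1 hl).1).1, (mem_Ioc.1 (mem_filter.1 hl).1).2⟩
  have hST : Disjoint S T := by
    rw [disjoint_left]
    intro x hx hx'
    have e1 := (mem_Icc.1 (mem_filter.1 hx).1).2
    have e2 := (hTp x hx').2.1
    omega
  set F : ℝ := ∏ l ∈ S, (1 - (Nz h l : ℝ) / l) with hF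
  have hF0 : 0 ≤ F := prod_nonneg fun l hl =>
    le_trans (by positivity) (fac_pos H (hSp l hl).1)
  -- the free values
  have h1 : un M (fun y => Free b (h y)) = F * ∏ l ∈ T, (1 - (Nz h l : ℝ) / l) := by
    rw [hF, ← prod_union hST, ← prod_free hCRT H hM (S ∪ T) fun l hl => by
      rcases mem_union.1 hl with hl | hl
      · exact hSp l hl
      · exact ⟨(hTp l hl).1, (hTp l hl).2.2⟩]
    refine un_congr fun y => ⟨fun h2 l hl => ?_, fun h2 l hl hlb => ?_⟩
    · rcases mem_union.1 hl with hl | hl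
      · exact h2 l (hSp l hl).1 (hSp l hl).2
      · exact h2 l (hTp l hl).1 (hTp l hl).2.2
    · refine h2 l ?_
      by_cases hlr : l ≤ r
      · exact mem_union_left _ (mem_filter.2 ⟨mem_Icc.2 ⟨hl.one_lt.le, hlr⟩, hl⟩)
      · exact mem_union_right _ (mem_filter.2 ⟨mem_Ioc.2 ⟨not_le.1 hlr, hlb⟩, hl⟩)
  have h2 : Real.exp (-(6 * D)) ≤ ∏ l ∈ T, (1 - (Nz h l : ℝ) / l) := by
    have e1 : ∀ l ∈ T, Real.exp (-(2 * D * (1 / (l : ℝ)))) ≤ 1 - (Nz h l : ℝ) / l := by
      intro l hl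
      obtain ⟨hp, hrl, -⟩ := hTp l hl
      have hl0 : (0 : ℝ) < l := by exact_mod_cast hp.pos
      have e2 : 2 * (D : ℝ) ≤ l := by exact_mod_cast (by omega : 2 * D ≤ l)
      have e3 : (D : ℝ) / l ≤ 1 / 2 := by
        rw [div_le_iff₀ hl0]
        linarith
      have e4 : 0 ≤ (D : ℝ) / l := by positivity
      have e5 := one_sub_exp e4 e3
      have e6 : (Nz h l : ℝ) / l ≤ (D : ℝ) / l := div_le_div_of_nonneg_right (Nz_le H hp) hl0.le
      have e7 : 2 * (D : ℝ) * (1 / (l : ℝ)) = 2 * ((D : ℝ) / l) := by ring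
      have e8 : Real.exp (-(2 * D * (1 / (l : ℝ)))) ≤
          Real.exp (-((D : ℝ) / l + ((D : ℝ) / l) ^ 2)) := by
        rw [Real.exp_le_exp, e7]
        nlinarith
      linarith
    have e2 := prod_le_prod (fun l _ => (Real.exp_pos _).le) e1
    refine le_trans ?_ e2
    rw [← Real.exp_sum, Real.exp_le_exp, sum_neg_distrib, ← mul_sum, neg_le_neg_iff]
    have e3 := hC r (2 * b) hr2 hrA
    have hlr : 0 < Real.log r := lt_of_lt_of_le (by linarith) hr
    have e4 : (Real.log ((2 * b : ℕ) : ℝ) - Real.log r + C) / Real.log r ≤ 3 := by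
      have hr' : Real.log A ≤ 2 * Real.log 2 + 2 * Real.log r := by
        have e1 : A < (r + 1) * (r + 1) := Nat.lt_succ_sqrt A
        have hr0 : (0 : ℝ) < r := by exact_mod_cast (by omega : 0 < r)
        have e2 : (A : ℝ) ≤ (2 * (r : ℝ)) ^ 2 := by
          have e3 : (A : ℝ) < ((r : ℝ) + 1) * ((r : ℝ) + 1) := by exact_mod_cast e1
          have e4 : (1 : ℝ) ≤ r := by exact_mod_cast (by omega : 1 ≤ r)
          nlinarith
        have e5 := Real.log_le_log hA0 e2
        rw [Real.log_pow, Real.log_mul (by norm_num) hr0.ne'] at e5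
        push_cast at e5
        linarith
      rw [div_le_iff₀ hlr]
      linarith
    have e5 : 2 * (D : ℝ) * ∑ l ∈ T, 1 / (l : ℝ) ≤ 2 * D * 3 :=
      mul_le_mul_of_nonneg_left (e3.trans e4) (by linarith)
    linarith
  -- the dangerous values
  set W : Finset ℕ := ((Ioc z (2 * b)).filter Nat.Prime).filter fun l => r < l with hW
  have h3 : un M (fun y => (∀ l : ℕ, l.Prime → l ≤ r → ¬ l ∣ h y) ∧
      ∃ l : ℕ, l.Prime ∧ z < l ∧ l ≤ 2 * b ∧ l ∣ h y) ≤
      ∑ l ∈ W, F * ((Nz h l : ℝ) / l) := by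
    refine le_trans (un_mono (Q := fun y => ∃ l ∈ W, (∀ l' ∈ S, ¬ l' ∣ h y) ∧ l ∣ h y)
      fun y hy => ?_) (le_trans (un_union W fun l y => (∀ l' ∈ S, ¬ l' ∣ h y) ∧ l ∣ h y)
        (sum_le_sum fun l hl => le_of_eq ?_))
    · obtain ⟨g1, l, g2, g3, g4, g5⟩ := hy
      have g6 : r < l := by
        by_contra hcon
        exact g1 l g2 (not_lt.1 hcon) g5
      exact ⟨l, mem_filter.2 ⟨mem_filter.2 ⟨mem_Ioc.2 ⟨g3, g4⟩, g2⟩, g6⟩, fun l' hl' =>
        g1 l' (hSp l' hl').1 (mem_Icc.1 (mem_filter.1 hl').1).2, g5⟩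
    · obtain ⟨g1, g2⟩ := mem_filter.1 hl
      obtain ⟨g3, g4⟩ := mem_filter.1 g1
      refine prod_hit hCRT H hM S hSp (fun g5 => ?_) g4 (mem_Ioc.1 g3).2
      have := (mem_Icc.1 (mem_filter.1 g5).1).2
      omega
  have h4 : ∑ l ∈ W, F * ((Nz h l : ℝ) / l) ≤
      F * (D * ((2 * (D + 2 + Real.log 8 + C)) * (Real.log (Real.log A) / Real.log A))) := by
    rw [← mul_sum]
    refine mul_le_mul_of_nonneg_left ?_ hF0
    have e1 : ∑ l ∈ W, (Nz h l : ℝ) / l ≤ ∑ l ∈ (Ioc z (2 * b)).filter Nat.Prime,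
        (D : ℝ) * (1 / (l : ℝ)) := by
      refine le_trans (sum_le_sum fun l hl => ?_) (sum_le_sum_of_subset_of_nonneg
        (filter_subset _ _) fun l _ _ => by positivity)
      have hp := (mem_filter.1 (mem_filter.1 hl).1).2
      have hl0 : (0 : ℝ) < l := by exact_mod_cast hp.pos
      rw [mul_one_div]
      exact div_le_div_of_nonneg_right (Nz_le H hp) hl0.le
    refine e1.trans ?_
    rw [← mul_sum]
    refine mul_le_mul_of_nonneg_left ?_ (by linarith)
    refine (hC z (2 * b) hz2 hzb).trans ?_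
    have hlz : 0 < Real.log z := lt_of_lt_of_le (by linarith) hz
    have e2 : Real.log ((2 * b : ℕ) : ℝ) - Real.log z + C ≤
        (D + 2 + Real.log 8 + C) * Real.log (Real.log A) := by
      have e3 : Real.log 8 + C ≤ (Real.log 8 + C) * Real.log (Real.log A) :=
        le_mul_of_one_le_right (by linarith) hLL
      have e4 : (D + 2 + Real.log 8 + C) * Real.log (Real.log A) =
          (D + 2) * Real.log (Real.log A) + (Real.log 8 + C) * Real.log (Real.log A) := by ring
      rw [e4]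
      linarith
    have hnum : 0 ≤ (D + 2 + Real.log 8 + C) * Real.log (Real.log A) :=
      mul_nonneg (by linarith) (by linarith)
    calc (Real.log ((2 * b : ℕ) : ℝ) - Real.log z + C) / Real.log z ≤
          (D + 2 + Real.log 8 + C) * Real.log (Real.log A) / Real.log z :=
          div_le_div_of_nonneg_right e2 hlz.le
      _ ≤ (D + 2 + Real.log 8 + C) * Real.log (Real.log A) / (Real.log A / 2) :=
          div_le_div_of_nonneg_left hnum (by linarith) hz
      _ = _ := by field_simp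
  refine h3.trans (h4.trans ?_)
  rw [h1]
  have h5 : F ≤ Real.exp (6 * D) * (F * ∏ l ∈ T, (1 - (Nz h l : ℝ) / l)) := by
    have e1 := mul_le_mul_of_nonneg_left h2 (mul_nonneg (Real.exp_pos (6 * D)).le hF0)
    have e2 : Real.exp (6 * D) * F * Real.exp (-(6 * D)) = F := by
      rw [Real.exp_neg]
      field_simp
    rw [e2] at e1
    linarith
  have h6 : 0 ≤ (D : ℝ) * ((2 * (D + 2 + Real.log 8 + C)) *
      (Real.log (Real.log A) / Real.log A)) := by
    have : 0 ≤ Real.log (Real.log A) / Real.log A := div_nonneg (by linarith) hLp.le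
    positivity
  refine (mul_le_mul_of_nonneg_right h5 h6).trans (le_of_eq ?_)
  ring

end Pool.Agent.T2H19.GR
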