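import Pool.Agent.T2H19.GR.Stm
import Pool.Agent.H510R2.Div

/-! # Package DA2 of project GR (helper19), written by helper8 -/

set_option autoImplicit false

namespace Pool.Agent.T2H19.GR

open MeasureTheory ProbabilityTheory Finset Filter Topology

namespace PkgDA2

lemma un_eq (M : ℕ) (Q : ℕ → Prop) [DecidablePred Q] :
    un M Q = (((range M).filter Q).card : ℝ) / M := by
  unfold un
  congr!

lemma count_per (q : ℕ) (R : ℕ → Prop) [DecidablePred R] (t : ℕ) :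
    Nat.count (fun y => R (y % q)) (q * t) = t * Nat.count R q := by
  induction t with
  | zero => simp
  | succ t ih =>
    rw [Nat.mul_succ, Nat.count_add, ih, Nat.succ_mul]
    congr 1
    rw [Nat.count_eq_card_filter_range, Nat.count_eq_card_filter_range]
    congr 1
    apply Finset.filter_congr
    intro y hy
    rw [Finset.mem_range] at hy
    rw [Nat.mul_add_mod, Nat.mod_eq_of_lt hy]

open scoped Classical in
/-- the number of the `y < M` with `d ∣ h y` -/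
lemma card_dvd (h : ℕ → ℕ) (hper : ∀ d x y : ℕ, x ≡ y [MOD d] → h x ≡ h y [MOD d]) (M d : ℕ)
    (hd : 0 < d) (hdM : d ∣ M) (K : ℝ)
    (hK : (((range d).filter (fun x => d ∣ h x)).card : ℝ) ≤ K) :
    (((range M).filter (fun y => d ∣ h y)).card : ℝ) ≤ M * (K / d) := by
  obtain ⟨t, rfl⟩ := hdM
  have h1 := count_per d (fun x => d ∣ h x) t
  rw [Nat.count_eq_card_filter_range, Nat.count_eq_card_filter_range] at h1
  have h2 : (range (d * t)).filter (fun y => d ∣ h (y % d)) =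
      (range (d * t)).filter (fun y => d ∣ h y) := by
    apply Finset.filter_congr
    intro y _
    have h3 := hper d (y % d) y (Nat.mod_modEq y d)
    exact h3.dvd_iff dvd_rfl
  rw [h2] at h1
  rw [h1]
  have hd1 : (d : ℝ) ≠ 0 := by exact_mod_cast hd.ne'
  push_cast
  have h4 : (d : ℝ) * t * (K / d) = t * K := by
    field_simp
  rw [h4]
  exact mul_le_mul_of_nonneg_left hK (Nat.cast_nonneg t)

open scoped Classical in
/-- the union bound -/
lemma main_bound (h : ℕ → ℕ) (hper : ∀ d x y : ℕ, x ≡ y [MOD d] → h x ≡ h y [MOD d])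
    (C₁ C₂ : ℝ) (hC₁ : 0 ≤ C₁) (hC₂ : 0 ≤ C₂)
    (h1 : ∀ d : ℕ, 1 ≤ d → (((range d).filter (fun x => d ∣ h x)).card : ℝ) ≤ C₁ * (d : ℝ) ^ (1 / 16 : ℝ))
    (h2 : ∀ n : ℕ, 1 ≤ n → (n.divisors.card : ℝ) ≤ C₂ * (n : ℝ) ^ (1 / 16 : ℝ))
    (A a M z : ℕ) (haA : a ≤ A) (hM : AllDvd A M) (hz : 0 < z) :
    un M (fun y => ∃ k : ℕ, k ≤ Nat.sqrt A ∧ k < a ∧ z < Nat.gcd (a - k) (h y)) ≤
      (Nat.sqrt A + 1) * (C₂ * (A : ℝ) ^ (1 / 16 : ℝ) * (C₁ * (A : ℝ) ^ (1 / 16 : ℝ) / z)) := by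
  have hM0 : (0 : ℝ) < M := by exact_mod_cast hM.1
  have hz0 : (0 : ℝ) < z := by exact_mod_cast hz
  rw [un_eq, div_le_iff₀ hM0]
  set Ks := (range (Nat.sqrt A + 1)).filter (fun k => k < a) with hKs
  have hsub : (range M).filter (fun y => ∃ k : ℕ, k ≤ Nat.sqrt A ∧ k < a ∧ z < Nat.gcd (a - k) (h y)) ⊆
      Ks.biUnion fun k => ((a - k).divisors.filter (fun d => z < d)).biUnion fun d =>
        (range M).filter (fun y => d ∣ h y) := by
    intro y hy
    rw [Finset.mem_filter] at hy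
    obtain ⟨hyM, k, hk1, hk2, hk3⟩ := hy
    rw [Finset.mem_biUnion]
    refine ⟨k, ?_, ?_⟩
    · rw [hKs, Finset.mem_filter, Finset.mem_range]
      exact ⟨by omega, hk2⟩
    · rw [Finset.mem_biUnion]
      refine ⟨Nat.gcd (a - k) (h y), ?_, ?_⟩
      · rw [Finset.mem_filter, Nat.mem_divisors]
        exact ⟨⟨Nat.gcd_dvd_left _ _, by omega⟩, hk3⟩
      · rw [Finset.mem_filter]
        exact ⟨hyM, Nat.gcd_dvd_right _ _⟩
  have hterm : ∀ k ∈ Ks, ∀ d ∈ (a - k).divisors.filter (fun d => z < d),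
      (((range M).filter (fun y => d ∣ h y)).card : ℝ) ≤
        M * (C₁ * (A : ℝ) ^ (1 / 16 : ℝ) / z) := by
    intro k hk d hd
    rw [hKs, Finset.mem_filter, Finset.mem_range] at hk
    rw [Finset.mem_filter, Nat.mem_divisors] at hd
    have hd0 : 0 < d := by omega
    have hdle : d ≤ a - k := Nat.le_of_dvd (by omega) hd.1.1
    have hdA : d ≤ A := by omega
    refine (card_dvd h hper M d hd0 (hM.2 d hd0 hdA) _ (h1 d hd0)).trans ?_
    refine mul_le_mul_of_nonneg_left ?_ hM0.le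
    have hd1 : (0 : ℝ) < d := by exact_mod_cast hd0
    have hzd : (z : ℝ) ≤ d := by exact_mod_cast hd.2.le
    have hdA' : (d : ℝ) ≤ A := by exact_mod_cast hdA
    gcongr
  have hcard : (((range M).filter (fun y => ∃ k : ℕ, k ≤ Nat.sqrt A ∧ k < a ∧
      z < Nat.gcd (a - k) (h y))).card : ℝ) ≤
      ∑ k ∈ Ks, ∑ _d ∈ (a - k).divisors.filter (fun d => z < d),
        (M : ℝ) * (C₁ * (A : ℝ) ^ (1 / 16 : ℝ) / z) := by
    have h3 : ((range M).filter (fun y => ∃ k : ℕ, k ≤ Nat.sqrt A ∧ k < a ∧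
        z < Nat.gcd (a - k) (h y))).card ≤
        ∑ k ∈ Ks, ∑ d ∈ (a - k).divisors.filter (fun d => z < d),
          ((range M).filter (fun y => d ∣ h y)).card := by
      refine (Finset.card_le_card hsub).trans (Finset.card_biUnion_le.trans ?_)
      exact Finset.sum_le_sum fun k _ => Finset.card_biUnion_le
    have h4 : (((range M).filter (fun y => ∃ k : ℕ, k ≤ Nat.sqrt A ∧ k < a ∧
        z < Nat.gcd (a - k) (h y))).card : ℝ) ≤
        ∑ k ∈ Ks, ∑ d ∈ (a - k).divisors.filter (fun d => z < d),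
          (((range M).filter (fun y => d ∣ h y)).card : ℝ) := by
      exact_mod_cast h3
    refine h4.trans ?_
    exact Finset.sum_le_sum fun k hk => Finset.sum_le_sum fun d hd => hterm k hk d hd
  refine hcard.trans ?_
  rw [mul_comm _ (M : ℝ)]
  have hE : 0 ≤ (M : ℝ) * (C₁ * (A : ℝ) ^ (1 / 16 : ℝ) / z) := by positivity
  calc ∑ k ∈ Ks, ∑ _d ∈ (a - k).divisors.filter (fun d => z < d),
        (M : ℝ) * (C₁ * (A : ℝ) ^ (1 / 16 : ℝ) / z)
      ≤ ∑ _k ∈ Ks, C₂ * (A : ℝ) ^ (1 / 16 : ℝ) * ((M : ℝ) * (C₁ * (A : ℝ) ^ (1 / 16 : ℝ) / z)) := by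
        refine Finset.sum_le_sum fun k hk => ?_
        rw [Finset.sum_const, nsmul_eq_mul]
        refine mul_le_mul_of_nonneg_right ?_ hE
        rw [hKs, Finset.mem_filter, Finset.mem_range] at hk
        have h5 : (((a - k).divisors.filter (fun d => z < d)).card : ℝ) ≤ ((a - k).divisors.card : ℝ) := by
          exact_mod_cast Finset.card_filter_le _ _
        refine h5.trans ((h2 (a - k) (by omega)).trans ?_)
        have h6 : ((a - k : ℕ) : ℝ) ≤ A := by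
          have : a - k ≤ A := by omega
          exact_mod_cast this
        gcongr
    _ = (Ks.card : ℝ) * (C₂ * (A : ℝ) ^ (1 / 16 : ℝ) * ((M : ℝ) * (C₁ * (A : ℝ) ^ (1 / 16 : ℝ) / z))) := by
        rw [Finset.sum_const, nsmul_eq_mul]
    _ ≤ ((Nat.sqrt A : ℝ) + 1) * (C₂ * (A : ℝ) ^ (1 / 16 : ℝ) *
          ((M : ℝ) * (C₁ * (A : ℝ) ^ (1 / 16 : ℝ) / z))) := by
        refine mul_le_mul_of_nonneg_right ?_ (by positivity)
        have h7 : Ks.card ≤ Nat.sqrt A + 1 := by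
          rw [hKs]
          refine (Finset.card_filter_le _ _).trans ?_
          rw [Finset.card_range]
        exact_mod_cast h7
    _ = _ := by ring

/-- analytic part -/
lemma ev (D : ℕ) (C : ℝ) (hC : 0 < C) : ∀ᶠ A : ℕ in atTop,
    0 < zz D A ∧ ((Nat.sqrt A : ℝ) + 1) * (C * (A : ℝ) ^ (1 / 8 : ℝ) / (zz D A : ℝ)) ≤
      (A : ℝ) ^ (-(1 / 8) : ℝ) := by
  have h0 : (fun x : ℝ => Real.log x ^ ((D + 2 : ℕ) : ℝ)) =o[atTop] fun x : ℝ => x ^ (1 / 4 : ℝ) :=
    isLittleO_log_rpow_rpow_atTop _ (by norm_num)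
  have h1 := (h0.comp_tendsto tendsto_natCast_atTop_atTop).bound
    (c := 1 / (4 * C + 4)) (by positivity)
  filter_upwards [h1, eventually_ge_atTop 16] with A hA hA16
  have hAr : (16 : ℝ) ≤ A := by exact_mod_cast hA16
  have hA0 : (0 : ℝ) < A := by linarith
  have hA1 : (1 : ℝ) ≤ A := by linarith
  have hlog : 1 ≤ Real.log A := by
    rw [Real.le_log_iff_exp_le hA0]
    have := Real.exp_one_lt_d9
    linarith
  simp only [Function.comp_apply, Real.rpow_natCast] at hA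
  rw [Real.norm_of_nonneg (by positivity), Real.norm_of_nonneg (by positivity)] at hA
  set L : ℝ := Real.log A ^ (D + 2) with hL
  have hL1 : 1 ≤ L := one_le_pow₀ hlog
  have hL0 : 0 < L := by linarith
  have h14 : (A : ℝ) ^ (1 / 4 : ℝ) ≤ (A : ℝ) ^ (1 : ℝ) :=
    Real.rpow_le_rpow_of_exponent_le hA1 (by norm_num)
  rw [Real.rpow_one] at h14
  have hLA : (4 * C + 4) * L ≤ (A : ℝ) ^ (1 / 4 : ℝ) := by
    have := mul_le_mul_of_nonneg_left hA (by positivity : (0 : ℝ) ≤ 4 * C + 4)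
    refine this.trans (le_of_eq ?_)
    field_simp
  have hAL : 4 ≤ (A : ℝ) / L := by
    rw [le_div_iff₀ hL0]
    nlinarith [mul_pos hC hL0]
  have hz1 : (A : ℝ) / (2 * L) ≤ (zz D A : ℝ) := by
    have h2 := Nat.lt_floor_add_one ((A : ℝ) / L)
    have h3 : (A : ℝ) / (2 * L) = (A : ℝ) / L / 2 := by
      field_simp
    unfold zz
    rw [← hL, h3]
    linarith
  have hz0 : (0 : ℝ) < zz D A := by
    refine lt_of_lt_of_le ?_ hz1
    positivity
  refine ⟨by exact_mod_cast hz0, ?_⟩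
  have hsq : (Nat.sqrt A : ℝ) + 1 ≤ 2 * (A : ℝ) ^ (1 / 2 : ℝ) := by
    have h4 : (Nat.sqrt A : ℝ) ≤ Real.sqrt A := Real.nat_sqrt_le_real_sqrt
    rw [Real.sqrt_eq_rpow] at h4
    have h5 : (1 : ℝ) ≤ (A : ℝ) ^ (1 / 2 : ℝ) := Real.one_le_rpow hA1 (by norm_num)
    linarith
  calc ((Nat.sqrt A : ℝ) + 1) * (C * (A : ℝ) ^ (1 / 8 : ℝ) / (zz D A : ℝ))
      ≤ (2 * (A : ℝ) ^ (1 / 2 : ℝ)) * (C * (A : ℝ) ^ (1 / 8 : ℝ) / ((A : ℝ) / (2 * L))) := by
        gcongr
    _ = (4 * C * L) * ((A : ℝ) ^ (1 / 2 : ℝ) * (A : ℝ) ^ (1 / 8 : ℝ) * (A : ℝ) ^ (-1 : ℝ)) := by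
        rw [Real.rpow_neg_one]
        field_simp
        ring
    _ ≤ (A : ℝ) ^ (1 / 4 : ℝ) * ((A : ℝ) ^ (1 / 2 : ℝ) * (A : ℝ) ^ (1 / 8 : ℝ) * (A : ℝ) ^ (-1 : ℝ)) := by
        refine mul_le_mul_of_nonneg_right ?_ (by positivity)
        linarith
    _ = (A : ℝ) ^ (-(1 / 8) : ℝ) := by
        rw [← Real.rpow_add hA0, ← Real.rpow_add hA0, ← Real.rpow_add hA0]
        norm_num

end PkgDA2

theorem T_DA2 : P_DA2 := by
  classical
  intro h D hAdm
  obtain ⟨C₁, hC₁⟩ := hAdm.few (1 / 16) (by norm_num)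
  obtain ⟨C₂, hC₂0, hC₂⟩ := Pool.Agent.H510R2.divisor_bound (1 / 16) (by norm_num)
  set K : ℝ := max C₁ 1 with hK
  have hK0 : 0 < K := lt_of_lt_of_le one_pos (le_max_right _ _)
  have hK1 : ∀ d : ℕ, 1 ≤ d → (((range d).filter (fun x => d ∣ h x)).card : ℝ) ≤
      K * (d : ℝ) ^ (1 / 16 : ℝ) := by
    intro d hd
    refine (le_of_eq ?_).trans ((hC₁ d hd).trans ?_)
    · congr
    · exact mul_le_mul_of_nonneg_right (le_max_left _ _) (by positivity)
  filter_upwards [PkgDA2.ev D (C₂ * K) (by positivity), eventually_ge_atTop 1] with A hA hA1 a M ha hM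
  refine (PkgDA2.main_bound h hAdm.per K C₂ hK0.le hC₂0.le hK1 hC₂ A a M (zz D A) ha hM hA.1).trans ?_
  refine (le_of_eq ?_).trans hA.2
  have hA0 : (0 : ℝ) < A := by exact_mod_cast hA1
  have h18 : (A : ℝ) ^ (1 / 8 : ℝ) = (A : ℝ) ^ (1 / 16 : ℝ) * (A : ℝ) ^ (1 / 16 : ℝ) := by
    rw [← Real.rpow_add hA0]
    norm_num
  rw [h18]
  ring

end Pool.Agent.T2H19.GR
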