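import Pool.Agent.T2H19.GR.Stm

/-! # Package DL -/

set_option autoImplicit false

namespace Pool.Agent.T2H19.GR

open Finset

theorem T_DL (hZT : P_ZT) : P_DL := by
  classical
  intro A z a b x haA hab hza hAz hfree hdang
  obtain ⟨_, _, hrun, _⟩ := hZT
  -- the least prime divisor
  have hex : ∃ l : ℕ, l.Prime ∧ l ≤ 2 * b ∧ l ∣ x := by
    unfold Free at hfree
    push Not at hfree
    exact hfree
  set l := Nat.find hex with hl
  obtain ⟨hlp, hlb, hlx⟩ : l.Prime ∧ l ≤ 2 * b ∧ l ∣ x := Nat.find_spec hex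
  have hmin : ∀ q : ℕ, q.Prime → q < l → ¬ q ∣ x := by
    intro q hq hql hqx
    exact Nat.find_min hex hql ⟨hq, by omega, hqx⟩
  have hlz : l ≤ z := by
    by_contra h
    push Not at h
    exact hdang (Or.inl ⟨fun q hq hqA => hmin q hq (by omega), l, hlp, h, hlb, hlx⟩)
  -- the least `k` with a jump
  have hk0 : a % l < l := Nat.mod_lt _ hlp.pos
  have hdiv : l ∣ a - a % l := Nat.dvd_sub_mod a
  have hgt : 0 < a - a % l := by omega
  have hex2 : ∃ k : ℕ, 1 < Nat.gcd (a - k) x := by
    refine ⟨a % l, ?_⟩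
    have h1 : l ∣ Nat.gcd (a - a % l) x := Nat.dvd_gcd hdiv hlx
    have h2 : 0 < Nat.gcd (a - a % l) x := Nat.gcd_pos_of_pos_left _ hgt
    have h3 := Nat.le_of_dvd h2 h1
    have h4 := hlp.two_le
    omega
  set k := Nat.find hex2 with hk
  have hkk0 : k ≤ a % l := by
    apply Nat.find_min' hex2
    have h1 : l ∣ Nat.gcd (a - a % l) x := Nat.dvd_gcd hdiv hlx
    have h2 : 0 < Nat.gcd (a - a % l) x := Nat.gcd_pos_of_pos_left _ hgt
    have h3 := Nat.le_of_dvd h2 h1
    have h4 := hlp.two_le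
    omega
  have hg1 : 1 < Nat.gcd (a - k) x := Nat.find_spec hex2
  have hkmin : ∀ i < k, Nat.gcd (a - i) x = 1 := by
    intro i hi
    have h1 : ¬ 1 < Nat.gcd (a - i) x := Nat.find_min hex2 hi
    have h2 : 0 < Nat.gcd (a - i) x := Nat.gcd_pos_of_pos_left _ (by omega)
    omega
  set g := Nat.gcd (a - k) x with hg
  have hga : g ∣ a - k := Nat.gcd_dvd_left _ _
  have hgx : g ∣ x := Nat.gcd_dvd_right _ _
  have hgle : g ≤ a - k := Nat.le_of_dvd (by omega) hga
  have hgz : g ≤ z := by
    by_contra h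
    push Not at h
    rcases le_or_gt l (Nat.sqrt A) with h1 | h1
    · exact hdang (Or.inr ⟨k, by omega, by omega, h⟩)
    · have hgp : g.Prime := by
        by_contra hnp
        have h2 : g.minFac ^ 2 ≤ g := Nat.minFac_sq_le_self (by omega) hnp
        have h3 : g.minFac.Prime := Nat.minFac_prime (by omega)
        have h4 : g.minFac ∣ x := (Nat.minFac_dvd g).trans hgx
        have h5 : l ≤ g.minFac := by
          by_contra h6
          push Not at h6
          exact hmin _ h3 h6 h4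
        have h7 : A < (Nat.sqrt A + 1) ^ 2 := Nat.lt_succ_sqrt' A
        have h8 : (Nat.sqrt A + 1) ^ 2 ≤ g.minFac ^ 2 := Nat.pow_le_pow_left (by omega) 2
        omega
      exact hdang (Or.inl ⟨fun q hq hqA => hmin q hq (by omega), g, hgp, h, by omega, hgx⟩)
  refine ⟨k, g, by omega, by omega, hgz, by omega, ?_⟩
  intro H n hbn hHb
  have h1 := hrun H n a k (by omega) (fun i hi => by rw [hbn, hHb]; exact hkmin i hi)
  rw [h1, zt, dif_neg (by omega : a - k ≠ 0)]
  have h2 : a - k + (n + k) = b := by omega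
  rw [h2, hHb]

end Pool.Agent.T2H19.GR
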