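import Pool.Agent.T2H19.GR.Stm
import Pool.Agent.Helper601.Mertens

/-! Package FREE (helper13): the probability that `h y` has no small prime factor. -/

set_option autoImplicit false
set_option maxHeartbeats 4000000

open Finset Filter Topology

namespace Pool.Agent.T2H19.GR
namespace PkgFREE

/-- the number of zeros modulo `l` -/
def Nz (h : ℕ → ℕ) (l : ℕ) : ℕ := ((range l).filter (fun x => l ∣ h x)).card

theorem un_eq (M : ℕ) (Q : ℕ → Prop) [DecidablePred Q] :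
    un M Q = (((range M).filter Q).card : ℝ) / M := by
  unfold un
  congr!

theorem un_mono {M : ℕ} {P Q : ℕ → Prop} (h : ∀ y, P y → Q y) : un M P ≤ un M Q := by
  classical
  rw [un_eq, un_eq]
  refine div_le_div_of_nonneg_right ?_ (Nat.cast_nonneg _)
  exact_mod_cast card_le_card fun y hy =>
    mem_filter.2 ⟨(mem_filter.1 hy).1, h y (mem_filter.1 hy).2⟩

theorem un_congr {M : ℕ} {P Q : ℕ → Prop} (h : ∀ y, P y ↔ Q y) : un M P = un M Q :=
  le_antisymm (un_mono fun y => (h y).1) (un_mono fun y => (h y).2)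

theorem un_union {M : ℕ} (T : Finset ℕ) (P : ℕ → ℕ → Prop) :
    un M (fun y => ∃ l ∈ T, P l y) ≤ ∑ l ∈ T, un M (P l) := by
  classical
  rw [un_eq, sum_congr rfl fun l _ => un_eq M (P l), ← sum_div]
  refine div_le_div_of_nonneg_right ?_ (Nat.cast_nonneg _)
  have h1 : ((range M).filter fun y => ∃ l ∈ T, P l y) ⊆
      T.biUnion fun l => (range M).filter (P l) := by
    intro y hy
    obtain ⟨h2, l, hl, h3⟩ := mem_filter.1 hy
    exact mem_biUnion.2 ⟨l, hl, mem_filter.2 ⟨h2, h3⟩⟩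
  have h2 := (card_le_card h1).trans card_biUnion_le
  exact_mod_cast h2

variable {h : ℕ → ℕ} {D : ℕ}

theorem dvd_mod (H : Adm h D) (l y : ℕ) : l ∣ h (y % l) ↔ l ∣ h y :=
  (H.per l (y % l) y (Nat.mod_modEq y l)).dvd_iff dvd_rfl

theorem un_hit (l : ℕ) : un l (fun x => l ∣ h x) = (Nz h l : ℝ) / l := by
  rw [un_eq]
  rfl

theorem un_miss {l : ℕ} (hl : 0 < l) : un l (fun x => ¬ l ∣ h x) = 1 - (Nz h l : ℝ) / l := by
  have hl' : (0 : ℝ) < l := by exact_mod_cast hl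
  have h1 := card_filter_add_card_filter_not (s := range l) (fun x => l ∣ h x)
  rw [card_range] at h1
  have h2 : (Nz h l : ℝ) + (((range l).filter fun x => ¬ l ∣ h x).card : ℝ) = l := by
    unfold Nz
    exact_mod_cast h1
  rw [un_eq, eq_sub_iff_add_eq, ← add_div, div_eq_one_iff_eq hl'.ne']
  linarith

/-- no prime of `S` divides `h y` -/
theorem prod_free (hCRT : P_CRT) (H : Adm h D) {n M : ℕ} (hM : AllDvd n M) (S : Finset ℕ)
    (hS : ∀ l ∈ S, l.Prime ∧ l ≤ n) :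
    un M (fun y => ∀ l ∈ S, ¬ l ∣ h y) = ∏ l ∈ S, (1 - (Nz h l : ℝ) / l) := by
  have h1 := hCRT M S (fun l x => ¬ l ∣ h x) hM.1 fun l hl =>
    ⟨(hS l hl).1, hM.2 l (hS l hl).1.one_lt.le (hS l hl).2⟩
  rw [prod_congr rfl fun l hl => un_miss (h := h) (hS l hl).1.pos] at h1
  rw [← h1]
  exact un_congr fun y => forall₂_congr fun l _ => not_congr (dvd_mod H l y).symm

/-- no prime of `S` divides `h y`, but `l₀` does -/
theorem prod_hit (hCRT : P_CRT) (H : Adm h D) {n M : ℕ} (hM : AllDvd n M) (S : Finset ℕ)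
    (hS : ∀ l ∈ S, l.Prime ∧ l ≤ n) {l₀ : ℕ} (h0 : l₀ ∉ S) (hp : l₀.Prime) (hn : l₀ ≤ n) :
    un M (fun y => (∀ l ∈ S, ¬ l ∣ h y) ∧ l₀ ∣ h y) =
      (∏ l ∈ S, (1 - (Nz h l : ℝ) / l)) * ((Nz h l₀ : ℝ) / l₀) := by
  have h1 := hCRT M (insert l₀ S) (fun l x => if l = l₀ then l ∣ h x else ¬ l ∣ h x) hM.1 ?_
  · rw [prod_insert h0, mul_comm] at h1
    have h2 : un l₀ (fun x => if l₀ = l₀ then l₀ ∣ h x else ¬ l₀ ∣ h x) = (Nz h l₀ : ℝ) / l₀ := by
      rw [← un_hit]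
      exact un_congr fun y => by rw [if_pos rfl]
    have h3 : ∀ l ∈ S, un l (fun x => if l = l₀ then l ∣ h x else ¬ l ∣ h x) =
        1 - (Nz h l : ℝ) / l := by
      intro l hl
      have hne : l ≠ l₀ := fun e => h0 (e ▸ hl)
      rw [← un_miss (h := h) (hS l hl).1.pos]
      exact un_congr fun y => by rw [if_neg hne]
    rw [h2, prod_congr rfl h3] at h1
    rw [← h1]
    refine un_congr fun y => ⟨fun h4 l hl => ?_, fun h4 => ⟨fun l hl => ?_, ?_⟩⟩
    · rcases mem_insert.1 hl with rfl | hl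
      · rw [if_pos rfl]
        exact (dvd_mod H _ y).2 h4.2
      · have hne : l ≠ l₀ := fun e => h0 (e ▸ hl)
        rw [if_neg hne]
        exact fun h5 => h4.1 l hl ((dvd_mod H l y).1 h5)
    · have h5 := h4 l (mem_insert_of_mem hl)
      have hne : l ≠ l₀ := fun e => h0 (e ▸ hl)
      rw [if_neg hne] at h5
      exact fun h6 => h5 ((dvd_mod H l y).2 h6)
    · have h5 := h4 l₀ (mem_insert_self _ _)
      rw [if_pos rfl] at h5
      exact (dvd_mod H _ y).1 h5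
  · intro l hl
    rcases mem_insert.1 hl with rfl | hl
    · exact ⟨hp, hM.2 _ hp.one_lt.le hn⟩
    · exact ⟨(hS l hl).1, hM.2 l (hS l hl).1.one_lt.le (hS l hl).2⟩

theorem Nz_le (H : Adm h D) {l : ℕ} (hl : l.Prime) : (Nz h l : ℝ) ≤ D := by
  exact_mod_cast H.roots l hl

theorem Nz_lt (H : Adm h D) {l : ℕ} (hl : l.Prime) : Nz h l + 1 ≤ l := by
  obtain ⟨x, hx⟩ := H.ne l hl
  have h1 : (range l).filter (fun x => l ∣ h x) ⊆ (range l).erase (x % l) := by
    intro y hy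
    obtain ⟨h2, h3⟩ := mem_filter.1 hy
    refine mem_erase.2 ⟨fun e => hx ((dvd_mod H l x).1 (e ▸ h3)), h2⟩
  have h2 := card_le_card h1
  rw [card_erase_of_mem (mem_range.2 (Nat.mod_lt x hl.pos)), card_range] at h2
  unfold Nz
  have := hl.pos
  omega

/-- the factors are positive -/
theorem fac_pos (H : Adm h D) {l : ℕ} (hl : l.Prime) : 1 / (l : ℝ) ≤ 1 - (Nz h l : ℝ) / l := by
  have h1 := Nz_lt H hl
  have h2 : (Nz h l : ℝ) + 1 ≤ l := by exact_mod_cast h1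
  have hl' : (0 : ℝ) < l := by exact_mod_cast hl.pos
  rw [le_sub_iff_add_le, ← add_div, div_le_one hl']
  linarith

/-- `1 - x ≥ exp (- x - x ^ 2)` -/
theorem one_sub_exp {x : ℝ} (h0 : 0 ≤ x) (h1 : x ≤ 1 / 2) : Real.exp (-(x + x ^ 2)) ≤ 1 - x := by
  have h2 : 0 < 1 - x := by linarith
  have h3 := Real.quadratic_le_exp_of_nonneg (show 0 ≤ x + x ^ 2 by positivity)
  rw [Real.exp_neg, inv_le_comm₀ (Real.exp_pos _) h2]
  refine le_trans ?_ h3
  rw [inv_eq_one_div, div_le_iff₀ h2]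
  have h4 : x + x ^ 2 + x ^ 3 ≤ 1 := by
    have e1 : x ^ 2 ≤ (1 / 2) ^ 2 := pow_le_pow_left₀ h0 h1 2
    have e2 : x ^ 3 ≤ (1 / 2) ^ 3 := pow_le_pow_left₀ h0 h1 3
    linarith
  have h5 : 0 ≤ x ^ 2 * (1 - (x + x ^ 2 + x ^ 3)) := mul_nonneg (by positivity) (by linarith)
  have e : (1 + (x + x ^ 2) + (x + x ^ 2) ^ 2 / 2) * (1 - x) =
      1 + x ^ 2 * (1 - (x + x ^ 2 + x ^ 3)) / 2 := by ring
  rw [e]
  linarith

end PkgFREE

open PkgFREE

theorem T_FREE (hCRT : P_CRT) : P_FREE := by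
  intro h D H hD
  obtain ⟨C, hC⟩ := Pool.Agent.Helper601.Mertens.mertens_inv
  have hD0 : (1 : ℝ) ≤ D := by exact_mod_cast hD
  have hs : Summable (fun n : ℕ => 1 / (n : ℝ) ^ 2) := Real.summable_one_div_nat_pow.2 (by norm_num)
  obtain ⟨K, hK⟩ : ∃ K : ℝ, K = ∑' n : ℕ, 1 / (n : ℝ) ^ 2 := ⟨_, rfl⟩
  obtain ⟨w, hw⟩ : ∃ w : ℝ, w = 1 / (2 * D) := ⟨_, rfl⟩
  have hw0 : 0 < w := by rw [hw]; positivity
  have hw1 : w ≤ 1 := by
    rw [hw, div_le_one (by positivity)]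
    linarith
  refine ⟨w ^ (2 * D + 1) * Real.exp (-(D * C + D ^ 2 * K)) / 2 ^ D, by positivity,
    fun b M hb hM => ?_⟩
  set S : Finset ℕ := (Icc 1 (2 * b)).filter Nat.Prime with hS
  have hSp : ∀ l ∈ S, l.Prime ∧ l ≤ 2 * b := fun l hl =>
    ⟨(mem_filter.1 hl).2, (mem_Icc.1 (mem_filter.1 hl).1).2⟩
  have h1 : un M (fun y => Free b (h y)) = ∏ l ∈ S, (1 - (Nz h l : ℝ) / l) := by
    rw [← prod_free hCRT H hM S hSp]
    refine un_congr fun y => ⟨fun h2 l hl => h2 l (hSp l hl).1 (hSp l hl).2, fun h2 l hl hlb =>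
      h2 l (mem_filter.2 ⟨mem_Icc.2 ⟨hl.one_lt.le, hlb⟩, hl⟩)⟩
  rw [h1]
  -- the factors
  have h2 : ∀ l ∈ S, (if l ≤ 2 * D then w else 1) *
      Real.exp (-(D * (1 / (l : ℝ)) + D ^ 2 * (1 / (l : ℝ) ^ 2))) ≤ 1 - (Nz h l : ℝ) / l := by
    intro l hl
    have hp := (hSp l hl).1
    have hl0 : (0 : ℝ) < l := by exact_mod_cast hp.pos
    have he : 0 ≤ D * (1 / (l : ℝ)) + D ^ 2 * (1 / (l : ℝ) ^ 2) := by positivity
    by_cases hlD : l ≤ 2 * D
    · rw [if_pos hlD]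
      have h3 : Real.exp (-(D * (1 / (l : ℝ)) + D ^ 2 * (1 / (l : ℝ) ^ 2))) ≤ 1 :=
        Real.exp_le_one_iff.2 (by linarith)
      refine le_trans (mul_le_of_le_one_right hw0.le h3) (le_trans ?_ (fac_pos H hp))
      rw [hw]
      have h4 : (l : ℝ) ≤ 2 * D := by exact_mod_cast hlD
      exact one_div_le_one_div_of_le hl0 h4
    · rw [if_neg hlD, one_mul]
      have h4 : 2 * (D : ℝ) ≤ l := by
        have := not_le.1 hlD
        exact_mod_cast this.le
      have h5 : (D : ℝ) / l ≤ 1 / 2 := by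
        rw [div_le_iff₀ hl0]
        linarith
      have h6 := one_sub_exp (x := (D : ℝ) / l) (by positivity) h5
      have e1 : D * (1 / (l : ℝ)) + D ^ 2 * (1 / (l : ℝ) ^ 2) = (D : ℝ) / l + ((D : ℝ) / l) ^ 2 := by
        rw [div_pow]
        ring
      rw [e1]
      refine h6.trans ?_
      have h7 : (Nz h l : ℝ) / l ≤ (D : ℝ) / l := div_le_div_of_nonneg_right (Nz_le H hp) hl0.le
      linarith
  have h3 := prod_le_prod (fun l _ => by
    have : (0 : ℝ) ≤ if l ≤ 2 * D then w else 1 := by split_ifs <;> linarith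
    exact mul_nonneg this (Real.exp_pos _).le) h2
  refine le_trans ?_ h3
  rw [prod_mul_distrib, ← Real.exp_sum]
  -- the small primes
  have h4 : w ^ (2 * D + 1) ≤ ∏ l ∈ S, (if l ≤ 2 * D then w else 1) := by
    rw [prod_ite, prod_const, prod_const_one, mul_one]
    refine pow_le_pow_of_le_one hw0.le hw1 ?_
    have h5 : S.filter (fun l => l ≤ 2 * D) ⊆ range (2 * D + 1) := by
      intro l hl
      have := (mem_filter.1 hl).2
      exact mem_range.2 (by omega)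
    have h6 := card_le_card h5
    rwa [card_range] at h6
  -- the exponent
  have hb3 : 3 ≤ 2 * b := by omega
  have hbr : (2 : ℝ) ≤ b := by exact_mod_cast hb
  have h5 : ∑ l ∈ S, (1 / (l : ℝ)) ≤ Real.log (Real.log ((2 * b : ℕ) : ℝ)) + C := by
    have := (abs_le.1 (hC (2 * b) hb3)).2
    linarith
  have h6 : ∑ l ∈ S, (1 / (l : ℝ) ^ 2) ≤ K := by
    rw [hK]
    exact hs.sum_le_tsum S fun l _ => by positivity
  have h7 : -(D * (Real.log (Real.log ((2 * b : ℕ) : ℝ)) + C) + D ^ 2 * K) ≤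
      ∑ l ∈ S, -(D * (1 / (l : ℝ)) + D ^ 2 * (1 / (l : ℝ) ^ 2)) := by
    rw [sum_neg_distrib, sum_add_distrib, ← mul_sum, ← mul_sum]
    have e1 := mul_le_mul_of_nonneg_left h5 (show (0 : ℝ) ≤ D by linarith)
    have e2 := mul_le_mul_of_nonneg_left h6 (show (0 : ℝ) ≤ (D : ℝ) ^ 2 by positivity)
    linarith
  have h8 := Real.exp_le_exp.2 h7
  have hlb : 0 < Real.log b := Real.log_pos (by linarith)
  have hl2b : Real.log ((2 * b : ℕ) : ℝ) ≤ 2 * Real.log b := by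
    push_cast
    rw [Real.log_mul (by norm_num) (by linarith)]
    have := Real.log_le_log (by norm_num : (0 : ℝ) < 2) hbr
    linarith
  have hl2b0 : 0 < Real.log ((2 * b : ℕ) : ℝ) := Real.log_pos (by push_cast; linarith)
  have h9 : Real.exp (-(D * (Real.log (Real.log ((2 * b : ℕ) : ℝ)) + C) + D ^ 2 * K)) =
      Real.exp (-(D * C + D ^ 2 * K)) / Real.log ((2 * b : ℕ) : ℝ) ^ D := by
    have e1 : -(D * (Real.log (Real.log ((2 * b : ℕ) : ℝ)) + C) + D ^ 2 * K) =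
        -(D * C + D ^ 2 * K) - (D : ℝ) * Real.log (Real.log ((2 * b : ℕ) : ℝ)) := by ring
    rw [e1, Real.exp_sub, Real.exp_nat_mul, Real.exp_log hl2b0]
  rw [h9] at h8
  have h10 : Real.exp (-(D * C + D ^ 2 * K)) / (2 * Real.log b) ^ D ≤
      Real.exp (-(D * C + D ^ 2 * K)) / Real.log ((2 * b : ℕ) : ℝ) ^ D :=
    div_le_div_of_nonneg_left (Real.exp_pos _).le (pow_pos hl2b0 _)
      (pow_le_pow_left₀ hl2b0.le hl2b D)
  have h11 : w ^ (2 * D + 1) * Real.exp (-(D * C + D ^ 2 * K)) / 2 ^ D / Real.log b ^ D =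
      w ^ (2 * D + 1) * (Real.exp (-(D * C + D ^ 2 * K)) / (2 * Real.log b) ^ D) := by
    rw [mul_pow]
    field_simp
  rw [h11]
  exact mul_le_mul h4 (h10.trans h8) (by positivity) ((pow_pos hw0 _).le.trans h4)

end Pool.Agent.T2H19.GR
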