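import Pool.Agent.T2H19.GR.Stm

/-! # Package GEN: independence of events which depend on disjoint finite sets of coordinates -/

set_option autoImplicit false

namespace Pool.Agent.T2H19.GR

open MeasureTheory ProbabilityTheory Finset Filter Topology

namespace PkgGEN

lemma key {Ω ι : Type} [DecidableEq ι] (X : ι → Ω → ℕ) (S : Finset ι) (Q : (ι → ℕ) → Prop)
    (h : ∀ v w : ι → ℕ, (∀ i ∈ S, v i = w i) → (Q v ↔ Q w)) :
    ∃ B : Set (S → ℕ), MeasurableSet B ∧ {ω | Q fun i => X i ω} = (fun ω (i : S) => X i ω) ⁻¹' B := by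
  refine ⟨{x | Q (fun i => if hi : i ∈ S then x ⟨i, hi⟩ else 0)}, (Set.to_countable _).measurableSet, ?_⟩
  ext ω
  simp only [Set.mem_preimage, Set.mem_setOf_eq]
  refine h _ _ fun i hi => ?_
  simp [hi]

end PkgGEN

theorem T_GEN : P_GEN := by
  intro Ω _ P ι _ X hP hX hI S T hST Q₁ Q₂ h1 h2
  obtain ⟨B₁, hB₁, e₁⟩ := PkgGEN.key X S Q₁ h1
  obtain ⟨B₂, hB₂, e₂⟩ := PkgGEN.key X T Q₂ h2
  have m₁ : Measurable (fun ω (i : S) => X i ω) := measurable_pi_lambda _ fun i => hX i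
  have m₂ : Measurable (fun ω (i : T) => X i ω) := measurable_pi_lambda _ fun i => hX i
  have hInd := hI.indepFun_finset S T hST hX
  refine ⟨by rw [e₁]; exact m₁ hB₁, by rw [e₂]; exact m₂ hB₂, ?_⟩
  have e₃ : {ω | (Q₁ fun i => X i ω) ∧ Q₂ fun i => X i ω} =
      {ω | Q₁ fun i => X i ω} ∩ {ω | Q₂ fun i => X i ω} := rfl
  rw [e₃, e₁, e₂]
  have := hInd.measure_inter_preimage_eq_mul _ _ hB₁ hB₂
  rw [Measure.real, Measure.real, Measure.real, this, ENNReal.toReal_mul]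

end Pool.Agent.T2H19.GR
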