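import Pool.Agent.T2H19.GR.Stm

/-! # Package GL2 : infinitely many stages are in `G` -/

set_option autoImplicit false
set_option linter.unusedVariables false

namespace Pool.Agent.T2H19.GR.PkgGL2

open MeasureTheory ProbabilityTheory Finset Filter Topology
open scoped ENNReal
open Pool.Agent.T2H19.GR

/-- the stage `s` is in `G` -/
def Gd (h R : ℕ → ℕ) (G : ℕ → ℕ → Prop) (x : ℕ → ℕ → ℕ) (s : ℕ) : Prop :=
  G (nx h R x s) (x s (nx h R x s))

/-- the stages `k₀, …, k₀ + m - 1` of the chain are not in `G` -/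
def W (h R : ℕ → ℕ) (G : ℕ → ℕ → Prop) (x : ℕ → ℕ → ℕ) (s₀ k₀ m : ℕ) : Prop :=
  ∀ j < m, ¬ Gd h R G x (ch h R x s₀ (k₀ + j))

section loc

variable {h R : ℕ → ℕ} {G : ℕ → ℕ → Prop}

lemma nx_bd (hZT : P_ZT) (hR : ∀ s, 0 < R s) (x : ℕ → ℕ → ℕ) (s : ℕ) :
    s < nx h R x s ∧ nx h R x s < s + R s + 2 := by
  obtain ⟨h1, -⟩ := hZT
  obtain ⟨h2, h3, h4⟩ := h1 (fun b => h (x s b)) (s + 1) (R s)
  unfold nx
  exact ⟨by omega, by omega⟩

lemma nx_loc (hZT : P_ZT) {x y : ℕ → ℕ → ℕ} {s : ℕ} (hxy : ∀ b, b < s + R s + 2 → x s b = y s b) :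
    nx h R x s = nx h R y s := by
  unfold nx
  refine hZT.2.1 _ _ _ _ fun i hi => ?_
  rw [hxy i (by omega)]

lemma Gd_loc (hZT : P_ZT) (hR : ∀ s, 0 < R s) {x y : ℕ → ℕ → ℕ} {s : ℕ}
    (hxy : ∀ b, b < s + R s + 2 → x s b = y s b) : Gd h R G x s ↔ Gd h R G y s := by
  unfold Gd
  rw [nx_loc hZT hxy, hxy _ (nx_bd hZT hR y s).2]

lemma ch_succ (x : ℕ → ℕ → ℕ) (s₀ k : ℕ) : ch h R x s₀ (k + 1) = nx h R x (ch h R x s₀ k) := rfl

lemma ch_strictMono (hZT : P_ZT) (hR : ∀ s, 0 < R s) (x : ℕ → ℕ → ℕ) (s₀ : ℕ) :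
    StrictMono (ch h R x s₀) := strictMono_nat_of_lt_succ fun k => (nx_bd hZT hR x _).1

lemma ch_loc (hZT : P_ZT) (hR : ∀ s, 0 < R s) {x y : ℕ → ℕ → ℕ} {s₀ s n : ℕ}
    (hxy : ∀ s' < s, ∀ b, b < s' + R s' + 2 → x s' b = y s' b) (hn : ch h R x s₀ n = s) :
    ∀ j ≤ n, ch h R y s₀ j = ch h R x s₀ j := by
  intro j
  induction j with
  | zero => intro _; rfl
  | succ j ih =>
    intro hj
    have h1 := ih (by omega)
    have h2 : ch h R x s₀ j < s := by
      rw [← hn]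
      exact ch_strictMono hZT hR x s₀ (by omega)
    rw [ch_succ, ch_succ, h1]
    exact (nx_loc hZT (hxy _ h2)).symm

lemma W_loc (hZT : P_ZT) (hR : ∀ s, 0 < R s) {x y : ℕ → ℕ → ℕ} {s₀ k₀ m s : ℕ}
    (hxy : ∀ s' < s, ∀ b, b < s' + R s' + 2 → x s' b = y s' b)
    (hx : W h R G x s₀ k₀ m ∧ ch h R x s₀ (k₀ + m) = s) :
    W h R G y s₀ k₀ m ∧ ch h R y s₀ (k₀ + m) = s := by
  obtain ⟨h1, h2⟩ := hx
  have h3 := ch_loc hZT hR hxy h2
  refine ⟨fun j hj => ?_, by rw [h3 _ le_rfl, h2]⟩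
  rw [h3 (k₀ + j) (by omega)]
  have h4 : ch h R x s₀ (k₀ + j) < s := by
    rw [← h2]
    exact ch_strictMono hZT hR x s₀ (by omega)
  rw [← Gd_loc hZT hR (hxy _ h4)]
  exact h1 j hj

end loc

section prob

variable {Ω : Type} [MeasurableSpace Ω] {M : ℕ → ℕ} {P : Measure Ω} {X : ℕ → ℕ → Ω → ℕ}
  {h R : ℕ → ℕ} {G : ℕ → ℕ → Prop}

/-- one more stage -/
lemma step (hZT : P_ZT) (hGEN : P_GEN) (hM : Model M P X) (hR : ∀ s, 0 < R s) {c : ℝ} {s₁ : ℕ}
    (hc0 : 0 < c)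
    (hc : ∀ s : ℕ, s₁ ≤ s → c ≤ P.real {ω | Gd h R G (fun s b => X s b ω) s})
    (s₀ k₀ m : ℕ) (hk₀ : s₁ ≤ k₀) :
    P {ω | W h R G (fun s b => X s b ω) s₀ k₀ (m + 1)} ≤
      ENNReal.ofReal (1 - c) * P {ω | W h R G (fun s b => X s b ω) s₀ k₀ m} := by
  have := hM.prob
  have hmeas : ∀ i : ℕ × ℕ, Measurable (X i.1 i.2) := fun i => hM.meas _ _
  -- the finite sets of coordinates
  let S : ℕ → Finset (ℕ × ℕ) := fun s =>
    (range s).biUnion fun s' => (range (s' + R s' + 2)).image fun b => (s', b)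
  let T : ℕ → Finset (ℕ × ℕ) := fun s => (range (s + R s + 2)).image fun b => (s, b)
  have hS : ∀ s s' b, s' < s → b < s' + R s' + 2 → (s', b) ∈ S s := by
    intro s s' b h1 h2
    exact mem_biUnion.2 ⟨s', mem_range.2 h1, mem_image.2 ⟨b, mem_range.2 h2, rfl⟩⟩
  have hT : ∀ s b, b < s + R s + 2 → (s, b) ∈ T s := by
    intro s b h2
    exact mem_image.2 ⟨b, mem_range.2 h2, rfl⟩
  have hdisj : ∀ s, Disjoint (S s) (T s) := by
    intro s
    rw [Finset.disjoint_left]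
    intro i hi hi'
    obtain ⟨s', h1, h2⟩ := mem_biUnion.1 hi
    obtain ⟨b, -, h3⟩ := mem_image.1 h2
    obtain ⟨b', -, h4⟩ := mem_image.1 hi'
    rw [← h4] at h3
    have h5 := congrArg Prod.fst h3
    simp only at h5
    have := mem_range.1 h1
    omega
  have key : ∀ s, MeasurableSet {ω | W h R G (fun s b => X s b ω) s₀ k₀ m ∧
        ch h R (fun s b => X s b ω) s₀ (k₀ + m) = s} ∧
      MeasurableSet {ω | ¬ Gd h R G (fun s b => X s b ω) s} ∧
      P.real {ω | (W h R G (fun s b => X s b ω) s₀ k₀ m ∧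
        ch h R (fun s b => X s b ω) s₀ (k₀ + m) = s) ∧ ¬ Gd h R G (fun s b => X s b ω) s} =
      P.real {ω | W h R G (fun s b => X s b ω) s₀ k₀ m ∧
        ch h R (fun s b => X s b ω) s₀ (k₀ + m) = s} *
        P.real {ω | ¬ Gd h R G (fun s b => X s b ω) s} := by
    intro s
    exact hGEN Ω P (ℕ × ℕ) (fun i => X i.1 i.2) hM.prob hmeas hM.indep (S s) (T s) (hdisj s)
      (fun v => W h R G (fun s b => v (s, b)) s₀ k₀ m ∧
        ch h R (fun s b => v (s, b)) s₀ (k₀ + m) = s)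
      (fun v => ¬ Gd h R G (fun s b => v (s, b)) s)
      (fun v w hvw => ⟨fun h1 => W_loc hZT hR (fun s' hs' b hb => hvw _ (hS s s' b hs' hb)) h1,
        fun h1 => W_loc hZT hR (fun s' hs' b hb => (hvw _ (hS s s' b hs' hb)).symm) h1⟩)
      (fun v w hvw => not_congr (Gd_loc hZT hR fun b hb => hvw _ (hT s b hb)))
  -- the probability of a stage which is not in `G`
  have hq : ∀ s, s₁ ≤ s → P {ω | ¬ Gd h R G (fun s b => X s b ω) s} ≤ ENNReal.ofReal (1 - c) := by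
    intro s hs
    have h1 := (key s).2.1
    have h2 : {ω | Gd h R G (fun s b => X s b ω) s} =
        {ω | ¬ Gd h R G (fun s b => X s b ω) s}ᶜ := by
      ext ω
      simp
    have h3 := hc s hs
    rw [h2, probReal_compl_eq_one_sub h1] at h3
    rw [← ENNReal.ofReal_toReal (measure_ne_top P {ω | ¬ Gd h R G (fun s b => X s b ω) s})]
    apply ENNReal.ofReal_le_ofReal
    rw [← measureReal_def]
    linarith
  have hU : {ω | W h R G (fun s b => X s b ω) s₀ k₀ m} =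
      ⋃ s, {ω | W h R G (fun s b => X s b ω) s₀ k₀ m ∧
        ch h R (fun s b => X s b ω) s₀ (k₀ + m) = s} := by
    ext ω
    simp
  have hU' : {ω | W h R G (fun s b => X s b ω) s₀ k₀ (m + 1)} ⊆
      ⋃ s, {ω | (W h R G (fun s b => X s b ω) s₀ k₀ m ∧
        ch h R (fun s b => X s b ω) s₀ (k₀ + m) = s) ∧ ¬ Gd h R G (fun s b => X s b ω) s} := by
    intro ω hω
    refine Set.mem_iUnion.2 ⟨ch h R (fun s b => X s b ω) s₀ (k₀ + m), ⟨fun j hj => ?_, rfl⟩, ?_⟩
    · exact hω j (by omega)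
    · exact hω m (by omega)
  calc P {ω | W h R G (fun s b => X s b ω) s₀ k₀ (m + 1)}
      ≤ P (⋃ s, {ω | (W h R G (fun s b => X s b ω) s₀ k₀ m ∧
        ch h R (fun s b => X s b ω) s₀ (k₀ + m) = s) ∧ ¬ Gd h R G (fun s b => X s b ω) s}) :=
        measure_mono hU'
    _ ≤ ∑' s, P {ω | (W h R G (fun s b => X s b ω) s₀ k₀ m ∧
        ch h R (fun s b => X s b ω) s₀ (k₀ + m) = s) ∧ ¬ Gd h R G (fun s b => X s b ω) s} :=
        measure_iUnion_le _
    _ ≤ ∑' s, ENNReal.ofReal (1 - c) * P {ω | W h R G (fun s b => X s b ω) s₀ k₀ m ∧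
        ch h R (fun s b => X s b ω) s₀ (k₀ + m) = s} := by
        refine ENNReal.tsum_le_tsum fun s => ?_
        by_cases hs : s₁ ≤ s
        · have h1 := (key s).2.2
          have h2 : P {ω | (W h R G (fun s b => X s b ω) s₀ k₀ m ∧
              ch h R (fun s b => X s b ω) s₀ (k₀ + m) = s) ∧
              ¬ Gd h R G (fun s b => X s b ω) s} =
              P {ω | W h R G (fun s b => X s b ω) s₀ k₀ m ∧
                ch h R (fun s b => X s b ω) s₀ (k₀ + m) = s} *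
                P {ω | ¬ Gd h R G (fun s b => X s b ω) s} := by
            rw [measureReal_def, measureReal_def, measureReal_def, ← ENNReal.toReal_mul] at h1
            exact (ENNReal.toReal_eq_toReal_iff' (measure_ne_top _ _)
              (ENNReal.mul_ne_top (measure_ne_top _ _) (measure_ne_top _ _))).1 h1
          rw [h2, mul_comm]
          exact mul_le_mul_left (hq s hs) _
        · have h1 : {ω | (W h R G (fun s b => X s b ω) s₀ k₀ m ∧
              ch h R (fun s b => X s b ω) s₀ (k₀ + m) = s) ∧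
              ¬ Gd h R G (fun s b => X s b ω) s} = ∅ := by
            ext ω
            simp only [Set.mem_ofPred_eq, Set.mem_empty_iff_false, iff_false]
            rintro ⟨⟨-, h2⟩, -⟩
            have h3 := (ch_strictMono (h := h) hZT hR (fun s b => X s b ω) s₀).le_apply (x := k₀ + m)
            omega
          rw [h1]
          simp
    _ = ENNReal.ofReal (1 - c) * ∑' s, P {ω | W h R G (fun s b => X s b ω) s₀ k₀ m ∧
        ch h R (fun s b => X s b ω) s₀ (k₀ + m) = s} := ENNReal.tsum_mul_left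
    _ = ENNReal.ofReal (1 - c) * P {ω | W h R G (fun s b => X s b ω) s₀ k₀ m} := by
        rw [hU, measure_iUnion]
        · intro s s' hss'
          rw [Function.onFun, Set.disjoint_left]
          rintro ω ⟨-, h1⟩ ⟨-, h2⟩
          exact hss' (h1.symm.trans h2)
        · exact fun s => (key s).1

lemma bound (hZT : P_ZT) (hGEN : P_GEN) (hM : Model M P X) (hR : ∀ s, 0 < R s) {c : ℝ} {s₁ : ℕ}
    (hc0 : 0 < c)
    (hc : ∀ s : ℕ, s₁ ≤ s → c ≤ P.real {ω | Gd h R G (fun s b => X s b ω) s})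
    (s₀ k₀ m : ℕ) (hk₀ : s₁ ≤ k₀) :
    P {ω | W h R G (fun s b => X s b ω) s₀ k₀ m} ≤ ENNReal.ofReal (1 - c) ^ m := by
  have := hM.prob
  induction m with
  | zero => simpa using prob_le_one
  | succ m ih =>
    refine (step hZT hGEN hM hR hc0 hc s₀ k₀ m hk₀).trans ?_
    rw [pow_succ, mul_comm]
    exact mul_le_mul_left ih _

end prob

end Pool.Agent.T2H19.GR.PkgGL2

namespace Pool.Agent.T2H19.GR

open MeasureTheory ProbabilityTheory Finset Filter Topology PkgGL2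
open scoped ENNReal

theorem T_GL2 (hZT : P_ZT) (hGEN : P_GEN) : P_GL2 := by
  intro Ω _ M P X hM h R G c s₁ hR hc0 hc s₀
  have := hM.prob
  have hq : ENNReal.ofReal (1 - c) < 1 := by
    rw [← ENNReal.ofReal_one]
    exact (ENNReal.ofReal_lt_ofReal_iff one_pos).2 (by linarith)
  have hae : ∀ᵐ ω ∂P, ∀ k₀ : ℕ, s₁ ≤ k₀ →
      ∃ j, Gd h R G (fun s b => X s b ω) (ch h R (fun s b => X s b ω) s₀ (k₀ + j)) := by
    rw [ae_all_iff]
    intro k₀
    by_cases hk₀ : s₁ ≤ k₀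
    swap
    · exact Eventually.of_forall fun ω h1 => absurd h1 hk₀
    have h0 : P {ω | ¬ ∃ j, Gd h R G (fun s b => X s b ω)
        (ch h R (fun s b => X s b ω) s₀ (k₀ + j))} = 0 := by
      refine le_antisymm ?_ bot_le
      refine ge_of_tendsto' (ENNReal.tendsto_pow_atTop_nhds_zero_of_lt_one hq) fun m => ?_
      refine le_trans (measure_mono ?_) (bound hZT hGEN hM hR hc0 hc s₀ k₀ m hk₀)
      intro ω hω j _ hj
      exact hω ⟨j, hj⟩
    filter_upwards [(ae_iff (p := fun ω => ∃ j, Gd h R G (fun s b => X s b ω)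
      (ch h R (fun s b => X s b ω) s₀ (k₀ + j)))).2 h0] with ω hω _
    exact hω
  filter_upwards [hae] with ω hω
  rw [frequently_atTop]
  intro a
  obtain ⟨j, hj⟩ := hω (max a s₁) (le_max_right _ _)
  refine ⟨max a s₁ + j, ?_, hj⟩
  have := le_max_left a s₁
  omega

end Pool.Agent.T2H19.GR
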