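import Pool.Agent.T2H19.GR.Stm2
import Pool.Agent.T2H19.GR.T_GL2

/-! # Package LLN : law of large numbers for the stages (helper21; uses the lemmas of T_GL2 of helper48) -/

set_option autoImplicit false
set_option linter.unusedVariables false

namespace Pool.Agent.T2H19.GR.PkgLLN

open MeasureTheory ProbabilityTheory Finset Filter Topology
open scoped ENNReal
open Pool.Agent.T2H19.GR Pool.Agent.T2H19.GR.PkgGL2

section

variable {Ω : Type} [MeasurableSpace Ω] {M : ℕ → ℕ} {P : Measure Ω} {X : ℕ → ℕ → Ω → ℕ}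
  {h R : ℕ → ℕ} {G : ℕ → ℕ → Prop}

/-- the chain is bounded by a deterministic function -/
lemma ch_bd (hZT : P_ZT) (hR : ∀ s, 0 < R s) (s₀ k : ℕ) :
    ∃ B, ∀ x : ℕ → ℕ → ℕ, ch h R x s₀ k ≤ B := by
  induction k with
  | zero => exact ⟨s₀, fun x => le_rfl⟩
  | succ k ih =>
    obtain ⟨B, hB⟩ := ih
    refine ⟨∑ s ∈ range (B + 1), (s + R s + 2), fun x => ?_⟩
    rw [ch_succ]
    have h1 := (nx_bd (h := h) hZT hR x (ch h R x s₀ k)).2
    have h2 : (ch h R x s₀ k + R (ch h R x s₀ k) + 2) ≤ ∑ s ∈ range (B + 1), (s + R s + 2) :=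
      Finset.single_le_sum (f := fun s => s + R s + 2) (fun _ _ => Nat.zero_le _)
        (mem_range.2 (Nat.lt_succ_of_le (hB x)))
    omega

/-- the weights, as a function of the stage and the level -/
def xx (X : ℕ → ℕ → Ω → ℕ) (ω : Ω) : ℕ → ℕ → ℕ := fun s b => X s b ω

open Classical in
/-- indicator of the stage `s` in `G` -/
noncomputable def z (X : ℕ → ℕ → Ω → ℕ) (h R : ℕ → ℕ) (G : ℕ → ℕ → Prop) (s : ℕ) (ω : Ω) : ℝ :=
  if Gd h R G (xx X ω) s then 1 else 0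

/-- probability that the stage `s` is in `G` -/
noncomputable def ph (P : Measure Ω) (X : ℕ → ℕ → Ω → ℕ) (h R : ℕ → ℕ) (G : ℕ → ℕ → Prop) (s : ℕ) : ℝ :=
  P.real {ω | Gd h R G (xx X ω) s}

/-- the chain -/
def cc (X : ℕ → ℕ → Ω → ℕ) (h R : ℕ → ℕ) (s₀ k : ℕ) (ω : Ω) : ℕ := ch h R (xx X ω) s₀ k

/-- the centred indicator at the `k`-th stage of the chain -/
noncomputable def D (P : Measure Ω) (X : ℕ → ℕ → Ω → ℕ) (h R : ℕ → ℕ) (G : ℕ → ℕ → Prop) (s₀ k : ℕ) (ω : Ω) : ℝ :=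
  z X h R G (cc X h R s₀ k ω) ω - ph P X h R G (cc X h R s₀ k ω)

open Classical in
/-- `v` if `Q` holds, `0` otherwise -/
noncomputable def iq (Q : Prop) (v : ℝ) : ℝ := if Q then v else 0

lemma iq_pos {Q : Prop} (hQ : Q) (v : ℝ) : iq Q v = v := if_pos hQ

lemma iq_neg {Q : Prop} (hQ : ¬ Q) (v : ℝ) : iq Q v = 0 := if_neg hQ

/-- independence of a local event and the stage `s` -/
lemma gen (hZT : P_ZT) (hGEN : P_GEN) (hM : Model M P X) (hR : ∀ s, 0 < R s) (s : ℕ)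
    (Q : (ℕ → ℕ → ℕ) → Prop)
    (hQ : ∀ x y : ℕ → ℕ → ℕ, (∀ s' < s, ∀ b, b < s' + R s' + 2 → x s' b = y s' b) → Q x → Q y) :
    MeasurableSet {ω | Q (xx X ω)} ∧ MeasurableSet {ω | Gd h R G (xx X ω) s} ∧
      P.real {ω | Q (xx X ω) ∧ Gd h R G (xx X ω) s} =
        P.real {ω | Q (xx X ω)} * P.real {ω | Gd h R G (xx X ω) s} := by
  have := hM.prob
  have hmeas : ∀ i : ℕ × ℕ, Measurable (X i.1 i.2) := fun i => hM.meas _ _
  let S : Finset (ℕ × ℕ) :=
    (range s).biUnion fun s' => (range (s' + R s' + 2)).image fun b => (s', b)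
  let T : Finset (ℕ × ℕ) := (range (s + R s + 2)).image fun b => (s, b)
  have hS : ∀ s' b, s' < s → b < s' + R s' + 2 → (s', b) ∈ S := by
    intro s' b h1 h2
    exact mem_biUnion.2 ⟨s', mem_range.2 h1, mem_image.2 ⟨b, mem_range.2 h2, rfl⟩⟩
  have hT : ∀ b, b < s + R s + 2 → (s, b) ∈ T := by
    intro b h2
    exact mem_image.2 ⟨b, mem_range.2 h2, rfl⟩
  have hdisj : Disjoint S T := by
    rw [Finset.disjoint_left]
    intro i hi hi'
    obtain ⟨s', h1, h2⟩ := mem_biUnion.1 hi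
    obtain ⟨b, -, h3⟩ := mem_image.1 h2
    obtain ⟨b', -, h4⟩ := mem_image.1 hi'
    rw [← h4] at h3
    have h5 := congrArg Prod.fst h3
    simp only at h5
    have := mem_range.1 h1
    omega
  exact hGEN Ω P (ℕ × ℕ) (fun i => X i.1 i.2) hM.prob hmeas hM.indep S T hdisj
      (fun v => Q (fun s b => v (s, b)))
      (fun v => Gd h R G (fun s b => v (s, b)) s)
      (fun v w hvw => ⟨fun h1 => hQ _ _ (fun s' hs' b hb => hvw _ (hS s' b hs' hb)) h1,
        fun h1 => hQ _ _ (fun s' hs' b hb => (hvw _ (hS s' b hs' hb)).symm) h1⟩)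
      (fun v w hvw => Gd_loc hZT hR fun b hb => hvw _ (hT b hb))

lemma z_eq (s : ℕ) (ω : Ω) :
    z X h R G s ω = ({ω | Gd h R G (xx X ω) s}.indicator 1 ω : ℝ) := by
  unfold z
  by_cases h1 : Gd h R G (xx X ω) s
  · rw [if_pos h1, Set.indicator_of_mem (by exact h1)]
    rfl
  · rw [if_neg h1, Set.indicator_of_notMem (by exact h1)]

open Classical in
/-- the key vanishing -/
lemma int_zero (hZT : P_ZT) (hGEN : P_GEN) (hM : Model M P X) (hR : ∀ s, 0 < R s) (s : ℕ)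
    (Q : (ℕ → ℕ → ℕ) → Prop)
    (hQ : ∀ x y : ℕ → ℕ → ℕ, (∀ s' < s, ∀ b, b < s' + R s' + 2 → x s' b = y s' b) → Q x → Q y) :
    Integrable (fun ω => iq (Q (xx X ω)) (z X h R G s ω - ph P X h R G s)) P ∧
    ∫ ω, iq (Q (xx X ω)) (z X h R G s ω - ph P X h R G s) ∂P = 0 := by
  have := hM.prob
  obtain ⟨h1, h2, h3⟩ := gen (G := G) (h := h) hZT hGEN hM hR s Q hQ
  have h4 : (fun ω => iq (Q (xx X ω)) (z X h R G s ω - ph P X h R G s)) =
      fun ω => ({ω | Q (xx X ω) ∧ Gd h R G (xx X ω) s}.indicator 1 ω : ℝ) -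
        ph P X h R G s * ({ω | Q (xx X ω)}.indicator 1 ω : ℝ) := by
    funext ω
    by_cases h5 : Q (xx X ω)
    · rw [iq_pos h5, Set.indicator_of_mem (s := {ω | Q (xx X ω)}) (by exact h5)]
      unfold z
      by_cases h6 : Gd h R G (xx X ω) s
      · rw [if_pos h6, Set.indicator_of_mem (s := {ω | Q (xx X ω) ∧ Gd h R G (xx X ω) s}) (by exact ⟨h5, h6⟩)]
        simp
      · rw [if_neg h6, Set.indicator_of_notMem (s := {ω | Q (xx X ω) ∧ Gd h R G (xx X ω) s})
          (by exact fun h7 => h6 h7.2)]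
        simp
    · rw [iq_neg h5, Set.indicator_of_notMem (s := {ω | Q (xx X ω)}) (by exact h5),
        Set.indicator_of_notMem (s := {ω | Q (xx X ω) ∧ Gd h R G (xx X ω) s}) (by exact fun h7 => h5 h7.1)]
      simp
  have h12 : MeasurableSet {ω | Q (xx X ω) ∧ Gd h R G (xx X ω) s} := h1.inter h2
  have i1 : Integrable ({ω | Q (xx X ω) ∧ Gd h R G (xx X ω) s}.indicator (1 : Ω → ℝ)) P :=
    (integrable_const (1 : ℝ)).indicator h12
  have i2 : Integrable ({ω | Q (xx X ω)}.indicator (1 : Ω → ℝ)) P :=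
    (integrable_const (1 : ℝ)).indicator h1
  rw [h4]
  refine ⟨i1.sub (i2.const_mul _), ?_⟩
  rw [integral_sub i1 (i2.const_mul _), integral_const_mul, integral_indicator_one h12,
    integral_indicator_one h1, h3]
  unfold ph
  ring

/-- locality of the chain -/
lemma Q_loc (hZT : P_ZT) (hR : ∀ s, 0 < R s) (s₀ j k s s' : ℕ) (hj : j < k) (E : Prop) (x y : ℕ → ℕ → ℕ)
    (hxy : ∀ s' < s, ∀ b, b < s' + R s' + 2 → x s' b = y s' b)
    (hx : (ch h R x s₀ k = s ∧ ch h R x s₀ j = s')) :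
    (ch h R y s₀ k = s ∧ ch h R y s₀ j = s') ∧ (Gd h R G x s' ↔ Gd h R G y s') := by
  obtain ⟨h1, h2⟩ := hx
  have h3 := ch_loc hZT hR hxy h1
  have h4 : s' < s := by
    rw [← h1, ← h2]
    exact ch_strictMono hZT hR x s₀ hj
  exact ⟨⟨by rw [h3 k le_rfl, h1], by rw [h3 j hj.le, h2]⟩, Gd_loc hZT hR (hxy _ h4)⟩

lemma z01 (s : ℕ) (ω : Ω) : 0 ≤ z X h R G s ω ∧ z X h R G s ω ≤ 1 := by
  unfold z
  split_ifs <;> norm_num

lemma ph01 (hM : Model M P X) (s : ℕ) : 0 ≤ ph P X h R G s ∧ ph P X h R G s ≤ 1 := by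
  have := hM.prob
  exact ⟨measureReal_nonneg, measureReal_le_one⟩

lemma D_abs (hM : Model M P X) (s₀ k : ℕ) (ω : Ω) : |D P X h R G s₀ k ω| ≤ 1 := by
  unfold D
  have h1 := z01 (X := X) (h := h) (R := R) (G := G) (cc X h R s₀ k ω) ω
  have h2 := ph01 (h := h) (R := R) (G := G) hM (cc X h R s₀ k ω)
  rw [abs_le]
  constructor <;> linarith [h1.1, h1.2, h2.1, h2.2]

lemma cc_meas (hZT : P_ZT) (hGEN : P_GEN) (hM : Model M P X) (hR : ∀ s, 0 < R s) (s₀ k : ℕ) :
    Measurable (cc X h R s₀ k) := by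
  refine measurable_to_countable' fun s => ?_
  have h1 := (gen (G := fun _ _ => True) (h := h) hZT hGEN hM hR s (fun x => ch h R x s₀ k = s)
    (fun x y hxy hx => by
      have h3 := ch_loc hZT hR hxy hx
      rw [h3 k le_rfl, hx])).1
  exact h1

lemma D_meas (hZT : P_ZT) (hGEN : P_GEN) (hM : Model M P X) (hR : ∀ s, 0 < R s) (s₀ k : ℕ) :
    Measurable (D P X h R G s₀ k) := by
  have hc := cc_meas (h := h) hZT hGEN hM hR s₀ k
  have h1 : Measurable fun ω => z X h R G (cc X h R s₀ k ω) ω := by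
    have h2 : MeasurableSet {ω | Gd h R G (xx X ω) (cc X h R s₀ k ω)} := by
      have h3 : {ω | Gd h R G (xx X ω) (cc X h R s₀ k ω)} =
          ⋃ s, ((cc X h R s₀ k) ⁻¹' {s} ∩ {ω | Gd h R G (xx X ω) s}) := by
        ext ω
        simp
      rw [h3]
      refine MeasurableSet.iUnion fun s => (hc (measurableSet_singleton s)).inter ?_
      exact (gen (G := G) (h := h) hZT hGEN hM hR s (fun _ => True) (fun _ _ _ _ => trivial)).2.1
    have h4 : (fun ω => z X h R G (cc X h R s₀ k ω) ω) =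
        {ω | Gd h R G (xx X ω) (cc X h R s₀ k ω)}.indicator (1 : Ω → ℝ) := by
      funext ω
      unfold z
      by_cases h5 : Gd h R G (xx X ω) (cc X h R s₀ k ω)
      · rw [if_pos h5, Set.indicator_of_mem (by exact h5)]
        rfl
      · rw [if_neg h5, Set.indicator_of_notMem (by exact h5)]
    rw [h4]
    exact measurable_one.indicator h2
  exact h1.sub ((measurable_of_countable (ph P X h R G)).comp hc)

open Classical in
lemma cross (hZT : P_ZT) (hGEN : P_GEN) (hM : Model M P X) (hR : ∀ s, 0 < R s) (s₀ j k : ℕ) (hjk : j < k) :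
    ∫ ω, D P X h R G s₀ j ω * D P X h R G s₀ k ω ∂P = 0 := by
  have := hM.prob
  obtain ⟨B, hB⟩ := ch_bd (h := h) hZT hR s₀ k
  set Q2 : ℕ → ℕ → (ℕ → ℕ → ℕ) → Prop := fun s s' x => ch h R x s₀ k = s ∧ ch h R x s₀ j = s' with hQ2
  set Q1 : ℕ → ℕ → (ℕ → ℕ → ℕ) → Prop := fun s s' x => Q2 s s' x ∧ Gd h R G x s' with hQ1
  have hpt : ∀ ω, D P X h R G s₀ j ω * D P X h R G s₀ k ω =
      ∑ s ∈ range (B + 1), ∑ s' ∈ range (B + 1),
        (iq (Q1 s s' (xx X ω)) (z X h R G s ω - ph P X h R G s) -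
          ph P X h R G s' * iq (Q2 s s' (xx X ω)) (z X h R G s ω - ph P X h R G s)) := by
    intro ω
    have hk : cc X h R s₀ k ω ≤ B := hB _
    have hj : cc X h R s₀ j ω ≤ B :=
      ((ch_strictMono (h := h) hZT hR (xx X ω) s₀) hjk).le.trans hk
    rw [Finset.sum_eq_single (cc X h R s₀ k ω), Finset.sum_eq_single (cc X h R s₀ j ω)]
    · have e2 : Q2 (cc X h R s₀ k ω) (cc X h R s₀ j ω) (xx X ω) := ⟨rfl, rfl⟩
      rw [iq_pos e2]
      by_cases h5 : Gd h R G (xx X ω) (cc X h R s₀ j ω)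
      · rw [iq_pos (show Q1 _ _ _ from ⟨e2, h5⟩)]
        have h6 : z X h R G (cc X h R s₀ j ω) ω = 1 := if_pos h5
        unfold D
        rw [h6]
        ring
      · rw [iq_neg (show ¬ Q1 _ _ _ from fun h7 => h5 h7.2)]
        have h6 : z X h R G (cc X h R s₀ j ω) ω = 0 := if_neg h5
        unfold D
        rw [h6]
        ring
    · intro s' _ hs'
      have e2 : ¬ Q2 (cc X h R s₀ k ω) s' (xx X ω) := fun h7 => hs' h7.2.symm
      rw [iq_neg e2, iq_neg (show ¬ Q1 _ _ _ from fun h7 => e2 h7.1)]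
      simp
    · intro h7
      exact absurd (mem_range.2 (Nat.lt_succ_of_le hj)) h7
    · intro s _ hs
      refine Finset.sum_eq_zero fun s' _ => ?_
      have e2 : ¬ Q2 s s' (xx X ω) := fun h7 => hs h7.1.symm
      rw [iq_neg e2, iq_neg (show ¬ Q1 _ _ _ from fun h7 => e2 h7.1)]
      simp
    · intro h7
      exact absurd (mem_range.2 (Nat.lt_succ_of_le hk)) h7
  have k2 := fun s s' => int_zero (G := G) (h := h) hZT hGEN hM hR s (Q2 s s')
    (fun x y hxy hx => (Q_loc (G := G) hZT hR s₀ j k s s' hjk True x y hxy hx).1)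
  have k1 := fun s s' => int_zero (G := G) (h := h) hZT hGEN hM hR s (Q1 s s')
    (fun x y hxy hx => by
      have h8 := Q_loc (G := G) hZT hR s₀ j k s s' hjk True x y hxy hx.1
      exact ⟨h8.1, h8.2.1 hx.2⟩)
  have k3 : ∀ s s', Integrable (fun ω => iq (Q1 s s' (xx X ω)) (z X h R G s ω - ph P X h R G s) -
      ph P X h R G s' * iq (Q2 s s' (xx X ω)) (z X h R G s ω - ph P X h R G s)) P ∧
      ∫ ω, (iq (Q1 s s' (xx X ω)) (z X h R G s ω - ph P X h R G s) -
      ph P X h R G s' * iq (Q2 s s' (xx X ω)) (z X h R G s ω - ph P X h R G s)) ∂P = 0 := by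
    intro s s'
    have i2 : Integrable (fun ω => ph P X h R G s' *
        iq (Q2 s s' (xx X ω)) (z X h R G s ω - ph P X h R G s)) P := (k2 s s').1.const_mul _
    refine ⟨(k1 s s').1.sub i2, ?_⟩
    rw [integral_sub (k1 s s').1 i2, integral_const_mul, (k1 s s').2, (k2 s s').2]
    simp
  rw [integral_congr_ae (ae_of_all _ hpt), integral_finsetSum]
  · refine Finset.sum_eq_zero fun s _ => ?_
    rw [integral_finsetSum]
    · exact Finset.sum_eq_zero fun s' _ => (k3 s s').2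
    · exact fun s' _ => (k3 s s').1
  · exact fun s _ => integrable_finsetSum _ fun s' _ => (k3 s s').1

lemma DD_int (hZT : P_ZT) (hGEN : P_GEN) (hM : Model M P X) (hR : ∀ s, 0 < R s) (s₀ j k : ℕ) :
    Integrable (fun ω => D P X h R G s₀ j ω * D P X h R G s₀ k ω) P := by
  have := hM.prob
  refine Integrable.of_bound
    ((D_meas hZT hGEN hM hR s₀ j).mul (D_meas hZT hGEN hM hR s₀ k)).aestronglyMeasurable 1
    (ae_of_all _ fun ω => ?_)
  rw [Real.norm_eq_abs, abs_mul]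
  have h1 := D_abs (h := h) (R := R) (G := G) hM s₀ j ω
  have h2 := D_abs (h := h) (R := R) (G := G) hM s₀ k ω
  exact mul_le_one₀ h1 (abs_nonneg _) h2

/-- the second moment -/
lemma second (hZT : P_ZT) (hGEN : P_GEN) (hM : Model M P X) (hR : ∀ s, 0 < R s) (s₀ K : ℕ) :
    Integrable (fun ω => (∑ k ∈ range K, D P X h R G s₀ k ω) ^ 2) P ∧
    ∫ ω, (∑ k ∈ range K, D P X h R G s₀ k ω) ^ 2 ∂P ≤ K := by
  have := hM.prob
  have h1 : (fun ω => (∑ k ∈ range K, D P X h R G s₀ k ω) ^ 2) =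
      fun ω => ∑ j ∈ range K, ∑ k ∈ range K, D P X h R G s₀ j ω * D P X h R G s₀ k ω := by
    funext ω
    rw [sq, Finset.sum_mul_sum]
  rw [h1]
  refine ⟨integrable_finsetSum _ fun j _ => integrable_finsetSum _ fun k _ =>
    DD_int hZT hGEN hM hR s₀ j k, ?_⟩
  rw [integral_finsetSum _ fun j _ => integrable_finsetSum _ fun k _ => DD_int hZT hGEN hM hR s₀ j k]
  have h2 : ∀ j ∈ range K, ∫ ω, ∑ k ∈ range K, D P X h R G s₀ j ω * D P X h R G s₀ k ω ∂P ≤ 1 := by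
    intro j hj
    rw [integral_finsetSum _ fun k _ => DD_int hZT hGEN hM hR s₀ j k, Finset.sum_eq_single j]
    · have h3 : ∫ ω, D P X h R G s₀ j ω * D P X h R G s₀ j ω ∂P ≤ ∫ ω, (1 : ℝ) ∂P := by
        refine integral_mono (DD_int hZT hGEN hM hR s₀ j j) (integrable_const _) fun ω => ?_
        have h4 := D_abs (h := h) (R := R) (G := G) hM s₀ j ω
        simp only
        nlinarith [abs_nonneg (D P X h R G s₀ j ω), abs_mul_abs_self (D P X h R G s₀ j ω)]
      simpa using h3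
    · intro k _ hk
      rcases lt_or_gt_of_ne hk with h5 | h5
      · have h6 := cross (G := G) (h := h) hZT hGEN hM hR s₀ k j h5
        rw [← h6]
        exact integral_congr_ae (ae_of_all _ fun ω => mul_comm _ _)
      · exact cross (G := G) (h := h) hZT hGEN hM hR s₀ j k h5
    · intro h7
      exact absurd hj h7
  calc _ ≤ ∑ j ∈ range K, (1 : ℝ) := Finset.sum_le_sum h2
    _ = K := by simp

/-- convergence along the squares -/
lemma squares (hZT : P_ZT) (hGEN : P_GEN) (hM : Model M P X) (hR : ∀ s, 0 < R s) (s₀ : ℕ) :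
    ∀ᵐ ω ∂P, Tendsto (fun i : ℕ => (∑ k ∈ range ((i + 1) ^ 2), D P X h R G s₀ k ω) / ((i : ℝ) + 1) ^ 2)
      atTop (𝓝 0) := by
  have := hM.prob
  set F : ℕ → Ω → ℝ≥0∞ := fun i ω =>
    ENNReal.ofReal (((∑ k ∈ range ((i + 1) ^ 2), D P X h R G s₀ k ω) / ((i : ℝ) + 1) ^ 2) ^ 2) with hF
  have hDm := fun k => D_meas (G := G) (h := h) hZT hGEN hM hR s₀ k
  have hFm : ∀ i, Measurable (F i) := by
    intro i
    have h1 : Measurable fun ω => ∑ k ∈ range ((i + 1) ^ 2), D P X h R G s₀ k ω :=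
      Finset.measurable_fun_sum _ fun k _ => hDm k
    exact ((h1.div_const _).pow_const 2).ennreal_ofReal
  have hFi : ∀ i : ℕ, ∫⁻ ω, F i ω ∂P ≤ ENNReal.ofReal (1 / ((i : ℝ) + 1) ^ 2) := by
    intro i
    obtain ⟨h1, h2⟩ := second (G := G) (h := h) hZT hGEN hM hR s₀ ((i + 1) ^ 2)
    have h3 : ∀ ω, ((∑ k ∈ range ((i + 1) ^ 2), D P X h R G s₀ k ω) / ((i : ℝ) + 1) ^ 2) ^ 2 =
        (1 / ((i : ℝ) + 1) ^ 4) * (∑ k ∈ range ((i + 1) ^ 2), D P X h R G s₀ k ω) ^ 2 := by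
      intro ω
      field_simp
    rw [hF]
    simp only
    rw [← ofReal_integral_eq_lintegral_ofReal]
    · refine ENNReal.ofReal_le_ofReal ?_
      rw [integral_congr_ae (ae_of_all _ h3), integral_const_mul]
      calc 1 / ((i : ℝ) + 1) ^ 4 * ∫ ω, (∑ k ∈ range ((i + 1) ^ 2), D P X h R G s₀ k ω) ^ 2 ∂P
          ≤ 1 / ((i : ℝ) + 1) ^ 4 * (((i + 1) ^ 2 : ℕ) : ℝ) := mul_le_mul_of_nonneg_left h2 (by positivity)
        _ = 1 / ((i : ℝ) + 1) ^ 2 := by
            push_cast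
            field_simp
    · refine (h1.const_mul (1 / ((i : ℝ) + 1) ^ 4)).congr (ae_of_all _ fun ω => (h3 ω).symm)
    · exact ae_of_all _ fun ω => sq_nonneg _
  have hsum : ∫⁻ ω, ∑' i, F i ω ∂P ≠ ∞ := by
    rw [lintegral_tsum fun i => (hFm i).aemeasurable]
    refine ne_top_of_le_ne_top ?_ (ENNReal.tsum_le_tsum hFi)
    have h4 : Summable fun i : ℕ => 1 / ((i : ℝ) + 1) ^ 2 := by
      have := (summable_nat_add_iff 1).2 (Real.summable_one_div_nat_pow.2 (by norm_num : 1 < 2))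
      simpa using this
    rw [← ENNReal.ofReal_tsum_of_nonneg (fun i => by positivity) h4]
    exact ENNReal.ofReal_ne_top
  have hae : ∀ᵐ ω ∂P, ∑' i, F i ω < ∞ := ae_lt_top (Measurable.ennreal_tsum hFm) hsum
  filter_upwards [hae] with ω hω
  have h5 : Tendsto (fun i => F i ω) atTop (𝓝 0) := ENNReal.tendsto_atTop_zero_of_tsum_ne_top hω.ne
  have h6 : Tendsto (fun i : ℕ => ((∑ k ∈ range ((i + 1) ^ 2), D P X h R G s₀ k ω) / ((i : ℝ) + 1) ^ 2) ^ 2)
      atTop (𝓝 0) := by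
    have h7 := (ENNReal.tendsto_toReal ENNReal.zero_ne_top).comp h5
    rw [ENNReal.toReal_zero] at h7
    refine h7.congr fun i => ?_
    simp only [hF, Function.comp]
    rw [ENNReal.toReal_ofReal (sq_nonneg _)]
  have h8 := h6.sqrt
  rw [Real.sqrt_zero] at h8
  rw [tendsto_zero_iff_abs_tendsto_zero]
  refine h8.congr fun i => ?_
  rw [Real.sqrt_sq_eq_abs]
  rfl

/-- interpolation between the squares -/
lemma interp (D : ℕ → ℝ) (hD : ∀ k, |D k| ≤ 1)
    (h : Tendsto (fun i : ℕ => (∑ k ∈ range ((i + 1) ^ 2), D k) / ((i : ℝ) + 1) ^ 2) atTop (𝓝 0)) :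
    Tendsto (fun K : ℕ => (∑ k ∈ range K, D k) / K) atTop (𝓝 0) := by
  have h0 : Tendsto (fun i : ℕ => (∑ k ∈ range (i ^ 2), D k) / (i : ℝ) ^ 2) atTop (𝓝 0) := by
    rw [← tendsto_add_atTop_iff_nat 1]
    refine h.congr fun i => ?_
    push_cast
    rfl
  have hs : Tendsto Nat.sqrt atTop atTop := by
    rw [tendsto_atTop_atTop]
    intro b
    exact ⟨b * b, fun a ha => Nat.le_sqrt.2 ha⟩
  have h1 := h0.comp hs
  have h2 : Tendsto (fun K : ℕ => |(∑ k ∈ range ((Nat.sqrt K) ^ 2), D k) / ((Nat.sqrt K : ℕ) : ℝ) ^ 2| +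
      2 / ((Nat.sqrt K : ℕ) : ℝ)) atTop (𝓝 0) := by
    have h3 : Tendsto (fun K : ℕ => 2 / ((Nat.sqrt K : ℕ) : ℝ)) atTop (𝓝 0) :=
      (tendsto_const_div_atTop_nhds_zero_nat 2).comp hs
    have h4 := h1.abs.add h3
    simpa using h4
  refine squeeze_zero_norm' ?_ h2
  filter_upwards [eventually_ge_atTop 1] with K hK
  set i := Nat.sqrt K with hi
  have hi1 : 1 ≤ i := Nat.le_sqrt.2 (by omega)
  have hiK : i ^ 2 ≤ K := Nat.sqrt_le' K
  have hKi : K ≤ i ^ 2 + 2 * i := by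
    have := Nat.sqrt_le_add K
    rw [← hi] at this
    nlinarith
  have hi0 : (0 : ℝ) < i := by exact_mod_cast hi1
  have hK0 : (0 : ℝ) < K := by exact_mod_cast hK
  have hiK' : (i : ℝ) ^ 2 ≤ K := by exact_mod_cast hiK
  have hKi' : (K : ℝ) ≤ i ^ 2 + 2 * i := by exact_mod_cast hKi
  have h5 : ∑ k ∈ range K, D k = ∑ k ∈ range (i ^ 2), D k + ∑ k ∈ Ico (i ^ 2) K, D k :=
    (Finset.sum_range_add_sum_Ico _ hiK).symm
  have h6 : |∑ k ∈ Ico (i ^ 2) K, D k| ≤ 2 * i := by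
    calc |∑ k ∈ Ico (i ^ 2) K, D k| ≤ ∑ k ∈ Ico (i ^ 2) K, |D k| := Finset.abs_sum_le_sum_abs _ _
      _ ≤ ∑ k ∈ Ico (i ^ 2) K, (1 : ℝ) := Finset.sum_le_sum fun k _ => hD k
      _ = ((K - i ^ 2 : ℕ) : ℝ) := by simp
      _ ≤ 2 * i := by
          rw [Nat.cast_sub hiK]
          push_cast
          linarith
  rw [Real.norm_eq_abs, h5, add_div]
  refine (abs_add_le _ _).trans (add_le_add ?_ ?_)
  · rw [abs_div, abs_div, abs_of_pos hK0, abs_of_pos (by positivity : (0 : ℝ) < (i : ℝ) ^ 2)]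
    exact div_le_div_of_nonneg_left (abs_nonneg _) (by positivity) hiK'
  · rw [abs_div, abs_of_pos hK0, div_le_div_iff₀ hK0 hi0]
    nlinarith

end

end Pool.Agent.T2H19.GR.PkgLLN

namespace Pool.Agent.T2H19.GR

open MeasureTheory ProbabilityTheory Finset Filter Topology PkgGL2 PkgLLN
open scoped ENNReal

theorem T_LLN (hZT : P_ZT) (hGEN : P_GEN) : P_LLN := by
  intro Ω _ M P X hM h R G φ hR hφ s₀
  have := hM.prob
  filter_upwards [squares (G := G) (h := h) hZT hGEN hM hR s₀] with ω hω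
  have h1 := interp (fun k => D P X h R G s₀ k ω) (fun k => D_abs hM s₀ k ω) hω
  have hc : Tendsto (fun k => cc X h R s₀ k ω) atTop atTop :=
    (ch_strictMono (h := h) hZT hR (xx X ω) s₀).tendsto_atTop
  have h2 : Tendsto (fun k => ph P X h R G (cc X h R s₀ k ω)) atTop (𝓝 φ) := hφ.comp hc
  have h3 := h2.cesaro
  have h4 := h1.add h3
  rw [zero_add] at h4
  refine h4.congr fun K => ?_
  classical
  have h5 : ((((range K).filter (fun k =>
      G (ch h R (fun s b => X s b ω) s₀ (k + 1))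
        (X (ch h R (fun s b => X s b ω) s₀ k) (ch h R (fun s b => X s b ω) s₀ (k + 1)) ω))).card : ℕ) : ℝ) =
      ∑ k ∈ range K, z X h R G (cc X h R s₀ k ω) ω := by
    rw [Finset.card_filter]
    push_cast
    refine Finset.sum_congr rfl fun k _ => ?_
    unfold z
    rfl
  have h6 : ∑ k ∈ range K, D P X h R G s₀ k ω =
      ∑ k ∈ range K, z X h R G (cc X h R s₀ k ω) ω - ∑ k ∈ range K, ph P X h R G (cc X h R s₀ k ω) := by
    rw [← Finset.sum_sub_distrib]
    rfl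
  rw [h6]
  have h7 : ∑ k ∈ range K, z X h R G (cc X h R s₀ k ω) ω = _ := h5.symm
  rw [h7]
  simp only [div_eq_mul_inv]
  ring

end Pool.Agent.T2H19.GR
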