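import Pool.Agent.Helper601.Mertens

/-! Package MAP (helper13), first part: the second theorem of Mertens in windows. -/

set_option autoImplicit false
set_option maxHeartbeats 4000000

open Finset Filter Topology

namespace Pool.Agent.T2H19.GR
namespace PkgMAP

/-- one step of the summation by parts -/
theorem step {a b R R' C : ℝ} (ha : 1 ≤ a) (hab : a ≤ b) (hb : b - a ≤ 1) (hR : |R| ≤ C) :
    |(b - a + R' - R) / b - (Real.log b - Real.log a) - R' / b + R / a| ≤
      (C + 1) * (1 / a - 1 / b) := by
  have ha0 : 0 < a := by linarith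
  have hb0 : 0 < b := by linarith
  have h1 : 1 / b ≤ 1 / a := one_div_le_one_div_of_le ha0 hab
  have h2 : (b - a) / b ≤ Real.log b - Real.log a := by
    have := Real.one_sub_inv_le_log_of_pos (x := b / a) (by positivity)
    rw [Real.log_div hb0.ne' ha0.ne', inv_div] at this
    have e : (b - a) / b = 1 - a / b := by field_simp
    rw [e]
    exact this
  have h3 : Real.log b - Real.log a ≤ (b - a) / a := by
    have := Real.log_le_sub_one_of_pos (show 0 < b / a by positivity)
    rw [Real.log_div hb0.ne' ha0.ne'] at this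
    have e : (b - a) / a = b / a - 1 := by field_simp
    rw [e]
    exact this
  have h4 : (b - a) / a - (b - a) / b ≤ 1 / a - 1 / b := by
    have e : (b - a) / a - (b - a) / b = (b - a) * (1 / a - 1 / b) := by ring
    rw [e]
    exact mul_le_of_le_one_left (by linarith) hb
  have h5 : |R * (1 / a - 1 / b)| ≤ C * (1 / a - 1 / b) := by
    rw [abs_mul, abs_of_nonneg (show 0 ≤ 1 / a - 1 / b by linarith)]
    exact mul_le_mul_of_nonneg_right hR (by linarith)
  have e : (b - a + R' - R) / b - (Real.log b - Real.log a) - R' / b + R / a =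
      ((b - a) / b - (Real.log b - Real.log a)) + R * (1 / a - 1 / b) := by ring
  rw [e]
  have h6 : |(b - a) / b - (Real.log b - Real.log a)| ≤ 1 / a - 1 / b := by
    rw [abs_le]
    constructor <;> linarith
  have h7 := abs_add_le ((b - a) / b - (Real.log b - Real.log a)) (R * (1 / a - 1 / b))
  linarith

theorem filt_succ (p : ℕ → Prop) [DecidablePred p] (f : ℕ → ℝ) (n : ℕ) :
    ∑ q ∈ (Icc 1 (n + 1)).filter p, f q = ∑ q ∈ (Icc 1 n).filter p, f q +
      if p (n + 1) then f (n + 1) else 0 := by
  rw [sum_filter, sum_filter, sum_Icc_succ_top (by omega)]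

theorem log3 : 1 ≤ Real.log (3 : ℝ) := by
  rw [Real.le_log_iff_exp_le (by norm_num)]
  exact Real.exp_one_lt_d9.le.trans (by norm_num)

/-- the second theorem of Mertens in windows -/
theorem mertens_window : ∃ C : ℝ, 0 ≤ C ∧ ∀ M : ℕ, 3 ≤ M → ∀ N : ℕ, M ≤ N →
    |∑ l ∈ (Icc 1 N).filter Nat.Prime, (1 : ℝ) / l - ∑ l ∈ (Icc 1 M).filter Nat.Prime, (1 : ℝ) / l -
      (Real.log (Real.log N) - Real.log (Real.log M))| ≤ C / Real.log M := by
  obtain ⟨C, hC⟩ := Pool.Agent.Helper601.Mertens.mertens_log
  have hC0 : 0 ≤ C := (abs_nonneg _).trans (hC 1 le_rfl)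
  obtain ⟨R, hR⟩ : ∃ R : ℕ → ℝ, R = fun n => ∑ p ∈ (Icc 1 n).filter Nat.Prime, Real.log p / p -
    Real.log n := ⟨_, rfl⟩
  obtain ⟨P, hP⟩ : ∃ P : ℕ → ℝ, P = fun n => ∑ p ∈ (Icc 1 n).filter Nat.Prime, (1 : ℝ) / p :=
    ⟨_, rfl⟩
  have hRC : ∀ n, 1 ≤ n → |R n| ≤ C := fun n hn => by rw [hR]; exact hC n hn
  refine ⟨3 * C + 1, by positivity, fun M hM N hN => ?_⟩
  have hlog : ∀ n : ℕ, 3 ≤ n → 1 ≤ Real.log n := fun n hn => log3.trans
    (Real.log_le_log (by norm_num) (by exact_mod_cast hn))
  have key : ∀ N : ℕ, M ≤ N → |P N - P M - (Real.log (Real.log N) - Real.log (Real.log M)) -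
      R N / Real.log N + R M / Real.log M| ≤ (C + 1) * (1 / Real.log M - 1 / Real.log N) := by
    intro N hN
    induction N, hN using Nat.le_induction with
    | base => simp
    | succ N hN ih =>
      have hN3 : 3 ≤ N := hM.trans hN
      have hN0 : (0 : ℝ) < N := by exact_mod_cast (by omega : 0 < N)
      have ha := hlog N hN3
      have hab : Real.log N ≤ Real.log ((N + 1 : ℕ) : ℝ) :=
        Real.log_le_log hN0 (by push_cast; linarith)
      have hb0 : 0 < Real.log ((N + 1 : ℕ) : ℝ) := by linarith
      have hb : Real.log ((N + 1 : ℕ) : ℝ) - Real.log N ≤ 1 := by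
        have := Real.log_le_sub_one_of_pos (show 0 < ((N + 1 : ℕ) : ℝ) / N by positivity)
        rw [Real.log_div (by positivity) hN0.ne'] at this
        refine this.trans ?_
        rw [sub_le_iff_le_add, div_le_iff₀ hN0]
        push_cast
        have : (3 : ℝ) ≤ N := by exact_mod_cast hN3
        linarith
      have hs := step (R' := R (N + 1)) ha hab hb (hRC N (by omega))
      have f1 := filt_succ Nat.Prime (fun p => Real.log p / p) N
      have f2 := filt_succ Nat.Prime (fun p => (1 : ℝ) / p) N
      have hA : R (N + 1) - R N + (Real.log ((N + 1 : ℕ) : ℝ) - Real.log N) =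
          if (N + 1).Prime then Real.log ((N + 1 : ℕ) : ℝ) / ((N + 1 : ℕ) : ℝ) else 0 := by
        rw [hR]
        simp only
        rw [f1]
        ring
      have hB : P (N + 1) = P N + if (N + 1).Prime then (1 : ℝ) / ((N + 1 : ℕ) : ℝ) else 0 := by
        rw [hP]
        simp only
        rw [f2]
      have hD : (Real.log ((N + 1 : ℕ) : ℝ) - Real.log N + R (N + 1) - R N) /
          Real.log ((N + 1 : ℕ) : ℝ) = P (N + 1) - P N := by
        rw [hB, show Real.log ((N + 1 : ℕ) : ℝ) - Real.log N + R (N + 1) - R N =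
          R (N + 1) - R N + (Real.log ((N + 1 : ℕ) : ℝ) - Real.log N) by ring, hA]
        have hN1 : (0 : ℝ) < ((N + 1 : ℕ) : ℝ) := by positivity
        split_ifs
        · field_simp
          ring
        · simp
      rw [hD] at hs
      have e : P (N + 1) - P M - (Real.log (Real.log ((N + 1 : ℕ) : ℝ)) -
          Real.log (Real.log M)) - R (N + 1) / Real.log ((N + 1 : ℕ) : ℝ) + R M / Real.log M =
          (P N - P M - (Real.log (Real.log N) - Real.log (Real.log M)) -
            R N / Real.log N + R M / Real.log M) +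
          (P (N + 1) - P N - (Real.log (Real.log ((N + 1 : ℕ) : ℝ)) - Real.log (Real.log N)) -
            R (N + 1) / Real.log ((N + 1 : ℕ) : ℝ) + R N / Real.log N) := by ring
      rw [e]
      refine (abs_add_le _ _).trans ?_
      have e2 : (C + 1) * (1 / Real.log M - 1 / Real.log ((N + 1 : ℕ) : ℝ)) =
          (C + 1) * (1 / Real.log M - 1 / Real.log N) +
            (C + 1) * (1 / Real.log N - 1 / Real.log ((N + 1 : ℕ) : ℝ)) := by ring
      rw [e2]
      exact add_le_add ih hs
  have h := key N hN
  have hlM := hlog M hM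
  have hlN := hlog N (hM.trans hN)
  have hM0 : (0 : ℝ) < M := by exact_mod_cast (by omega : 0 < M)
  have hMN : Real.log M ≤ Real.log N := Real.log_le_log hM0 (by exact_mod_cast hN)
  have h1 : |R N / Real.log N| ≤ C / Real.log M := by
    rw [abs_div, abs_of_pos (by linarith : 0 < Real.log N)]
    exact div_le_div₀ hC0 (hRC N (by omega)) (by linarith) hMN
  have h2 : |R M / Real.log M| ≤ C / Real.log M := by
    rw [abs_div, abs_of_pos (by linarith : 0 < Real.log M)]
    exact div_le_div_of_nonneg_right (hRC M (by omega)) (by linarith)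
  have h3 : (C + 1) * (1 / Real.log M - 1 / Real.log N) ≤ (C + 1) * (1 / Real.log M) := by
    refine mul_le_mul_of_nonneg_left ?_ (by linarith)
    have : 0 ≤ 1 / Real.log N := by
      have : 0 < Real.log N := by linarith
      positivity
    linarith
  have e3 : (3 * C + 1) / Real.log M = (C + 1) * (1 / Real.log M) + C / Real.log M +
      C / Real.log M := by
    field_simp
    ring
  rw [hP] at h
  simp only at h
  rw [e3]
  rw [abs_le] at h h1 h2 ⊢
  constructor <;> linarith [h.1, h.2, h1.1, h1.2, h2.1, h2.2]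

end PkgMAP
end Pool.Agent.T2H19.GR
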