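import Pool.Agent.T2H19.GR.Stm2
import Pool.Agent.T2H19.GR.MapAux
import Pool.Agent.Y669.Mer

/-! Package MAP (helper13): Mertens' theorem for the primes `1 (mod p)` in windows. -/

set_option autoImplicit false
set_option maxHeartbeats 4000000

open Finset Filter Topology

namespace Pool.Agent.T2H19.GR
open PkgMAP

theorem T_MAP : P_MAP := by
  intro p hp ε hε
  obtain ⟨x0, hx0⟩ := Pool.Agent.H387R2.Uni.siegel
  obtain ⟨C, hC0, hC⟩ := mertens_window
  have hp2 : (2 : ℝ) ≤ p := by exact_mod_cast hp.two_le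
  obtain ⟨δ, hδ⟩ : ∃ δ : ℝ, δ = 1 / ((p : ℝ) - 1) := ⟨_, rfl⟩
  have hδ0 : 0 ≤ δ := by rw [hδ]; exact div_nonneg zero_le_one (by linarith)
  have hlogx : Tendsto (fun x : ℕ => Real.log (x:ℝ)) atTop atTop :=
    Real.tendsto_log_atTop.comp tendsto_natCast_atTop_atTop
  obtain ⟨x1, hx1⟩ := eventually_atTop.1 (hlogx.eventually_ge_atTop (p : ℝ))
  have hcop : Nat.Coprime 1 p := Nat.coprime_one_left p
  have htot : (Nat.totient p : ℝ) = (p : ℝ) - 1 := by
    rw [Nat.totient_prime hp, Nat.cast_sub hp.one_lt.le, Nat.cast_one]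
  obtain ⟨S, hS⟩ : ∃ S : ℕ → ℝ, S = fun x => ∑ l ∈ (Icc 1 x).filter
    (fun l => l.Prime ∧ l ≡ 1 [MOD p]), (1 : ℝ) / l := ⟨_, rfl⟩
  obtain ⟨P, hP⟩ : ∃ P : ℕ → ℝ, P = fun x => ∑ l ∈ (Icc 1 x).filter Nat.Prime, (1 : ℝ) / l :=
    ⟨_, rfl⟩
  obtain ⟨D, hD⟩ : ∃ D : ℕ → ℝ, D = fun x => H343E.piAP x p 1 - δ * H343E.pi1 x := ⟨_, rfl⟩
  obtain ⟨T, hT⟩ : ∃ T : ℕ → ℝ, T = fun x => S x - δ * P x := ⟨_, rfl⟩
  have hAP : ∀ x : ℕ, H343E.piAP x p 1 =
      ∑ l ∈ (Icc 1 x).filter (fun l => l.Prime ∧ l ≡ 1 [MOD p]), (1 : ℝ) := by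
    intro x
    rw [sum_const, nsmul_eq_mul, mul_one]
    rfl
  have hpi : ∀ x : ℕ, H343E.pi1 x = ∑ l ∈ (Icc 1 x).filter Nat.Prime, (1 : ℝ) := by
    intro x
    rw [sum_const, nsmul_eq_mul, mul_one]
    rfl
  have hTs : ∀ n, T (n + 1) = T n + (D (n + 1) - D n) / ((n + 1 : ℕ) : ℝ) := by
    intro n
    have f1 := filt_succ (fun l => l.Prime ∧ l ≡ 1 [MOD p]) (fun l => (1 : ℝ) / l) n
    have f2 := filt_succ Nat.Prime (fun l => (1 : ℝ) / l) n
    have f3 := filt_succ (fun l => l.Prime ∧ l ≡ 1 [MOD p]) (fun _ => (1 : ℝ)) n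
    have f4 := filt_succ Nat.Prime (fun _ => (1 : ℝ)) n
    rw [hT, hD]
    simp only
    rw [hS, hP]
    simp only
    rw [f1, f2, hAP, hAP, hpi, hpi, f3, f4]
    have h0 : ((n + 1 : ℕ) : ℝ) ≠ 0 := by positivity
    by_cases h1 : (n + 1).Prime <;> by_cases h2 : (n + 1) ≡ 1 [MOD p] <;>
      simp only [h1, h2, and_self, and_true, and_false, if_true, if_false] <;> field_simp <;> ring
  -- the bound for `D`
  have hDb : ∀ n : ℕ, max (max x0 x1) 3 ≤ n → |D n| ≤ n / Real.log n ^ 6 := by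
    intro n hn
    have h1 := hx1 n ((le_max_right _ _).trans ((le_max_left _ _).trans hn))
    have h2 := hx0 n ((le_max_left _ _).trans ((le_max_left _ _).trans hn)) p hp.one_lt.le
      (by nlinarith) 1 hp.one_lt hcop
    rw [hD, hδ]
    simp only
    rw [htot] at h2
    rw [one_div_mul_eq_div]
    exact h2
  -- the final estimate
  have hev : ∀ᶠ x : ℕ in atTop, (4 + δ * C) / Real.log x ≤ ε := by
    filter_upwards [hlogx.eventually_ge_atTop ((4 + δ * C) / ε), hlogx.eventually_gt_atTop 0]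
      with x h1 h2
    rw [div_le_iff₀ hε] at h1
    rw [div_le_iff₀ h2]
    linarith
  filter_upwards [eventually_ge_atTop (max (max x0 x1) 3), hev] with x hx hxε y hxy
  have hx3 : 3 ≤ x := (le_max_right _ _).trans hx
  have hlx : 1 ≤ Real.log x := log3.trans (Real.log_le_log (by norm_num) (by exact_mod_cast hx3))
  have hly : 1 ≤ Real.log y := log3.trans
    (Real.log_le_log (by norm_num) (by exact_mod_cast hx3.trans hxy))
  have h1 := Pool.Agent.Y669.mabel' T D hTs x hx3 hlx (fun n hn => hDb n (hx.trans hn)) y hxy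
  have h2 := hC x hx3 y hxy
  have h3 : ∑ l ∈ (Ioc x y).filter (fun l => l.Prime ∧ l ≡ 1 [MOD p]), (1 : ℝ) / l = S y - S x := by
    rw [hS]
    simp only
    have e1 : (Icc 1 y).filter (fun l => l.Prime ∧ l ≡ 1 [MOD p]) =
        (Icc 1 x).filter (fun l => l.Prime ∧ l ≡ 1 [MOD p]) ∪
          (Ioc x y).filter (fun l => l.Prime ∧ l ≡ 1 [MOD p]) := by
      rw [← filter_union]
      congr 1
      ext z
      simp only [mem_union, mem_Icc, mem_Ioc]
      omega
    have e2 : Disjoint ((Icc 1 x).filter (fun l => l.Prime ∧ l ≡ 1 [MOD p]))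
        ((Ioc x y).filter (fun l => l.Prime ∧ l ≡ 1 [MOD p])) := by
      rw [disjoint_left]
      intro z hz hz'
      have g1 := (mem_Icc.1 (mem_filter.1 hz).1).2
      have g2 := (mem_Ioc.1 (mem_filter.1 hz').1).1
      omega
    rw [e1, sum_union e2]
    ring
  have h4 : P y - P x = ∑ l ∈ (Icc 1 y).filter Nat.Prime, (1 : ℝ) / l -
      ∑ l ∈ (Icc 1 x).filter Nat.Prime, (1 : ℝ) / l := by rw [hP]
  rw [← h4] at h2
  rw [h3, ← hδ, Real.log_div (by linarith) (by linarith)]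
  have e : S y - S x - δ * (Real.log (Real.log y) - Real.log (Real.log x)) =
      (T y - T x) + δ * (P y - P x - (Real.log (Real.log y) - Real.log (Real.log x))) := by
    rw [hT]
    ring
  rw [e]
  have h5 : |δ * (P y - P x - (Real.log (Real.log y) - Real.log (Real.log x)))| ≤
      δ * (C / Real.log x) := by
    rw [abs_mul, abs_of_nonneg hδ0]
    exact mul_le_mul_of_nonneg_left h2 hδ0
  have h6 := abs_add_le (T y - T x)
    (δ * (P y - P x - (Real.log (Real.log y) - Real.log (Real.log x))))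
  have h7 : (4 + δ * C) / Real.log x = 4 / Real.log x + δ * (C / Real.log x) := by ring
  rw [h7] at hxε
  linarith

end Pool.Agent.T2H19.GR
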