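import Pool.Agent.T2H19.GR.Stm

/-! # Package MOD: the model exists -/

set_option autoImplicit false

namespace Pool.Agent.T2H19.GR

open MeasureTheory ProbabilityTheory Finset Filter Topology

theorem T_MOD : P_MOD := by
  intro M hM
  haveI : ∀ i : ℕ × ℕ, Nonempty (Fin (M i.2)) := fun i => ⟨⟨0, hM i.2⟩⟩
  let μ : (i : ℕ × ℕ) → Measure (Fin (M i.2)) := fun i => (PMF.uniformOfFintype (Fin (M i.2))).toMeasure
  haveI hμ : ∀ i, IsProbabilityMeasure (μ i) := fun i => PMF.toMeasure.isProbabilityMeasure _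
  refine ⟨(i : ℕ × ℕ) → Fin (M i.2), inferInstance, Measure.infinitePi μ, fun s b ω => (ω (s, b) : ℕ), ?_⟩
  refine ⟨inferInstance, fun s b => ?_, ?_, fun s b ω => (ω (s, b)).isLt, ?_⟩
  · exact (measurable_of_finite (fun x : Fin (M b) => (x : ℕ))).comp (measurable_pi_apply (s, b))
  · exact iIndepFun_infinitePi (P := μ) (X := fun (i : ℕ × ℕ) (x : Fin (M i.2)) => (x : ℕ))
      (fun i => measurable_of_finite _)
  · intro s b k hk
    have : Nonempty (Fin (M b)) := ⟨⟨0, hM b⟩⟩
    have e1 : {ω : (i : ℕ × ℕ) → Fin (M i.2) | (ω (s, b) : ℕ) = k} =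
        (fun ω => ω (s, b)) ⁻¹' {(⟨k, hk⟩ : Fin (M b))} := by
      ext ω
      simp only [Set.mem_setOf_eq, Set.mem_preimage, Set.mem_singleton_iff, Fin.ext_iff]
    rw [e1, ← Measure.map_apply (measurable_pi_apply (s, b)) (measurableSet_singleton _),
      Measure.infinitePi_map_eval μ (s, b)]
    show (PMF.uniformOfFintype (Fin (M b))).toMeasure {(⟨k, hk⟩ : Fin (M b))} = _
    rw [PMF.toMeasure_apply_singleton _ _ (measurableSet_singleton _), PMF.uniformOfFintype_apply, Fintype.card_fin]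

end Pool.Agent.T2H19.GR
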