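import Pool.Agent.T2H19.GR.Stm

/-! # Package NT: the dangerous values are rare compared with the free ones -/

set_option autoImplicit false

namespace Pool.Agent.T2H19.GR

open MeasureTheory ProbabilityTheory Finset Filter Topology

namespace PkgNT

lemma un_or (M : ℕ) (Q R : ℕ → Prop) : un M (fun y => Q y ∨ R y) ≤ un M Q + un M R := by
  classical
  unfold un
  rw [← add_div]
  gcongr
  have h : (range M).filter (fun y => Q y ∨ R y) = (range M).filter Q ∪ (range M).filter R :=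
    Finset.filter_or _ _ _
  rw [← Nat.cast_add]
  refine Nat.cast_le.2 ?_
  refine le_trans (le_of_eq ?_) (Finset.card_union_le _ _)
  congr 1
  ext y
  simp only [Finset.mem_filter, Finset.mem_union]
  tauto

lemma un_nonneg (M : ℕ) (Q : ℕ → Prop) : 0 ≤ un M Q := by
  unfold un
  positivity

lemma E1 (C : ℝ) : ∀ᶠ x : ℝ in atTop, C * Real.log x / x ≤ x ^ (-(1 / 2) : ℝ) / 3 := by
  have h1 := isLittleO_log_rpow_atTop (r := 1 / 2) (by norm_num)
  have h2 := h1.bound (c := 1 / (3 * (|C| + 1))) (by positivity)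
  filter_upwards [h2, eventually_ge_atTop (1 : ℝ)] with x hx hx1
  have hx0 : 0 < x := by linarith
  have hl : 0 ≤ Real.log x := Real.log_nonneg hx1
  rw [Real.norm_of_nonneg hl, Real.norm_of_nonneg (Real.rpow_nonneg hx0.le _)] at hx
  have h3 : C * Real.log x ≤ x ^ (1 / 2 : ℝ) / 3 := by
    calc C * Real.log x ≤ (|C| + 1) * Real.log x := by
          gcongr
          linarith [le_abs_self C]
      _ ≤ (|C| + 1) * (1 / (3 * (|C| + 1)) * x ^ (1 / 2 : ℝ)) := by gcongr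
      _ = x ^ (1 / 2 : ℝ) / 3 := by
          field_simp
  have h4 : x ^ (-(1 / 2) : ℝ) = x ^ (1 / 2 : ℝ) / x := by
    rw [eq_div_iff hx0.ne']
    nth_rw 2 [← Real.rpow_one x]
    rw [← Real.rpow_add hx0]
    norm_num
  rw [h4]
  calc C * Real.log x / x ≤ (x ^ (1 / 2 : ℝ) / 3) / x := by gcongr
    _ = _ := by ring

lemma sqrt_ge {x : ℝ} (hx : 1 ≤ x) : 1 / x ≤ x ^ (-(1 / 2) : ℝ) := by
  rw [one_div, ← Real.rpow_neg_one]
  exact Real.rpow_le_rpow_of_exponent_le hx (by norm_num)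

lemma E2 (c : ℝ) (hc : 0 < c) (D : ℕ) : ∀ᶠ x : ℝ in atTop,
    Real.exp (-(x / 8)) ≤ x ^ (-(1 / 2) : ℝ) / 3 * (c / (2 * x) ^ D) := by
  have h1 : Tendsto (fun x : ℝ => (x / 8) ^ (D + 1) * Real.exp (-(x / 8))) atTop (𝓝 0) :=
    (Real.tendsto_pow_mul_exp_neg_atTop_nhds_zero (D + 1)).comp
      (tendsto_id.atTop_div_const (by norm_num))
  have h2 : (0 : ℝ) < c / (3 * 2 ^ D * 8 ^ (D + 1)) := by positivity
  filter_upwards [h1.eventually (gt_mem_nhds h2), eventually_ge_atTop (1 : ℝ)] with x hx hx1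
  have hx0 : 0 < x := by linarith
  have h3 := sqrt_ge hx1
  have h4 : Real.exp (-(x / 8)) ≤ 1 / x / 3 * (c / (2 * x) ^ D) := by
    have h5 : 1 / x / 3 * (c / (2 * x) ^ D) =
        (c / (3 * 2 ^ D * 8 ^ (D + 1))) / ((x / 8) ^ (D + 1)) := by
      rw [div_pow, mul_pow]
      field_simp
      ring
    rw [h5, le_div_iff₀ (by positivity), mul_comm]
    exact hx.le
  exact h4.trans (by gcongr)

lemma E3 (c : ℝ) (hc : 0 < c) (D : ℕ) : ∀ᶠ x : ℝ in atTop,
    4 / x ^ (D + 2) ≤ x ^ (-(1 / 2) : ℝ) / 3 * (c / (2 * x) ^ D) := by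
  filter_upwards [eventually_ge_atTop (1 : ℝ), eventually_ge_atTop (12 * 2 ^ D / c)] with x hx1 hx
  have hx0 : 0 < x := by linarith
  have h3 := sqrt_ge hx1
  have h4 : 4 / x ^ (D + 2) ≤ 1 / x / 3 * (c / (2 * x) ^ D) := by
    have h5 : 1 / x / 3 * (c / (2 * x) ^ D) = (c * x / (3 * 2 ^ D)) / x ^ (D + 2) := by
      rw [mul_pow]
      field_simp
      ring
    rw [h5]
    gcongr
    rw [le_div_iff₀ (by positivity)]
    rw [div_le_iff₀ hc] at hx
    linarith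
  exact h4.trans (by gcongr)

end PkgNT

open PkgNT in
theorem T_NT (hFREE : P_FREE) (hDA1 : P_DA1) (hDA2 : P_DA2) : P_NT := by
  intro h D hA hD
  obtain ⟨c, hc, hF⟩ := hFREE h D hA hD
  obtain ⟨C, h1⟩ := hDA1 h D hA hD
  have h2 := hDA2 h D hA
  have hlog : Tendsto (fun A : ℕ => Real.log (A : ℝ)) atTop atTop :=
    Real.tendsto_log_atTop.comp tendsto_natCast_atTop_atTop
  filter_upwards [h1, h2, hlog.eventually (E1 C), hlog.eventually (E2 c hc D),
    hlog.eventually (E3 c hc D), hlog.eventually (eventually_ge_atTop 1), eventually_ge_atTop 4]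
    with A g1 g2 e1 e2 e3 hx1 hA4
  intro a b M haA haA' hab hbA hM
  have hb2 : 2 ≤ b := by omega
  have hAb : A ≤ 2 * b := by omega
  obtain ⟨x, hx⟩ : ∃ x : ℝ, x = Real.log A := ⟨_, rfl⟩
  rw [← hx] at e1 e2 e3 hx1
  have hx0 : 0 < x := by linarith
  have k1 := g1 b M hAb hbA hM
  have k2 := g2 a M haA' ⟨hM.1, fun d hd1 hd2 => hM.2 d hd1 (by omega)⟩
  have k3 := hF b M hb2 hM
  set F : ℝ := un M fun y => Free b (h y) with hFdef
  rw [← hx] at k1 ⊢
  have hAR : (4 : ℝ) ≤ A := by exact_mod_cast hA4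
  have hA0 : (0 : ℝ) < A := by linarith
  -- log b
  have hlb : Real.log b ≤ 2 * x := by
    have u1 : (b : ℝ) ≤ 2 * A := by exact_mod_cast hbA
    have u2 : (0 : ℝ) < b := by positivity
    have u3 : Real.log b ≤ Real.log (2 * A) := Real.log_le_log u2 u1
    rw [Real.log_mul (by norm_num) hA0.ne', ← hx] at u3
    have u4 : Real.log 2 ≤ x := by
      rw [hx]
      exact Real.log_le_log (by norm_num) (by linarith)
    linarith
  have hlb0 : 0 < Real.log b := Real.log_pos (by exact_mod_cast (by omega : 1 < b))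
  have hF2 : c / (2 * x) ^ D ≤ F := by
    refine le_trans ?_ k3
    gcongr
  have hF0 : 0 ≤ F := un_nonneg _ _
  -- the three terms
  have t2 : (A : ℝ) ^ (-(1 / 8) : ℝ) ≤ x ^ (-(1 / 2) : ℝ) / 3 * F := by
    have u1 : (A : ℝ) ^ (-(1 / 8) : ℝ) = Real.exp (-(x / 8)) := by
      rw [Real.rpow_def_of_pos hA0, ← hx]
      congr 1
      ring
    rw [u1]
    refine e2.trans ?_
    have : 0 ≤ x ^ (-(1 / 2) : ℝ) / 3 := by positivity
    exact mul_le_mul_of_nonneg_left hF2 this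
  have t3 : 4 * (zz D A : ℝ) / A ≤ x ^ (-(1 / 2) : ℝ) / 3 * F := by
    have u1 : (zz D A : ℝ) ≤ A / x ^ (D + 2) := by
      rw [hx]
      unfold zz
      exact Nat.floor_le (by positivity)
    have u2 : 4 * (zz D A : ℝ) / A ≤ 4 / x ^ (D + 2) := by
      calc 4 * (zz D A : ℝ) / A ≤ 4 * (A / x ^ (D + 2)) / A := by gcongr
        _ = 4 / x ^ (D + 2) := by field_simp
    refine u2.trans (e3.trans ?_)
    have : 0 ≤ x ^ (-(1 / 2) : ℝ) / 3 := by positivity
    exact mul_le_mul_of_nonneg_left hF2 this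
  have t1 : C * Real.log x / x * F ≤ x ^ (-(1 / 2) : ℝ) / 3 * F :=
    mul_le_mul_of_nonneg_right e1 hF0
  have t0 : un M (fun y => Dang (zz D A) (Nat.sqrt A) a b (h y)) ≤
      un M (fun y => (∀ l : ℕ, l.Prime → l ≤ Nat.sqrt A → ¬ l ∣ h y) ∧
        ∃ l : ℕ, l.Prime ∧ zz D A < l ∧ l ≤ 2 * b ∧ l ∣ h y) +
      un M (fun y => ∃ k : ℕ, k ≤ Nat.sqrt A ∧ k < a ∧ zz D A < Nat.gcd (a - k) (h y)) :=
    un_or M _ _
  calc un M (fun y => Dang (zz D A) (Nat.sqrt A) a b (h y)) + 4 * (zz D A : ℝ) / A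
      ≤ (C * Real.log x / x * F + (A : ℝ) ^ (-(1 / 8) : ℝ)) + 4 * (zz D A : ℝ) / A := by
        gcongr
        exact t0.trans (add_le_add k1 k2)
    _ ≤ (x ^ (-(1 / 2) : ℝ) / 3 * F + x ^ (-(1 / 2) : ℝ) / 3 * F) + x ^ (-(1 / 2) : ℝ) / 3 * F := by
        gcongr
    _ = x ^ (-(1 / 2) : ℝ) * F := by ring

end Pool.Agent.T2H19.GR
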