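import Pool.Agent.T2H19.GR.Stm

/-! # Package ZT : simple facts on `zt` -/

set_option autoImplicit false
set_option linter.unusedVariables false

namespace Pool.Agent.T2H19.GR.PkgZT

open Pool.Agent.T2H19.GR

lemma zt_zero (H : ℕ → ℕ) (n : ℕ) : zt H n 0 = n := by
  rw [zt]
  simp

lemma zt_pos (H : ℕ → ℕ) (n a : ℕ) (ha : a ≠ 0) :
    zt H n a = zt H (n + 1) (a - Nat.gcd a (H (a + n))) := by
  rw [zt]
  simp [ha]

lemma zt1 (H : ℕ → ℕ) (a : ℕ) : ∀ n : ℕ, n ≤ zt H n a ∧ zt H n a ≤ a + n ∧ (0 < a → n < zt H n a) := by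
  induction a using Nat.strong_induction_on with
  | _ a ih =>
    intro n
    by_cases ha : a = 0
    · subst ha
      rw [zt_zero]
      simp
    · rw [zt_pos H n a ha]
      have h1 : 0 < Nat.gcd a (H (a + n)) := Nat.gcd_pos_of_pos_left _ (Nat.pos_of_ne_zero ha)
      have h2 : Nat.gcd a (H (a + n)) ≤ a := Nat.gcd_le_left _ (Nat.pos_of_ne_zero ha)
      obtain ⟨h3, h4, -⟩ := ih (a - Nat.gcd a (H (a + n))) (by omega) (n + 1)
      exact ⟨by omega, by omega, fun _ => by omega⟩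

lemma zt2 (H H' : ℕ → ℕ) (a : ℕ) : ∀ n : ℕ, (∀ i ≤ a + n, H i = H' i) → zt H n a = zt H' n a := by
  induction a using Nat.strong_induction_on with
  | _ a ih =>
    intro n hH
    by_cases ha : a = 0
    · subst ha
      rw [zt_zero, zt_zero]
    · rw [zt_pos H n a ha, zt_pos H' n a ha, hH (a + n) le_rfl]
      have h1 : 0 < Nat.gcd a (H' (a + n)) := Nat.gcd_pos_of_pos_left _ (Nat.pos_of_ne_zero ha)
      refine ih _ (by omega) (n + 1) fun i hi => hH i (by omega)

lemma zt3 (H : ℕ → ℕ) (n a k : ℕ) : k ≤ a → (∀ i < k, Nat.gcd (a - i) (H (a + n)) = 1) →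
    zt H n a = zt H (n + k) (a - k) := by
  induction k with
  | zero => intro _ _; rfl
  | succ k ih =>
    intro hk hi
    rw [ih (by omega) fun i h => hi i (by omega), zt_pos H (n + k) (a - k) (by omega)]
    have h1 : a - k + (n + k) = a + n := by omega
    rw [h1, hi k (by omega)]
    congr 1

end Pool.Agent.T2H19.GR.PkgZT

namespace Pool.Agent.T2H19.GR

open PkgZT

theorem T_ZT : P_ZT := by
  refine ⟨fun H n a => zt1 H a n, fun H H' n a => zt2 H H' a n, zt3, fun H n a hl => ?_⟩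
  rw [zt3 H n a a le_rfl, Nat.sub_self, zt_zero, Nat.add_comm]
  intro i hi
  by_contra hc
  obtain ⟨l, hl1, hl2⟩ := Nat.exists_prime_and_dvd hc
  refine hl l hl1 ?_ (hl2.trans (Nat.gcd_dvd_right _ _))
  exact (Nat.le_of_dvd (by omega) (hl2.trans (Nat.gcd_dvd_left _ _))).trans (Nat.sub_le _ _)

end Pool.Agent.T2H19.GR
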