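import Pool.Agent.T2H19.GR.Fin
import Pool.Agent.T2H19.GR.T_ZT
import Pool.Agent.T2H19.GR.T_DL
import Pool.Agent.T2H19.GR.T_CHN
import Pool.Agent.T2H19.GR.T_GEN
import Pool.Agent.T2H19.GR.T_SL
import Pool.Agent.T2H19.GR.T_GL1
import Pool.Agent.T2H19.GR.T_MOD
import Pool.Agent.T2H19.GR.T_CRT
import Pool.Agent.T2H19.GR.T_FREE
import Pool.Agent.T2H19.GR.T_DA1
import Pool.Agent.T2H19.GR.T_DA2
import Pool.Agent.T2H19.GR.T_NT
import Pool.Agent.T2H19.GR.T_STG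
import Pool.Agent.T2H19.GR.T_ADM1
import Pool.Agent.T2H19.GR.T_MAP
import Pool.Agent.T2H19.GR.T_CMPL
import Pool.Agent.T2H19.GR.T_LLN
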