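import Mathlib

/-! # Random models of gcd recursions: definitions

The recursion `a (n + 1) = a n - gcd (a n, (n + 1) ^ p - 1)` (`MP_e7655a_nt`) is, as `n ≡ b` modulo `a n` for `b = a n + n`,
the recursion `a (n + 1) = a n - gcd (a n, h b)` with `h b = (b + 1) ^ p - 1`. In the model the number `b` is replaced, in
the stage which starts at the zero `s`, by a random integer `X s b`. -/

set_option autoImplicit false

namespace Pool.Agent.T2H19.GR

open MeasureTheory ProbabilityTheory Finset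

/-- the first time with value `0` of the recursion `a ↦ a - gcd (a, H (a + n))`, started at time `n` with the value `a` -/
def zt (H : ℕ → ℕ) (n a : ℕ) : ℕ :=
  if h : a = 0 then n else zt H (n + 1) (a - Nat.gcd a (H (a + n)))
termination_by a
decreasing_by
  have h1 : 0 < Nat.gcd a (H (a + n)) := Nat.gcd_pos_of_pos_left _ (Nat.pos_of_ne_zero h)
  have h2 : 0 < a := Nat.pos_of_ne_zero h
  omega

/-- the next zero after the zero `s`; the value at time `s + 1` is `R s` -/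
def nx (h R : ℕ → ℕ) (X : ℕ → ℕ → ℕ) (s : ℕ) : ℕ := zt (fun b => h (X s b)) (s + 1) (R s)

/-- the chain of the zeros -/
def ch (h R : ℕ → ℕ) (X : ℕ → ℕ → ℕ) (s₀ : ℕ) : ℕ → ℕ
  | 0 => s₀
  | k + 1 => nx h R X (ch h R X s₀ k)

/-- the numbers `X s b` are independent, `X s b` is uniformly distributed on `0, …, M b - 1` -/
structure Model {Ω : Type} [MeasurableSpace Ω] (M : ℕ → ℕ) (P : Measure Ω) (X : ℕ → ℕ → Ω → ℕ) : Prop where
  prob : IsProbabilityMeasure P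
  meas : ∀ s b, Measurable (X s b)
  indep : iIndepFun (fun i : ℕ × ℕ => X i.1 i.2) P
  lt : ∀ s b ω, X s b ω < M b
  law : ∀ s b, ∀ k < M b, P {ω | X s b ω = k} = ((M b : ℕ) : ENNReal)⁻¹

/-- `x` has no prime factor `≤ 2 b` -/
def Free (b x : ℕ) : Prop := ∀ l : ℕ, l.Prime → l ≤ 2 * b → ¬ l ∣ x

/-- the dangerous values: `x` has no prime factor `≤ y` but one in `(z, 2 b]`, or `gcd (a - k, x) > z` for some
`k ≤ y` -/
def Dang (z y a b x : ℕ) : Prop :=
  ((∀ l : ℕ, l.Prime → l ≤ y → ¬ l ∣ x) ∧ ∃ l : ℕ, l.Prime ∧ z < l ∧ l ≤ 2 * b ∧ l ∣ x) ∨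
    ∃ k : ℕ, k ≤ y ∧ k < a ∧ z < Nat.gcd (a - k) x

/-- the proportion of the `y < M` with `Q y` -/
noncomputable def un (M : ℕ) (Q : ℕ → Prop) : ℝ :=
  open Classical in (((range M).filter Q).card : ℝ) / M

/-- `h` behaves like an integral polynomial with few roots and without fixed divisors -/
structure Adm (h : ℕ → ℕ) (D : ℕ) : Prop where
  per : ∀ d x y : ℕ, x ≡ y [MOD d] → h x ≡ h y [MOD d]
  roots : ∀ l : ℕ, l.Prime → ((range l).filter (fun x => l ∣ h x)).card ≤ D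
  ne : ∀ l : ℕ, l.Prime → ∃ x, ¬ l ∣ h x
  few : ∀ δ : ℝ, 0 < δ → ∃ C : ℝ, ∀ d : ℕ, 1 ≤ d → (((range d).filter (fun x => d ∣ h x)).card : ℝ) ≤ C * (d : ℝ) ^ δ

/-- all numbers from `1` to `n` divide `M` -/
def AllDvd (n M : ℕ) : Prop := 0 < M ∧ ∀ d : ℕ, 1 ≤ d → d ≤ n → d ∣ M

/-- the cost bound `A / (log A) ^ (D + 2)` -/
noncomputable def zz (D A : ℕ) : ℕ := ⌊(A : ℝ) / Real.log A ^ (D + 2)⌋₊

/-- `(x + 1) ^ p - 1 = x q_p(x)` -/
def hp (p x : ℕ) : ℕ := (x + 1) ^ p - 1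

/-- `q_p(x) = ((x + 1) ^ p - 1) / x = ∑_{k=1}^p (p choose k) x ^ (k - 1)` -/
def qp (p x : ℕ) : ℕ := ∑ k ∈ Icc 1 p, p.choose k * x ^ (k - 1)

/-- `(x + 1) (x + 2 m + 1)` -/
def hm (m x : ℕ) : ℕ := (x + 1) * (x + 2 * m + 1)

/-- `q_p(y)` is composite in the model: it has a prime factor `l` with `l ^ 2 ≤ q_p(b)` -/
def Comp (p b y : ℕ) : Prop := ∃ l : ℕ, l.Prime ∧ l ^ 2 ≤ qp p b ∧ l ∣ qp p y

end Pool.Agent.T2H19.GR
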