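import Pool.Agent.T2H19.GR.Run

/-! # The random model of the recursion of `MP_e7655a_nt`: end of the proof -/

set_option autoImplicit false

namespace Pool.Agent.T2H19.GR

open MeasureTheory ProbabilityTheory Finset Filter Topology

/-- the proportion of the `k < K` with `Q k` -/
noncomputable def cnt (Q : ℕ → Prop) (K : ℕ) : ℝ :=
  open Classical in (((range K).filter Q).card : ℝ) / K

namespace Fin

/-! ### proportions -/

lemma cnt_close {Q Q' : ℕ → Prop} (N : ℕ) {c : ℝ}
    (h1 : ∀ K, open Classical in ((range K).filter Q).card ≤ ((range K).filter Q').card + N)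
    (h2 : ∀ K, open Classical in ((range K).filter Q').card ≤ ((range K).filter Q).card + N)
    (h : Tendsto (cnt Q) atTop (𝓝 c)) : Tendsto (cnt Q') atTop (𝓝 c) := by
  classical
  have h3 : Tendsto (fun K : ℕ => (N : ℝ) / K) atTop (𝓝 0) :=
    tendsto_const_nhds.div_atTop tendsto_natCast_atTop_atTop
  have h4 : Tendsto (fun K => cnt Q' K - cnt Q K) atTop (𝓝 0) := by
    apply squeeze_zero_norm' _ h3
    filter_upwards [eventually_gt_atTop 0] with K hK
    have hK' : (0 : ℝ) < K := by exact_mod_cast hK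
    rw [Real.norm_eq_abs]
    unfold cnt
    rw [← sub_div, abs_div, abs_of_pos hK']
    apply div_le_div_of_nonneg_right _ hK'.le
    rw [abs_le]
    have g1 : ((((range K).filter Q).card : ℕ) : ℝ) ≤ ((range K).filter Q').card + N := by
      exact_mod_cast h1 K
    have g2 : ((((range K).filter Q').card : ℕ) : ℝ) ≤ ((range K).filter Q).card + N := by
      exact_mod_cast h2 K
    constructor <;> linarith
  have h5 := h4.add h
  simpa using h5

lemma cnt_congr {Q Q' : ℕ → Prop} {c : ℝ} (hQ : ∀ᶠ k in atTop, (Q k ↔ Q' k))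
    (h : Tendsto (cnt Q) atTop (𝓝 c)) : Tendsto (cnt Q') atTop (𝓝 c) := by
  classical
  obtain ⟨N, hN⟩ := eventually_atTop.1 hQ
  have key : ∀ (Q Q' : ℕ → Prop), (∀ k, N ≤ k → (Q k ↔ Q' k)) → ∀ K,
      ((range K).filter Q).card ≤ ((range K).filter Q').card + N := by
    intro Q Q' hQQ K
    calc ((range K).filter Q).card ≤ (((range K).filter Q') ∪ range N).card := by
          apply card_le_card
          intro k hk
          rw [mem_filter] at hk
          rw [mem_union, mem_filter, mem_range (n := N)]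
          by_cases hkN : k < N
          · exact Or.inr hkN
          · exact Or.inl ⟨hk.1, (hQQ k (by omega)).1 hk.2⟩
      _ ≤ _ := by
          refine (card_union_le _ _).trans ?_
          rw [card_range]
  exact cnt_close N (fun K => by convert key Q Q' hN K)
    (fun K => by convert key Q' Q (fun k hk => (hN k hk).symm) K) h

lemma cnt_shift {Q : ℕ → Prop} {c : ℝ} (h : Tendsto (cnt (fun k => Q (k + 1))) atTop (𝓝 c)) :
    Tendsto (cnt Q) atTop (𝓝 c) := by
  classical
  apply cnt_close 1 _ _ h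
  · intro K
    have h1 : (((range K).filter (fun k => Q (k + 1))).image Nat.succ).card ≤
        (insert K ((range K).filter Q)).card := by
      apply card_le_card
      intro k hk
      rw [mem_image] at hk
      obtain ⟨j, hj, rfl⟩ := hk
      rw [mem_filter, mem_range] at hj
      rw [mem_insert, mem_filter, mem_range]
      by_cases hjK : j + 1 = K
      · exact Or.inl hjK
      · exact Or.inr ⟨by omega, hj.2⟩
    rw [card_image_of_injective _ Nat.succ_injective] at h1
    have h2 := card_insert_le K ((range K).filter Q)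
    have h3 := h1.trans h2
    convert h3
  · intro K
    have h1 : ((range K).filter Q).card ≤
        (insert 0 (((range K).filter (fun k => Q (k + 1))).image Nat.succ)).card := by
      apply card_le_card
      intro k hk
      rw [mem_filter, mem_range] at hk
      rw [mem_insert, mem_image]
      rcases Nat.eq_zero_or_pos k with h0 | h0
      · exact Or.inl h0
      · refine Or.inr ⟨k - 1, ?_, by simp only [Nat.succ_eq_add_one]; omega⟩
        rw [mem_filter, mem_range]
        have : k - 1 + 1 = k := by omega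
        rw [this]
        exact ⟨by omega, hk.2⟩
    have h2 := card_insert_le 0 (((range K).filter (fun k => Q (k + 1))).image Nat.succ)
    rw [card_image_of_injective _ Nat.succ_injective] at h2
    have h3 := h1.trans h2
    convert h3

lemma cnt_true : Tendsto (cnt (fun _ => True)) atTop (𝓝 1) := by
  classical
  apply tendsto_const_nhds.congr'
  filter_upwards [eventually_gt_atTop 0] with K hK
  have hK' : (0 : ℝ) < K := by exact_mod_cast hK
  unfold cnt
  simp only [Finset.filter_true, card_range]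
  rw [div_self hK'.ne']

lemma cnt_false : Tendsto (cnt (fun _ => False)) atTop (𝓝 0) := by
  classical
  apply tendsto_const_nhds.congr'
  filter_upwards with K
  unfold cnt
  simp only [Finset.filter_false, card_empty, Nat.cast_zero, zero_div]

lemma cnt_inf {Q : ℕ → Prop} {c : ℝ} (h : Tendsto (cnt Q) atTop (𝓝 c)) :
    (0 < c → ∃ᶠ k in atTop, Q k) ∧ (c < 1 → ∃ᶠ k in atTop, ¬ Q k) := by
  constructor
  · intro hc hQ
    have h1 : Tendsto (cnt (fun _ => False)) atTop (𝓝 c) :=
      cnt_congr (hQ.mono (fun k hk => ⟨fun h => hk h, fun h => h.elim⟩)) h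
    have h2 := tendsto_nhds_unique h1 cnt_false
    linarith
  · intro hc hQ
    have h1 : Tendsto (cnt (fun _ => True)) atTop (𝓝 c) :=
      cnt_congr (hQ.mono (fun k hk => ⟨fun _ => trivial, fun _ => not_not.1 hk⟩)) h
    have h2 := tendsto_nhds_unique h1 cnt_true
    linarith

/-! ### `un` -/

lemma un_nonneg (M : ℕ) (Q : ℕ → Prop) : 0 ≤ un M Q := by
  unfold un
  positivity

lemma un_split (M : ℕ) (Q C : ℕ → Prop) :
    un M (fun y => Q y ∧ C y) + un M (fun y => Q y ∧ ¬ C y) = un M Q := by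
  classical
  unfold un
  rw [← add_div]
  congr 1
  have h1 := card_filter_add_card_filter_not (s := (range M).filter Q) C
  rw [filter_filter, filter_filter] at h1
  have h2 : (((range M).filter (fun y => Q y ∧ C y)).card : ℝ) +
      (((range M).filter (fun y => Q y ∧ ¬ C y)).card : ℝ) = ((range M).filter Q).card := by
    exact_mod_cast h1
  convert h2

/-! ### measurability -/

variable {Ω : Type} [MeasurableSpace Ω]

lemma nx_congr (hZT : P_ZT) (h R : ℕ → ℕ) (v w : ℕ → ℕ → ℕ) (s : ℕ)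
    (hvw : ∀ b ≤ R s + (s + 1), v s b = w s b) : nx h R v s = nx h R w s :=
  hZT.2.1 _ _ (s + 1) (R s) (fun i hi => by simp only [hvw i hi])

lemma meas_ev (hZT : P_ZT) (hGEN : P_GEN) {M : ℕ → ℕ} {P : Measure Ω} {X : ℕ → ℕ → Ω → ℕ}
    (hX : Model M P X) (h R : ℕ → ℕ) (Q : ℕ → ℕ → Prop) (s : ℕ) :
    MeasurableSet {ω | Q (nx h R (fun s b => X s b ω) s) (X s (nx h R (fun s b => X s b ω) s) ω)} := by
  have key := (hGEN Ω P (ℕ × ℕ) (fun i => X i.1 i.2) hX.prob (fun i => hX.meas i.1 i.2) hX.indep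
    ((range (R s + (s + 1) + 1)).image (fun b => (s, b))) ∅ (disjoint_empty_right _)
    (fun v => Q (nx h R (fun s b => v (s, b)) s) (v (s, nx h R (fun s b => v (s, b)) s)))
    (fun _ => True) ?_ (fun _ _ _ => Iff.rfl)).1
  · exact key
  · intro v w hvw
    have hvw' : ∀ b ≤ R s + (s + 1), v (s, b) = w (s, b) := by
      intro b hb
      exact hvw (s, b) (mem_image.mpr ⟨b, mem_range.mpr (by omega), rfl⟩)
    have h1 : nx h R (fun s b => v (s, b)) s = nx h R (fun s b => w (s, b)) s :=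
      nx_congr hZT h R _ _ s hvw'
    have h2 : nx h R (fun s b => w (s, b)) s ≤ R s + (s + 1) :=
      (hZT.1 (fun b => h (w (s, b))) (s + 1) (R s)).2.1
    rw [h1, hvw' _ h2]

/-! ### one stage -/

lemma tendsto_rho (p : ℕ) (hp2 : 2 ≤ p) :
    Tendsto (fun s : ℕ => Real.log (Rp p s) ^ (-(1 / 2) : ℝ)) atTop (𝓝 0) := by
  have h1 : Tendsto (fun s : ℕ => ((Rp p s : ℕ) : ℝ)) atTop atTop := by
    apply tendsto_natCast_atTop_atTop.comp
    apply tendsto_atTop_mono (fun s => (Nat.le_succ s).trans (Run.Rp_ge p s hp2)) tendsto_id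
  exact (tendsto_rpow_neg_atTop (by norm_num : (0 : ℝ) < 1 / 2)).comp
    (Real.tendsto_log_atTop.comp h1)

/-- lower bound for the limit of the probability that the stage ends in `G` -/
lemma stage_lower (hSTG : P_STG) (hADM1 : P_ADM1) {p : ℕ}
    (hp : p.Prime) {P : Measure Ω} {X : ℕ → ℕ → Ω → ℕ}
    (hX : Model (fun b => (b ^ p).factorial) P X) (G : ℕ → ℕ → Prop)
    (hG : ∀ b y, G b y → Free b (GR.hp p y)) (c : ℝ) (hc1 : c ≤ 1)
    (hlim : Tendsto (fun b : ℕ => un ((b ^ p).factorial) (G b) /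
      un ((b ^ p).factorial) (fun y => Free b (GR.hp p y))) atTop (𝓝 c)) :
    ∀ t : ℝ, t < c → ∀ᶠ s : ℕ in atTop, t < P.real {ω | G (nx (GR.hp p) (Rp p) (fun s b => X s b ω) s)
      (X s (nx (GR.hp p) (Rp p) (fun s b => X s b ω) s) ω)} := by
  intro t ht
  have := hX.prob
  by_cases ht0 : t < 0
  · filter_upwards with s
    exact lt_of_lt_of_le ht0 measureReal_nonneg
  push Not at ht0
  obtain ⟨θ, hθ1, hθ2⟩ := exists_between ht
  have hθ0 : 0 < θ := lt_of_le_of_lt ht0 hθ1
  obtain ⟨B, hB⟩ := eventually_atTop.1 (hlim.eventually (eventually_gt_nhds hθ2))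
  have h1 := hSTG Ω p P X hp.two_le hX (GR.hp p) (Rp p) p (hADM1 p hp) hp.one_lt.le
    (fun s => Run.Rp_ge p s hp.two_le) G (fun _ => θ) (fun _ => ⟨hθ0.le, by linarith⟩) hG (by
      filter_upwards [eventually_ge_atTop (2 * B)] with A hA b hb _
      have h2 := hB b (by omega)
      have h3 : 0 < un ((b ^ p).factorial) (fun y => Free b (GR.hp p y)) := by
        rcases (un_nonneg ((b ^ p).factorial) (fun y => Free b (GR.hp p y))).eq_or_lt with h4 | h4
        · rw [← h4, div_zero] at h2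
          linarith
        · exact h4
      exact ((lt_div_iff₀ h3).1 h2).le)
  have h2 : Tendsto (fun s : ℕ => θ * (1 - Real.log (Rp p s) ^ (-(1 / 2) : ℝ))) atTop (𝓝 θ) := by
    have := ((tendsto_rho p hp.two_le).const_sub 1).const_mul θ
    simpa using this
  filter_upwards [h1, h2.eventually (eventually_gt_nhds hθ1)] with s h3 h4
  refine lt_of_lt_of_le h4 (h3.trans ?_)
  refine measureReal_mono ?_ (measure_ne_top _ _)
  intro ω hω
  exact hω.1

/-- the probability that the stage ends in a zero which is good in the model -/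
lemma stage_lim (hZT : P_ZT) (hGEN : P_GEN) (hSTG : P_STG) (hADM1 : P_ADM1) (hCMPL : P_CMPL) {p : ℕ}
    (hp : p.Prime) (hp5 : 5 ≤ p) {P : Measure Ω} {X : ℕ → ℕ → Ω → ℕ}
    (hX : Model (fun b => (b ^ p).factorial) P X) :
    Tendsto (fun s : ℕ => P.real {ω | Free (nx (GR.hp p) (Rp p) (fun s b => X s b ω) s)
        (GR.hp p (X s (nx (GR.hp p) (Rp p) (fun s b => X s b ω) s) ω)) ∧
        ¬ Comp p (nx (GR.hp p) (Rp p) (fun s b => X s b ω) s)
        (X s (nx (GR.hp p) (Rp p) (fun s b => X s b ω) s) ω)}) atTop (𝓝 (2 / ((p : ℝ) - 1))) := by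
  have := hX.prob
  have hp5' : (5 : ℝ) ≤ p := by exact_mod_cast hp5
  have hc0 : (0 : ℝ) < 2 / ((p : ℝ) - 1) := by apply div_pos <;> linarith
  have hc1 : 2 / ((p : ℝ) - 1) < 1 := by rw [div_lt_one (by linarith)]; linarith
  have hl := hCMPL p hp hp5
  rw [tendsto_order]
  constructor
  · exact stage_lower hSTG hADM1 hp hX
      (fun b y => Free b (GR.hp p y) ∧ ¬ Comp p b y) (fun b y h => h.1) _ hc1.le hl
  · intro t ht
    have hl' : Tendsto (fun b : ℕ => un ((b ^ p).factorial) (fun y => Free b (GR.hp p y) ∧ Comp p b y) /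
        un ((b ^ p).factorial) (fun y => Free b (GR.hp p y))) atTop (𝓝 (1 - 2 / ((p : ℝ) - 1))) := by
      apply (hl.const_sub 1).congr'
      filter_upwards [hl.eventually (eventually_gt_nhds hc0)] with b hb
      have h3 : un ((b ^ p).factorial) (fun y => Free b (GR.hp p y)) ≠ 0 := by
        intro h4
        rw [h4, div_zero] at hb
        exact lt_irrefl _ hb
      rw [← un_split ((b ^ p).factorial) (fun y => Free b (GR.hp p y)) (fun y => Comp p b y)] at h3 ⊢
      field_simp
      ring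
    have h1 := stage_lower hSTG hADM1 hp hX
      (fun b y => Free b (GR.hp p y) ∧ Comp p b y) (fun b y h => h.1) _ (by linarith) hl' (1 - t)
      (by linarith)
    filter_upwards [h1] with s h2
    have h3 := measureReal_union (μ := P) (s₁ := {ω | Free (nx (GR.hp p) (Rp p) (fun s b => X s b ω) s)
        (GR.hp p (X s (nx (GR.hp p) (Rp p) (fun s b => X s b ω) s) ω)) ∧
        ¬ Comp p (nx (GR.hp p) (Rp p) (fun s b => X s b ω) s)
        (X s (nx (GR.hp p) (Rp p) (fun s b => X s b ω) s) ω)})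
      (s₂ := {ω | Free (nx (GR.hp p) (Rp p) (fun s b => X s b ω) s)
        (GR.hp p (X s (nx (GR.hp p) (Rp p) (fun s b => X s b ω) s) ω)) ∧
        Comp p (nx (GR.hp p) (Rp p) (fun s b => X s b ω) s)
        (X s (nx (GR.hp p) (Rp p) (fun s b => X s b ω) s) ω)})
      (by
        rw [Set.disjoint_left]
        intro ω h4 h5
        exact h4.2 h5.2)
      (meas_ev hZT hGEN hX (GR.hp p) (Rp p) (fun n y => Free n (GR.hp p y) ∧ Comp p n y) s)
      (measure_ne_top _ _) (measure_ne_top _ _)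
    have h6 := measureReal_le_one (μ := P) (s := {ω | Free (nx (GR.hp p) (Rp p) (fun s b => X s b ω) s)
        (GR.hp p (X s (nx (GR.hp p) (Rp p) (fun s b => X s b ω) s) ω)) ∧
        ¬ Comp p (nx (GR.hp p) (Rp p) (fun s b => X s b ω) s)
        (X s (nx (GR.hp p) (Rp p) (fun s b => X s b ω) s) ω)} ∪
      {ω | Free (nx (GR.hp p) (Rp p) (fun s b => X s b ω) s)
        (GR.hp p (X s (nx (GR.hp p) (Rp p) (fun s b => X s b ω) s) ω)) ∧
        Comp p (nx (GR.hp p) (Rp p) (fun s b => X s b ω) s)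
        (X s (nx (GR.hp p) (Rp p) (fun s b => X s b ω) s) ω)})
    rw [h3] at h6
    linarith

/-- almost surely all but finitely many stages end in a free level -/
lemma free_ae (hZT : P_ZT) (hGEN : P_GEN) (hSTG : P_STG) (hADM1 : P_ADM1) (hGL1 : P_GL1) {p : ℕ}
    (hp : p.Prime) {P : Measure Ω} {X : ℕ → ℕ → Ω → ℕ}
    (hX : Model (fun b => (b ^ p).factorial) P X) :
    ∀ᵐ ω ∂P, ∀ᶠ k : ℕ in atTop, Free (ch (GR.hp p) (Rp p) (fun s b => X s b ω) 2 (k + 1))
      (GR.hp p (X (ch (GR.hp p) (Rp p) (fun s b => X s b ω) 2 k)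
        (ch (GR.hp p) (Rp p) (fun s b => X s b ω) 2 (k + 1)) ω)) := by
  have := hX.prob
  have h1 := hSTG Ω p P X hp.two_le hX (GR.hp p) (Rp p) p (hADM1 p hp) hp.one_lt.le
    (fun s => Run.Rp_ge p s hp.two_le) (fun b y => Free b (GR.hp p y)) (fun _ => 1)
    (fun _ => ⟨zero_le_one, le_rfl⟩) (fun _ _ h => h) (by
      filter_upwards with A b _ _
      rw [one_mul])
  obtain ⟨s₁, hs₁⟩ := eventually_atTop.1 h1
  refine hGL1 Ω _ P X hX (GR.hp p) (Rp p) (fun b y => Free b (GR.hp p y)) 1 (max s₁ 4)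
    (fun s => Run.Rp_pos p s hp.two_le)
    (fun s hs => Run.Rp_big p s hp.two_le ((le_max_right _ _).trans hs)) ?_ 2
  intro s hs
  have h2 := hs₁ s ((le_max_left _ _).trans hs)
  have hs4 : 4 ≤ s := (le_max_right _ _).trans hs
  have h3 := probReal_compl_eq_one_sub (μ := P) (meas_ev hZT hGEN hX (GR.hp p) (Rp p)
    (fun n y => Free n (GR.hp p y) ∧ Rp p s ≤ 2 * n) s)
  have h4 : P.real {ω | ¬ (Free (nx (GR.hp p) (Rp p) (fun s b => X s b ω) s)
      (GR.hp p (X s (nx (GR.hp p) (Rp p) (fun s b => X s b ω) s) ω)) ∧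
      Rp p s ≤ 2 * nx (GR.hp p) (Rp p) (fun s b => X s b ω) s)} ≤ Real.log (Rp p s) ^ (-(1 / 2) : ℝ) := by
    have h5 : {ω | ¬ (Free (nx (GR.hp p) (Rp p) (fun s b => X s b ω) s)
      (GR.hp p (X s (nx (GR.hp p) (Rp p) (fun s b => X s b ω) s) ω)) ∧
      Rp p s ≤ 2 * nx (GR.hp p) (Rp p) (fun s b => X s b ω) s)} =
      {ω | Free (nx (GR.hp p) (Rp p) (fun s b => X s b ω) s)
      (GR.hp p (X s (nx (GR.hp p) (Rp p) (fun s b => X s b ω) s) ω)) ∧
      Rp p s ≤ 2 * nx (GR.hp p) (Rp p) (fun s b => X s b ω) s}ᶜ := rfl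
    rw [h5, h3]
    linarith
  refine h4.trans ?_
  rw [one_mul]
  have hs' : (4 : ℝ) ≤ s := by exact_mod_cast hs4
  apply Real.rpow_le_rpow_of_nonpos (Real.log_pos (by linarith)) _ (by norm_num)
  apply Real.log_le_log (by linarith)
  have := Run.Rp_ge p s hp.two_le
  exact_mod_cast (by omega : s ≤ Rp p s)

end Fin

/-- the theorem on the model -/
theorem model_main (hZT : P_ZT) (hGEN : P_GEN) (hSTG : P_STG) (hADM1 : P_ADM1) (hGL1 : P_GL1)
    (hCHN : P_CHN) (hCMPL : P_CMPL) (hLLN : P_LLN) (p : ℕ) (hp : p.Prime) {Ω : Type}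
    [MeasurableSpace Ω] (P : Measure Ω) (X : ℕ → ℕ → Ω → ℕ)
    (hX : Model (fun b => (b ^ p).factorial) P X) (a σ : Ω → ℕ → ℕ)
    (hrun : ∀ ω, IsRun p (fun s b => X s b ω) (a ω) (σ ω)) :
    ∀ᵐ ω ∂P,
      (∃ N, ∀ n, N ≤ n → a ω n = 0 → Free n (GR.hp p (X (σ ω n) n ω))) ∧
      (p ≤ 3 → ∃ N, ∀ n, N ≤ n → a ω n = 0 → Good p (fun s b => X s b ω) (σ ω) n) ∧
      (5 ≤ p → (∀ N, ∃ n, N ≤ n ∧ a ω n = 0 ∧ PrimeIn n (X (σ ω n) n ω) ∧
          ¬ PrimeIn (qp p n) (qp p (X (σ ω n) n ω))) ∧
        ∀ N, ∃ n, N ≤ n ∧ a ω n = 0 ∧ Good p (fun s b => X s b ω) (σ ω) n) ∧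
      ∀ z : ℕ → ℕ, StrictMono z → (∀ n, (∃ k, z k = n) ↔ 1 ≤ n ∧ a ω n = 0) →
        Tendsto (cnt fun k => Good p (fun s b => X s b ω) (σ ω) (z k)) atTop
          (𝓝 (min 1 (2 / ((p : ℝ) - 1)))) := by
  have hp2 := hp.two_le
  have := hX.prob
  have hlln : ∀ᵐ ω ∂P, 5 ≤ p → Tendsto (cnt fun k =>
      (Free (ch (GR.hp p) (Rp p) (fun s b => X s b ω) 2 (k + 1))
        (GR.hp p (X (ch (GR.hp p) (Rp p) (fun s b => X s b ω) 2 k)
          (ch (GR.hp p) (Rp p) (fun s b => X s b ω) 2 (k + 1)) ω)) ∧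
        ¬ Comp p (ch (GR.hp p) (Rp p) (fun s b => X s b ω) 2 (k + 1))
          (X (ch (GR.hp p) (Rp p) (fun s b => X s b ω) 2 k)
          (ch (GR.hp p) (Rp p) (fun s b => X s b ω) 2 (k + 1)) ω))) atTop (𝓝 (2 / ((p : ℝ) - 1))) := by
    by_cases hp5 : 5 ≤ p
    · have h1 := hLLN Ω _ P X hX (GR.hp p) (Rp p) (fun b y => Free b (GR.hp p y) ∧ ¬ Comp p b y)
        (2 / ((p : ℝ) - 1)) (fun s => Run.Rp_pos p s hp2)
        (Fin.stage_lim hZT hGEN hSTG hADM1 hCMPL hp hp5 hX) 2
      filter_upwards [h1] with ω h2 _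
      exact h2
    · filter_upwards with ω h
      exact absurd h hp5
  filter_upwards [Fin.free_ae hZT hGEN hSTG hADM1 hGL1 hp hX, hlln] with ω hfree hlln
  obtain ⟨hmono, hzero, hsig⟩ := Run.run_chain hCHN hp2 (hrun ω)
  set c : ℕ → ℕ := ch (GR.hp p) (Rp p) (fun s b => X s b ω) 2 with hc
  obtain ⟨K, hK⟩ := eventually_atTop.1 hfree
  have hev : ∀ n, c (K + 1) ≤ n → a ω n = 0 → Free n (GR.hp p (X (σ ω n) n ω)) := by
    intro n hn h0
    have h2n : 2 ≤ n := by
      have h3 : c 0 ≤ c (K + 1) := hmono.monotone (Nat.zero_le _)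
      have h4 : c 0 = 2 := rfl
      omega
    obtain ⟨j, hj⟩ := (hzero n h2n).1 h0
    have hjK : K + 1 ≤ j := by
      by_contra hcon
      push Not at hcon
      have := hmono hcon
      omega
    obtain ⟨i, rfl⟩ : ∃ i, j = i + 1 := ⟨j - 1, by omega⟩
    have h5 := hK i (by omega)
    rw [← hj, hsig i]
    exact h5
  have hz2 : ∀ k, 2 ≤ c k := by
    intro k
    have h3 : c 0 ≤ c k := hmono.monotone (Nat.zero_le _)
    have h4 : c 0 = 2 := rfl
    omega
  have hcz : ∀ k, a ω (c k) = 0 := fun k => (hzero (c k) (hz2 k)).2 ⟨k, rfl⟩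
  have hgood3 : p ≤ 3 → ∀ n, c (K + 1) ≤ n → a ω n = 0 → Good p (fun s b => X s b ω) (σ ω) n := by
    intro hp3 n hn h0
    have h1 := hev n hn h0
    refine Run.good_of_free (by omega) ?_ h1
    have := hz2 (K + 1)
    omega
  have hclim : Tendsto (cnt fun k => Good p (fun s b => X s b ω) (σ ω) (c k)) atTop
      (𝓝 (min 1 (2 / ((p : ℝ) - 1)))) := by
    by_cases hp3 : p ≤ 3
    · have h1 : (1 : ℝ) ≤ 2 / ((p : ℝ) - 1) := by
        have h2 : (2 : ℝ) ≤ p := by exact_mod_cast hp2
        have h3 : (p : ℝ) ≤ 3 := by exact_mod_cast hp3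
        rw [le_div_iff₀ (by linarith)]
        linarith
      rw [min_eq_left h1]
      refine Fin.cnt_congr ?_ Fin.cnt_true
      filter_upwards [eventually_ge_atTop (K + 1)] with k hk
      exact ⟨fun _ => hgood3 hp3 _ (hmono.monotone hk) (hcz k), fun _ => trivial⟩
    · have hp5 : 5 ≤ p := by
        rcases Nat.lt_or_ge p 5 with h | h
        · have h4 : p = 4 := by omega
          rw [h4] at hp
          exact absurd hp (by norm_num)
        · exact h
      have h1 : 2 / ((p : ℝ) - 1) ≤ 1 := by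
        have h3 : (5 : ℝ) ≤ p := by exact_mod_cast hp5
        rw [div_le_one (by linarith)]
        linarith
      rw [min_eq_right h1]
      apply Fin.cnt_shift
      refine Fin.cnt_congr ?_ (hlln hp5)
      filter_upwards [eventually_ge_atTop K] with k hk
      have h2 : Free (c (k + 1)) (GR.hp p (X (c k) (c (k + 1)) ω)) := hK k hk
      have h3 : Free (c (k + 1)) (GR.hp p ((fun s b => X s b ω) (σ ω (c (k + 1))) (c (k + 1)))) := by
        rw [hsig k]
        exact h2
      have h4 := Run.good_iff_of_free (X := fun s b => X s b ω) (σ := σ ω) h3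
      rw [h4, hsig k]
      exact ⟨fun h => h.2, fun h => ⟨h2, h⟩⟩
  refine ⟨⟨c (K + 1), hev⟩, fun hp3 => ⟨c (K + 1), hgood3 hp3⟩, ?_, ?_⟩
  · intro hp5
    have hp5' : (5 : ℝ) ≤ p := by exact_mod_cast hp5
    have h1 : 2 / ((p : ℝ) - 1) < 1 := by
      rw [div_lt_one (by linarith)]
      linarith
    have h0 : (0 : ℝ) < 2 / ((p : ℝ) - 1) := by apply div_pos <;> linarith
    obtain ⟨i1, i2⟩ := Fin.cnt_inf hclim
    rw [min_eq_right h1.le] at i1 i2
    have i1 := i1 h0
    have i2 := i2 h1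
    rw [frequently_atTop] at i1 i2
    constructor
    · intro N
      obtain ⟨k, hk, hk2⟩ := i2 (max N (K + 1))
      have hkN : N ≤ k := (le_max_left _ _).trans hk
      have hkK : K + 1 ≤ k := (le_max_right _ _).trans hk
      have h2 := hev (c k) (hmono.monotone hkK) (hcz k)
      refine ⟨c k, hkN.trans (hmono.id_le k), hcz k, Run.primeIn_of_free h2, ?_⟩
      intro h3
      exact hk2 ⟨Run.primeIn_of_free h2, h3⟩
    · intro N
      obtain ⟨k, hk, hk2⟩ := i1 N
      exact ⟨c k, hk.trans (hmono.id_le k), hcz k, hk2⟩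
  · intro z hz hz2
    have h1 : z = c := by
      have h2 : Set.range z = Set.range c := by
        ext n
        rw [Set.mem_range, Set.mem_range, hz2 n]
        constructor
        · rintro ⟨h3, h4⟩
          have h5 : n ≠ 1 := by
            rintro rfl
            rw [(hrun ω).one] at h4
            exact one_ne_zero h4
          exact (hzero n (by omega)).1 h4
        · rintro ⟨k, rfl⟩
          have := hz2 k
          exact ⟨by have := hmono.id_le k; have h6 : 2 ≤ c k := by
                      have h3 : c 0 ≤ c k := hmono.monotone (Nat.zero_le _)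
                      have h4 : c 0 = 2 := rfl
                      omega
                    omega, hcz k⟩
      exact (StrictMono.range_inj hz hmono).1 h2
    rw [h1]
    exact hclim

end Pool.Agent.T2H19.GR
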