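import Pool.Agent.T2H19.GR.Stm2

/-! # The recursion of `MP_e7655a_nt` and its random model -/

set_option autoImplicit false

namespace Pool.Agent.T2H19.GR

open Finset Filter Topology

/-- The recursion of `MP_e7655a_nt` with an array `X`: in the step from `n` to `n + 1` with `a n ≠ 0` the number `n ^ p - 1` of the
problem (`(n + 1) ^ p - 1` in this indexing) is replaced by `(X s b + 1) ^ p - 1`, `b = a n + n`, where `s = σ n` is the last
zero before `n` (`0` if there is none). As `n ≡ b` modulo `a n`, the array `X s b = b` gives the recursion of the problem. -/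
structure IsRun (p : ℕ) (X : ℕ → ℕ → ℕ) (a σ : ℕ → ℕ) : Prop where
  one : a 1 = 1
  sig : σ 1 = 0
  zero : ∀ n, 1 ≤ n → a n = 0 → a (n + 1) = (n + 1) ^ p - 1 ∧ σ (n + 1) = n
  pos : ∀ n, 1 ≤ n → a n ≠ 0 →
    a (n + 1) = a n - Nat.gcd (a n) ((X (σ n) (a n + n) + 1) ^ p - 1) ∧ σ (n + 1) = σ n

/-- a number `m` is prime in the model if its substitute `x` has no prime factor `l ≤ √m` -/
def PrimeIn (m x : ℕ) : Prop := ∀ l : ℕ, l.Prime → l ^ 2 ≤ m → ¬ l ∣ x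

/-- `n` and `q_p(n)` are prime in the model; the substitute of `n` is `X (σ n) n` -/
def Good (p : ℕ) (X : ℕ → ℕ → ℕ) (σ : ℕ → ℕ) (n : ℕ) : Prop :=
  PrimeIn n (X (σ n) n) ∧ PrimeIn (qp p n) (qp p (X (σ n) n))

/-- the initial value of the stage after the zero `s` (the value at `s = 0` is not used) -/
def Rp (p s : ℕ) : ℕ := if s = 0 then 1 else (s + 1) ^ p - 1

namespace Run

lemma Rp_of_pos (p s : ℕ) (hs : 1 ≤ s) : Rp p s = (s + 1) ^ p - 1 := by
  unfold Rp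
  rw [if_neg (by omega)]

lemma sq_le_Rp (p s : ℕ) (hp : 2 ≤ p) (hs : 1 ≤ s) : s ^ 2 + 2 * s ≤ Rp p s := by
  rw [Rp_of_pos p s hs]
  have h1 : (s + 1) ^ 2 ≤ (s + 1) ^ p := Nat.pow_le_pow_right (by omega) hp
  have h2 : (s + 1) ^ 2 = s ^ 2 + 2 * s + 1 := by ring
  omega

lemma Rp_ge (p s : ℕ) (hp : 2 ≤ p) : s + 1 ≤ Rp p s := by
  rcases Nat.eq_zero_or_pos s with rfl | hs
  · simp [Rp]
  · have := sq_le_Rp p s hp hs
    nlinarith

lemma Rp_pos (p s : ℕ) (hp : 2 ≤ p) : 0 < Rp p s := by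
  have := Rp_ge p s hp
  omega

lemma Rp_big (p s : ℕ) (hp : 2 ≤ p) (hs : 4 ≤ s) : 2 * (s : ℝ) ^ (3 / 2 : ℝ) ≤ Rp p s := by
  have h1 := sq_le_Rp p s hp (by omega)
  have h2 : ((s : ℝ)) ^ 2 ≤ Rp p s := by
    have : s ^ 2 ≤ Rp p s := by omega
    exact_mod_cast this
  have hs' : (4 : ℝ) ≤ s := by exact_mod_cast hs
  have hs0 : (0 : ℝ) < s := by linarith
  refine le_trans ?_ h2
  have h3 : (s : ℝ) ^ 2 = (s : ℝ) ^ (3 / 2 : ℝ) * (s : ℝ) ^ (1 / 2 : ℝ) := by
    rw [← Real.rpow_add hs0]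
    norm_num
  rw [h3, mul_comm]
  apply mul_le_mul_of_nonneg_left _ (Real.rpow_nonneg hs0.le _)
  rw [← Real.sqrt_eq_rpow]
  apply Real.le_sqrt_of_sq_le
  linarith

lemma run_two {p : ℕ} {X : ℕ → ℕ → ℕ} {a σ : ℕ → ℕ} (h : IsRun p X a σ) : a 2 = 0 := by
  have h1 := (h.pos 1 le_rfl (by rw [h.one]; norm_num)).1
  rw [h.one] at h1
  simpa using h1

lemma run_chain (hCHN : P_CHN) {p : ℕ} (hp2 : 2 ≤ p) {X : ℕ → ℕ → ℕ} {a σ : ℕ → ℕ}
    (h : IsRun p X a σ) : StrictMono (ch (hp p) (Rp p) X 2) ∧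
      (∀ n, 2 ≤ n → (a n = 0 ↔ ∃ k, ch (hp p) (Rp p) X 2 k = n)) ∧
      ∀ k, σ (ch (hp p) (Rp p) X 2 (k + 1)) = ch (hp p) (Rp p) X 2 k := by
  refine hCHN (hp p) (Rp p) X a σ 2 (fun s => Rp_pos p s hp2) (run_two h) ?_ ?_
  · intro n hn h0
    rw [Rp_of_pos p n (by omega)]
    exact h.zero n (by omega) h0
  · intro n hn h0
    exact h.pos n (by omega) h0

lemma hp_eq (p x : ℕ) : hp p x = x * qp p x := by
  unfold hp qp
  have h1 : (x + 1) ^ p = ∑ k ∈ Finset.range (p + 1), p.choose k * x ^ k := by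
    rw [add_pow]
    apply Finset.sum_congr rfl
    intro k _
    rw [one_pow, mul_one, mul_comm]
    simp
  rw [h1, Finset.sum_range_succ', Finset.mul_sum]
  rw [Nat.choose_zero_right, pow_zero, mul_one, Nat.add_sub_cancel]
  have h2 : Finset.Icc 1 p = (Finset.range p).image (fun k => k + 1) := by
    ext k
    simp only [Finset.mem_Icc, Finset.mem_image, Finset.mem_range]
    constructor
    · rintro ⟨h3, h4⟩
      exact ⟨k - 1, by omega, by omega⟩
    · rintro ⟨j, h3, h4⟩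
      omega
  rw [h2, Finset.sum_image (fun i _ j _ hij => by simpa using hij)]
  apply Finset.sum_congr rfl
  intro k _
  rw [Nat.add_sub_cancel, pow_succ]
  ring

lemma qp_two (x : ℕ) : qp 2 x = x + 2 := by
  have : Finset.Icc 1 2 = ({1, 2} : Finset ℕ) := by decide
  unfold qp
  rw [this]
  simp
  ring

lemma qp_three (x : ℕ) : qp 3 x = x ^ 2 + 3 * x + 3 := by
  have : Finset.Icc 1 3 = ({1, 2, 3} : Finset ℕ) := by decide
  unfold qp
  rw [this]
  simp [Nat.choose]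
  ring

lemma primeIn_of_free {p n x : ℕ} (h : Free n (hp p x)) : PrimeIn n x := by
  intro l hl hln hlx
  refine h l hl ?_ ?_
  · have := hl.two_le
    nlinarith
  · rw [hp_eq]
    exact hlx.mul_right _

lemma primeIn_q_of_free {p n x : ℕ} (hp3 : p = 2 ∨ p = 3) (hn : 1 ≤ n) (h : Free n (hp p x)) :
    PrimeIn (qp p n) (qp p x) := by
  intro l hl hln hlx
  refine h l hl ?_ ?_
  · have h2 := hl.two_le
    rcases hp3 with rfl | rfl
    · rw [qp_two] at hln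
      nlinarith
    · rw [qp_three] at hln
      by_contra hc
      push Not at hc
      have h3 : n + 2 ≤ l ∨ (n = 1 ∧ l = 2) := by omega
      rcases h3 with h3 | ⟨h3, h4⟩
      · nlinarith
      · omega
  · rw [hp_eq]
    exact hlx.mul_left _

lemma good_of_free {p : ℕ} {X : ℕ → ℕ → ℕ} {σ : ℕ → ℕ} {n : ℕ} (hp3 : p = 2 ∨ p = 3) (hn : 1 ≤ n)
    (h : Free n (hp p (X (σ n) n))) : Good p X σ n :=
  ⟨primeIn_of_free h, primeIn_q_of_free hp3 hn h⟩

lemma good_iff_of_free {p : ℕ} {X : ℕ → ℕ → ℕ} {σ : ℕ → ℕ} {n : ℕ}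
    (h : Free n (hp p (X (σ n) n))) : Good p X σ n ↔ ¬ Comp p n (X (σ n) n) := by
  constructor
  · rintro ⟨_, h2⟩ ⟨l, hl, hl2, hl3⟩
    exact h2 l hl hl2 hl3
  · intro hc
    exact ⟨primeIn_of_free h, fun l hl hl2 hl3 => hc ⟨l, hl, hl2, hl3⟩⟩

/-! ### existence and uniqueness of the run -/

/-- the value and the last zero at the time `n + 1` -/
def st (p : ℕ) (X : ℕ → ℕ → ℕ) : ℕ → ℕ × ℕ
  | 0 => (1, 0)
  | n + 1 => if (st p X n).1 = 0 then ((n + 2) ^ p - 1, n + 1) else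
      ((st p X n).1 - Nat.gcd (st p X n).1 ((X (st p X n).2 ((st p X n).1 + (n + 1)) + 1) ^ p - 1),
        (st p X n).2)

lemma isRun_st (p : ℕ) (X : ℕ → ℕ → ℕ) :
    IsRun p X (fun n => (st p X (n - 1)).1) (fun n => (st p X (n - 1)).2) := by
  refine ⟨rfl, rfl, ?_, ?_⟩
  · intro n hn h0
    obtain ⟨m, rfl⟩ : ∃ m, n = m + 1 := ⟨n - 1, by omega⟩
    simp only [Nat.add_sub_cancel] at h0 ⊢
    rw [st, if_pos h0]
    exact ⟨rfl, rfl⟩
  · intro n hn h0
    obtain ⟨m, rfl⟩ : ∃ m, n = m + 1 := ⟨n - 1, by omega⟩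
    simp only [Nat.add_sub_cancel] at h0 ⊢
    rw [st, if_neg h0]
    exact ⟨rfl, rfl⟩

lemma run_unique {p : ℕ} {X : ℕ → ℕ → ℕ} {a σ a' σ' : ℕ → ℕ} (h : IsRun p X a σ)
    (h' : IsRun p X a' σ') : ∀ n, 1 ≤ n → a' n = a n ∧ σ' n = σ n := by
  intro n hn
  induction n, hn using Nat.le_induction with
  | base => exact ⟨by rw [h.one, h'.one], by rw [h.sig, h'.sig]⟩
  | succ n hn ih =>
    obtain ⟨i1, i2⟩ := ih
    by_cases h0 : a n = 0
    · have h0' : a' n = 0 := by rw [i1, h0]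
      obtain ⟨k1, k2⟩ := h.zero n hn h0
      obtain ⟨k3, k4⟩ := h'.zero n hn h0'
      exact ⟨by rw [k1, k3], by rw [k2, k4]⟩
    · have h0' : a' n ≠ 0 := by rw [i1]; exact h0
      obtain ⟨k1, k2⟩ := h.pos n hn h0
      obtain ⟨k3, k4⟩ := h'.pos n hn h0'
      exact ⟨by rw [k1, k3, i1, i2], by rw [k2, k4, i2]⟩

/-! ### the array `X s b = b` -/

lemma gcd_level (p a n : ℕ) : Nat.gcd a ((a + n + 1) ^ p - 1) = Nat.gcd a ((n + 1) ^ p - 1) := by
  have h1 : (a + n + 1) ^ p - 1 ≡ (n + 1) ^ p - 1 [MOD a] := by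
    have h2 : (a + n + 1) ^ p ≡ (n + 1) ^ p [MOD a] := by
      apply Nat.ModEq.pow
      rw [add_assoc]
      exact Nat.add_modEq_left
    have h3 : 1 ≤ (a + n + 1) ^ p := Nat.one_le_pow _ _ (by omega)
    have h4 : 1 ≤ (n + 1) ^ p := Nat.one_le_pow _ _ (by omega)
    exact Nat.ModEq.sub h3 h4 h2 rfl
  rw [Nat.gcd_comm a, Nat.gcd_comm a]
  exact h1.gcd_eq

lemma isRun_of_int (p : ℕ) (hp0 : 1 ≤ p) (a : ℕ → ℤ) (h1 : a 1 = 1)
    (h : ∀ n : ℕ, 2 ≤ n → a n = |a (n - 1) - (Int.gcd (a (n - 1)) ((n : ℤ) ^ p - 1) : ℤ)|) :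
    ∃ σ : ℕ → ℕ, IsRun p (fun _ b => b) (fun n => (a n).toNat) σ := by
  classical
  let σ : ℕ → ℕ := fun n => Nat.rec 0 (fun m r => if 1 ≤ m ∧ a m = 0 then m else r) n
  have hσ : ∀ n, σ (n + 1) = if 1 ≤ n ∧ a n = 0 then n else σ n := fun n => rfl
  have hnn : ∀ n, 1 ≤ n → 0 ≤ a n := by
    intro n hn
    rcases Nat.lt_or_ge n 2 with h2 | h2
    · obtain rfl : n = 1 := by omega
      rw [h1]; norm_num
    · rw [h n h2]; exact abs_nonneg _
  have hcast : ∀ n : ℕ, (((n + 1 : ℕ) : ℤ) ^ p - 1) = (((n + 1) ^ p - 1 : ℕ) : ℤ) := by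
    intro n
    rw [Nat.cast_sub (Nat.one_le_pow _ _ (by omega))]
    push_cast
    ring
  refine ⟨σ, by simp [h1], ?_, ?_, ?_⟩
  · rw [show (1 : ℕ) = 0 + 1 from rfl, hσ 0]
    simp [σ]
  · intro n hn h0
    have h0' : a n = 0 := by
      have := hnn n hn
      have h2 : ((a n).toNat : ℤ) = a n := Int.toNat_of_nonneg this
      have h3 : (a n).toNat = 0 := h0
      omega
    constructor
    · have h2 := h (n + 1) (by omega)
      rw [Nat.add_sub_cancel, h0', hcast n] at h2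
      change (a (n + 1)).toNat = (n + 1) ^ p - 1
      rw [h2, Int.gcd_zero_left, Int.natAbs_natCast, zero_sub, abs_neg, Nat.abs_cast,
        Int.toNat_natCast]
    · rw [hσ n, if_pos ⟨hn, h0'⟩]
  · intro n hn h0
    change (a n).toNat ≠ 0 at h0
    have hz : ((a n).toNat : ℤ) = a n := Int.toNat_of_nonneg (hnn n hn)
    have h0' : a n ≠ 0 := by
      intro h2
      rw [h2] at h0
      exact h0 rfl
    constructor
    · have h2 := h (n + 1) (by omega)
      rw [Nat.add_sub_cancel, hcast n] at h2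
      rw [gcd_level, h2]
      obtain ⟨m, hm⟩ : ∃ m : ℕ, m = (a n).toNat := ⟨_, rfl⟩
      rw [← hm] at hz ⊢
      rw [← hz, Int.gcd_natCast_natCast]
      have h3 : Nat.gcd m ((n + 1) ^ p - 1) ≤ m := Nat.gcd_le_left _ (by
        rcases Nat.eq_zero_or_pos m with h4 | h4
        · rw [h4] at hz
          exact absurd hz.symm (by simpa using h0')
        · exact h4)
      rw [abs_of_nonneg (by
        have : ((Nat.gcd m ((n + 1) ^ p - 1) : ℕ) : ℤ) ≤ m := by exact_mod_cast h3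
        linarith)]
      omega
    · rw [hσ n, if_neg (fun h2 => h0' h2.2)]

lemma primeIn_self {m : ℕ} (hm : 2 ≤ m) : PrimeIn m m ↔ m.Prime := by
  constructor
  · intro h
    by_contra hc
    have h1 := Nat.minFac_sq_le_self (by omega : 0 < m) hc
    exact h _ (Nat.minFac_prime (by omega)) h1 (Nat.minFac_dvd m)
  · intro h l hl hl2 hlm
    have h1 := (Nat.dvd_prime h).mp hlm
    have h2 := hl.two_le
    rcases h1 with h1 | h1
    · omega
    · subst h1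
      nlinarith

lemma qp_pos_two_le (p n : ℕ) (hp2 : 2 ≤ p) : 2 ≤ qp p n := by
  unfold qp
  have h1 : p.choose 1 * n ^ (1 - 1) ≤ ∑ k ∈ Icc 1 p, p.choose k * n ^ (k - 1) :=
    Finset.single_le_sum (f := fun k => p.choose k * n ^ (k - 1)) (fun _ _ => Nat.zero_le _)
      (Finset.mem_Icc.mpr ⟨le_rfl, by omega⟩)
  simp only [Nat.choose_one_right, Nat.sub_self, pow_zero, mul_one] at h1
  omega

lemma qp_eq_div (p n : ℕ) (hn : 1 ≤ n) : qp p n = ((n + 1) ^ p - 1) / n := by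
  have h := hp_eq p n
  unfold hp at h
  rw [h, Nat.mul_div_cancel_left _ hn]

/-- for the array `X s b = b` the recursion and the question are those of the problem -/
theorem literal (p : ℕ) (hp2 : 2 ≤ p) (a : ℕ → ℤ) (h1 : a 1 = 1)
    (h : ∀ n : ℕ, 2 ≤ n → a n = |a (n - 1) - (Int.gcd (a (n - 1)) ((n : ℤ) ^ p - 1) : ℤ)|)
    (a' σ : ℕ → ℕ) (hr : IsRun p (fun _ b => b) a' σ) :
    (∀ n, 1 ≤ n → (a' n : ℤ) = a n) ∧
      ∀ n, 2 ≤ n → (Good p (fun _ b => b) σ n ↔ n.Prime ∧ (((n + 1) ^ p - 1) / n).Prime) := by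
  constructor
  · intro n hn
    obtain ⟨σ', hσ'⟩ := isRun_of_int p (by omega) a h1 h
    have h2 := (run_unique hσ' hr n hn).1
    rw [h2]
    apply Int.toNat_of_nonneg
    rcases Nat.lt_or_ge n 2 with h3 | h3
    · obtain rfl : n = 1 := by omega
      rw [h1]; norm_num
    · rw [h n h3]; exact abs_nonneg _
  · intro n hn
    unfold Good
    rw [primeIn_self hn, primeIn_self (qp_pos_two_le p n hp2), qp_eq_div p n (by omega)]

end Run

end Pool.Agent.T2H19.GR
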