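import Pool.Agent.T2H19.GR.Defs

/-! # Random models of gcd recursions: statements of the packages

Targets: `MP_e7655a_nt` (recursion with `n ^ p - 1`) and `MP_9227d9_nt` (recursion with `n (n + 2 m)`).

MAIN IDEA. Let `A` be the value at the beginning of a stage. The number `b = a + n` (the level) is constant as long as the gcds
are `1`, and falls by `g - 1` at a gcd `g > 1`. The value `Y b` is fresh when the level `b` is reached. If `h (Y b)` has no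
prime factor `≤ 2 b` (`Free`) then the recursion runs down to the zero `n = b`. If not, and if `Y b` is not dangerous
(`Dang`), the next level is reached at a cost `≤ 2 z`, `z = A / (log A) ^ (D + 2)` (package DL). The probability of `Free` is
`F ≥ c (log A) ^ (-D)` and the probability of `Dang` is `≤ F (log A) ^ (-1/2)` (packages FREE, DA1, DA2, NT). A potential
argument (package SL) shows that the stage ends at a free level `b ≥ A / 2` with probability `≥ 1 - (log A) ^ (-1/2)`.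

Package `X`: file `Pool/Agent/T2H19/GR/T_X.lean`, `theorem T_X (hyp : P_Y) … : P_X`, namespace `Pool.Agent.T2H19.GR`,
your lemmas in the namespace `Pool.Agent.T2H19.GR.PkgX`; import `Pool.Agent.T2H19.GR.Stm` (and library files if needed). -/

set_option autoImplicit false

namespace Pool.Agent.T2H19.GR

open MeasureTheory ProbabilityTheory Finset Filter Topology

/-! ## Deterministic part -/

/-- ZT. Simple facts on `zt`: (1) bounds, (2) locality, (3) a run without jumps, (4) the free run.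
Proofs: strong induction on `a`, unfolding `zt` (`rw [zt]`). (3): induction on `k`; the level `a + n` does not change. (4): a
prime divisor of `gcd (a - i, H (a + n))` would be `≤ a`, so all the gcds are `1`; (3) with `k = a` and `zt H n 0 = n`. -/
def P_ZT : Prop :=
  (∀ (H : ℕ → ℕ) (n a : ℕ), n ≤ zt H n a ∧ zt H n a ≤ a + n ∧ (0 < a → n < zt H n a)) ∧
  (∀ (H H' : ℕ → ℕ) (n a : ℕ), (∀ i ≤ a + n, H i = H' i) → zt H n a = zt H' n a) ∧
  (∀ (H : ℕ → ℕ) (n a k : ℕ), k ≤ a → (∀ i < k, Nat.gcd (a - i) (H (a + n)) = 1) → zt H n a = zt H (n + k) (a - k)) ∧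
  ∀ (H : ℕ → ℕ) (n a : ℕ), (∀ l : ℕ, l.Prime → l ≤ a → ¬ l ∣ H (a + n)) → zt H n a = a + n

/-- DL (from ZT). The next level. Proof: `x` is not free, so (also for `x = 0`) `l = Nat.minFac x ≤ 2 b` is a prime which
divides `x`. If `l > z` then `x` is dangerous (first alternative, as `√A ≤ z < l`). So `l ≤ z < a`; let `k₀ = a % l < l`: `l`
divides `a - k₀ > 0`, so there is a least `k ≤ k₀` with `g = gcd (a - k, x) > 1`; `k < z`, `k < a`. If `g > z`: if `l ≤ √A`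
then `k ≤ √A` and `x` is dangerous (second alternative); if `l > √A` then all the prime factors of `g` are `> √A` and
`g ≤ a ≤ A < (√A + 1) ^ 2`, so that `g` is a prime, `z < g ≤ a ≤ b`, and `x` is dangerous (first alternative). So `g ≤ z`, and
the formula for `zt` is ZT (3) and one more step (`rw [zt]`; the level is still `b`). -/
def P_DL : Prop :=
  ∀ A z a b x : ℕ, a ≤ A → a ≤ b → z < a → Nat.sqrt A ≤ z → ¬ Free b x → ¬ Dang z (Nat.sqrt A) a b x →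
    ∃ k g : ℕ, k < z ∧ 2 ≤ g ∧ g ≤ z ∧ k + g ≤ a ∧
      ∀ (H : ℕ → ℕ) (n : ℕ), a + n = b → H b = x → zt H n a = zt H (n + k + 1) (a - k - g)

/-- CHN (from ZT). The zeros of the recursion. Proof: if `a s = 0`, `s ≥ s₀`, then with `H b = h (X s b)` for
`s < n ≤ nx s`: `σ n = s` and `zt H n (a n) = nx s`, and `a n ≠ 0` for `n < nx s` (induction on `n`, ZT (1): `n < zt H n a` for
`a > 0`), so `a (nx s) = 0`. So the zeros `≥ s₀` are the `ch k`. -/
def P_CHN : Prop :=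
  ∀ (h R : ℕ → ℕ) (X : ℕ → ℕ → ℕ) (a σ : ℕ → ℕ) (s₀ : ℕ), (∀ s, 0 < R s) → a s₀ = 0 →
    (∀ n, s₀ ≤ n → a n = 0 → a (n + 1) = R n ∧ σ (n + 1) = n) →
    (∀ n, s₀ ≤ n → a n ≠ 0 → a (n + 1) = a n - Nat.gcd (a n) (h (X (σ n) (a n + n))) ∧ σ (n + 1) = σ n) →
    StrictMono (ch h R X s₀) ∧ (∀ n, s₀ ≤ n → (a n = 0 ↔ ∃ k, ch h R X s₀ k = n)) ∧
      ∀ k, σ (ch h R X s₀ (k + 1)) = ch h R X s₀ k

/-! ## Probability -/

/-- GEN. Independence of events which depend on disjoint finite sets of coordinates. Proof: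
`iIndepFun.indepFun_finset` for `S`, `T`; the events are preimages of sets of functions `↥S → ℕ` (extend by `0` outside), which
are measurable as `↥S → ℕ` is countable with measurable singletons. -/
def P_GEN : Prop :=
  ∀ (Ω : Type) [MeasurableSpace Ω] (P : Measure Ω) (ι : Type) [DecidableEq ι] (X : ι → Ω → ℕ), IsProbabilityMeasure P →
    (∀ i, Measurable (X i)) → iIndepFun X P → ∀ (S T : Finset ι), Disjoint S T → ∀ Q₁ Q₂ : (ι → ℕ) → Prop,
    (∀ v w : ι → ℕ, (∀ i ∈ S, v i = w i) → (Q₁ v ↔ Q₁ w)) → (∀ v w : ι → ℕ, (∀ i ∈ T, v i = w i) → (Q₂ v ↔ Q₂ w)) →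
    MeasurableSet {ω | Q₁ fun i => X i ω} ∧ MeasurableSet {ω | Q₂ fun i => X i ω} ∧
      P.real {ω | (Q₁ fun i => X i ω) ∧ Q₂ fun i => X i ω} = P.real {ω | Q₁ fun i => X i ω} * P.real {ω | Q₂ fun i => X i ω}

/-- SL (from ZT, DL, GEN). One stage. Proof: strong induction on `a`. Write `E (n, a)` for the event in the conclusion, it
depends only on the `Y i`, `i ≤ a + n` (ZT (1), (2)). If `2 a < A` the left hand side is `≤ 0`. Let `A ≤ 2 a`, `b = a + n`,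
`F = P (Free b (h (Y b)))`, `δ = P (Dang …)`, `β = 1 - ρ - 2 (A - a) / A ≤ 1 - ρ`. If `G b (Y b)` then `Free`, so `zt = b`
(ZT (4)), `2 b ≥ 2 a ≥ A`: `E (n, a)` holds. For every value `y` of `Y b` for which `x = h y` is neither free nor dangerous take `k, g`
from DL: on `{Y b = y}` we have `zt (n, a) = zt (n', a')`, `n' = n + k + 1`, `a' = a - k - g ≥ a - 2 z`, `a' + n' < b`, and
`E (n', a')` is independent of `Y b` (GEN). So, summing over these `y < N b` (finitely many values),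
`P (E (n, a)) ≥ P (G b (Y b)) + (1 - F - δ) θ (β - 4 z / A) ≥ θ F + (1 - F - δ) θ (β - 4 z / A) ≥ θ β`, since
`F (1 - β) ≥ F ρ ≥ δ + 4 z / A`. (Each `P (E (n', a')) ≥ θ (β - 4 z / A)` also if this is negative.) -/
def P_SL : Prop :=
  ∀ (Ω : Type) [MeasurableSpace Ω] (P : Measure Ω) (Y : ℕ → Ω → ℕ) (N h : ℕ → ℕ), IsProbabilityMeasure P →
    (∀ i, Measurable (Y i)) → iIndepFun Y P → (∀ b ω, Y b ω < N b) →
    ∀ (A B z : ℕ) (ρ θ : ℝ) (G : ℕ → ℕ → Prop), 0 < A → 2 * z < A → Nat.sqrt A ≤ z → 0 ≤ ρ → 0 ≤ θ → θ ≤ 1 →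
    (∀ b y, G b y → Free b (h y)) →
    (∀ a b, A ≤ 2 * a → a ≤ A → a ≤ b → b ≤ B →
      P.real {ω | Dang z (Nat.sqrt A) a b (h (Y b ω))} + 4 * z / A ≤ ρ * P.real {ω | Free b (h (Y b ω))} ∧
      θ * P.real {ω | Free b (h (Y b ω))} ≤ P.real {ω | G b (Y b ω)}) →
    ∀ n a : ℕ, a ≤ A → a + n ≤ B → θ * (1 - ρ - 2 * (A - a) / A) ≤
      P.real {ω | G (zt (fun b => h (Y b ω)) n a) (Y (zt (fun b => h (Y b ω)) n a) ω) ∧
        A ≤ 2 * zt (fun b => h (Y b ω)) n a}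

/-- GL1 (from ZT, GEN). All but finitely many stages are good. Write `c k = ch k`, `c (k+1) = nx (c k)`, strictly
increasing. Call `s` bad (`B_s`) if `G (nx s) (X s (nx s))` or `R s ≤ 2 nx s` fails; `B_s` depends only on the
`X s b`, `b ≤ s + 1 + R s`. Let `t ≥ s₁` be large and `V_s`, `s ≥ t`: `s` is in the chain and all `s'` in the chain,
`t ≤ s' < s`, are not bad; it depends only on finitely many `X s' b`, `s' < s`. The first bad `s ≥ t` in the chain satisfies `V_s`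
and `B_s`, so `P (∃ s ∈ [t, N] in the chain, bad) ≤ ∑_s P (V_s) P (B_s) ≤ E ∑_{s ≤ N, V_s} C (log s) ^ (-1/2)`. For given `ω` the
elements `s < s'` of `{s : V_s}` satisfy `s' ≥ nx s ≥ R s / 2 ≥ s ^ (3/2)`, so by induction on the number of elements the sum
is at most `K (log t) ^ (-1/2)` with `K = C / (1 - (2/3) ^ (1/2))`. Let `N → ∞`, then `t → ∞`. -/
def P_GL1 : Prop :=
  ∀ (Ω : Type) [MeasurableSpace Ω] (M : ℕ → ℕ) (P : Measure Ω) (X : ℕ → ℕ → Ω → ℕ), Model M P X →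
    ∀ (h R : ℕ → ℕ) (G : ℕ → ℕ → Prop) (C : ℝ) (s₁ : ℕ), (∀ s, 0 < R s) →
    (∀ s : ℕ, s₁ ≤ s → 2 * (s : ℝ) ^ (3 / 2 : ℝ) ≤ R s) →
    (∀ s : ℕ, s₁ ≤ s → P.real {ω | ¬ (G (nx h R (fun s b => X s b ω) s) (X s (nx h R (fun s b => X s b ω) s) ω) ∧
      R s ≤ 2 * nx h R (fun s b => X s b ω) s)} ≤ C * Real.log s ^ (-(1 / 2) : ℝ)) →
    ∀ s₀ : ℕ, ∀ᵐ ω ∂P, ∀ᶠ k : ℕ in atTop, G (ch h R (fun s b => X s b ω) s₀ (k + 1))
      (X (ch h R (fun s b => X s b ω) s₀ k) (ch h R (fun s b => X s b ω) s₀ (k + 1)) ω)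

/-- GL2 (from ZT, GEN). Infinitely many stages are in `G`. Proof: `ch k ≥ k`. For `k₀ ≥ s₁` let `W_m` be the event that the
stages `k₀, …, k₀ + m - 1` of the chain are not in `G`. `W_(m+1)` is the disjoint union over `s` of `W_m ∩ {ch (k₀ + m) = s}`
(which depends only on finitely many `X s' b` with `s' < s`) intersected with the event that the stage `s` is not in `G`;
`ch` is bounded by a deterministic function of `k` (ZT (1)), so the union is finite. By GEN `P (W_(m+1)) ≤ (1 - c) P (W_m)`, so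
`P (W_m) ≤ (1 - c) ^ m`, and almost surely there is a stage `≥ k₀` in `G`, for every `k₀`. -/
def P_GL2 : Prop :=
  ∀ (Ω : Type) [MeasurableSpace Ω] (M : ℕ → ℕ) (P : Measure Ω) (X : ℕ → ℕ → Ω → ℕ), Model M P X →
    ∀ (h R : ℕ → ℕ) (G : ℕ → ℕ → Prop) (c : ℝ) (s₁ : ℕ), (∀ s, 0 < R s) → 0 < c →
    (∀ s : ℕ, s₁ ≤ s → c ≤ P.real {ω | G (nx h R (fun s b => X s b ω) s) (X s (nx h R (fun s b => X s b ω) s) ω)}) →
    ∀ s₀ : ℕ, ∀ᵐ ω ∂P, ∃ᶠ k : ℕ in atTop, G (ch h R (fun s b => X s b ω) s₀ (k + 1))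
      (X (ch h R (fun s b => X s b ω) s₀ k) (ch h R (fun s b => X s b ω) s₀ (k + 1)) ω)

/-- MOD. The model exists: product measure (`Measure.infinitePi`) over `ℕ × ℕ` of the uniform distributions on
`0, …, M b - 1` (e.g. of `Fin (M b)`; `X s b ω = (ω (s, b) : ℕ)`). -/
def P_MOD : Prop :=
  ∀ M : ℕ → ℕ, (∀ b, 0 < M b) → ∃ (Ω : Type) (_ : MeasurableSpace Ω) (P : Measure Ω) (X : ℕ → ℕ → Ω → ℕ), Model M P X

/-! ## Number theory -/

/-- CRT. Proof: induction on `S`. With `q = ∏_{l ∈ S} l ∣ M`: `un M (Q ∘ (· % q)) = un q Q` (each residue modulo `q` is taken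
`M / q` times) and `un (q l) (Q₁ (y % q) ∧ Q₂ (y % l)) = un q Q₁ * un l Q₂` for coprime `q`, `l`
(`Nat.chineseRemainder` or `ZMod.chineseRemainder`). -/
def P_CRT : Prop :=
  ∀ (M : ℕ) (S : Finset ℕ) (Q : ℕ → ℕ → Prop), 0 < M → (∀ l ∈ S, l.Prime ∧ l ∣ M) →
    un M (fun y => ∀ l ∈ S, Q l (y % l)) = ∏ l ∈ S, un l (Q l)

/-- FREE (from CRT). Proof: by CRT and `per` the left hand side of the second inequality is
`∏_{l ≤ 2b} (1 - N_l / l)`, `N_l = #{x < l : l ∣ h x} ≤ min (D, l - 1)` (`ne`). For `l > 2 D`: `1 - D/l ≥ exp (-2 D / l)`-type bounds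
`1 - D / l ≥ exp (- D / l - 2 D^2 / l^2)`, and `∑_{l ≤ x} 1/l ≤ log log x + C` (`Pool.Agent.Helper601.Mertens.mertens_inv`, file
`Pool/Agent/Helper601/Mertens.lean`, imports only Mathlib). The finitely many small `l` contribute a constant. -/
def P_FREE : Prop :=
  ∀ (h : ℕ → ℕ) (D : ℕ), Adm h D → 1 ≤ D → ∃ c : ℝ, 0 < c ∧ ∀ b M : ℕ, 2 ≤ b → AllDvd (2 * b) M →
    c / Real.log b ^ D ≤ un M fun y => Free b (h y)

/-- DA1 (from CRT). Proof: let `S` be the primes `≤ √A` and `T` the primes in `(√A, 2b]`. For a prime `l` in `(z, 2b]` (then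
`l > √A` for large `A`) CRT gives `un M (S free and l ∣ h y) = ∏_{S} (1 - N/l') · N_l / l`, so the left hand side is
`≤ ∏_S (1 - N/l') · D ∑_{z < l ≤ 2b} 1/l`, and `un M Free = ∏_S (1 - N/l') ∏_T (1 - N/l')` with
`∏_T ≥ exp (- 2 D ∑_{√A < l ≤ 4A} 1/l) ≥ c`. By `∑_{l ≤ x} log l / l = log x + O(1)`
(`Pool.Agent.Helper601.Mertens.mertens_log`) `∑_{u < l ≤ v} 1/l ≤ (log (v/u) + 2C) / log u`: this is `O(1)` for `u = √A`, `v = 4A`, and
`≤ ((D + 2) log log A + 2C + log 4 + 1) / log z`, `log z ≥ (log A) / 2`, for `u = z`, `v = 2b ≤ 4A`. -/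
def P_DA1 : Prop :=
  ∀ (h : ℕ → ℕ) (D : ℕ), Adm h D → 1 ≤ D → ∃ C : ℝ, ∀ᶠ A : ℕ in atTop, ∀ b M : ℕ, A ≤ 2 * b → b ≤ 2 * A →
    AllDvd (2 * b) M →
    un M (fun y => (∀ l : ℕ, l.Prime → l ≤ Nat.sqrt A → ¬ l ∣ h y) ∧
      ∃ l : ℕ, l.Prime ∧ zz D A < l ∧ l ≤ 2 * b ∧ l ∣ h y) ≤
      C * Real.log (Real.log A) / Real.log A * un M fun y => Free b (h y)

/-- DA2. Proof: for `a' = a - k`, `1 ≤ a' ≤ A`: if `gcd (a', h y) > z` then some divisor `d > z` of `a'` divides `h y`; by `per`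
(each residue modulo `d ∣ M` is taken `M / d` times) `un M (d ∣ h y) = #{x < d : d ∣ h x} / d ≤ C d ^ (1/16) / d`. The number of divisors
of `a'` is `≤ C a' ^ (1/16)` (many copies in the library, grep `card_divisors`/`divisor bound`). So the left hand side is
`≤ (√A + 1) C' A ^ (1/8) / z ≤ A ^ (-1/8)` for large `A`, as `z ≥ A / (2 (log A) ^ (D+2))`. -/
def P_DA2 : Prop :=
  ∀ (h : ℕ → ℕ) (D : ℕ), Adm h D → ∀ᶠ A : ℕ in atTop, ∀ a M : ℕ, a ≤ A → AllDvd A M →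
    un M (fun y => ∃ k : ℕ, k ≤ Nat.sqrt A ∧ k < a ∧ zz D A < Nat.gcd (a - k) (h y)) ≤ (A : ℝ) ^ (-(1 / 8) : ℝ)

/-- NT (from FREE, DA1, DA2). Proof: `Dang` is the disjunction of the two events of DA1, DA2 (`un` is subadditive), and each of
`C log log A / log A`, `A ^ (-1/8) (log b) ^ D / c` and `4 z / A · (log b) ^ D / c ≤ 4 (log (2A)) ^ D / (c (log A) ^ (D + 2))` is
`≤ (log A) ^ (-1/2) / 3` for large `A`. -/
def P_NT : Prop :=
  ∀ (h : ℕ → ℕ) (D : ℕ), Adm h D → 1 ≤ D → ∀ᶠ A : ℕ in atTop, ∀ a b M : ℕ, A ≤ 2 * a → a ≤ A → a ≤ b → b ≤ 2 * A →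
    AllDvd (2 * b) M →
    un M (fun y => Dang (zz D A) (Nat.sqrt A) a b (h y)) + 4 * (zz D A : ℝ) / A ≤
      Real.log A ^ (-(1 / 2) : ℝ) * un M fun y => Free b (h y)

/-- STG (from SL, NT). One stage of the model. Proof: `P (Q (X s b)) = un (M b) Q` (`law`, `lt`), `AllDvd (2 b) (M b)` for
`b ≥ 2` as `M b = (b ^ κ)!`; SL for `Y b = X s b` (independent: `iIndepFun.precomp` for `b ↦ (s, b)`), `A = R s`, `n = s + 1`,
`a = A`, `B = A + s + 1 ≤ 2 A`, `z = zz D A`, `ρ = (log A) ^ (-1/2)`; `√A ≤ z`, `2 z < A` for large `A`. `R s → ∞` as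
`R s ≥ s + 1`. -/
def P_STG : Prop :=
  ∀ (Ω : Type) [MeasurableSpace Ω] (κ : ℕ) (P : Measure Ω) (X : ℕ → ℕ → Ω → ℕ), 2 ≤ κ →
    Model (fun b => (b ^ κ).factorial) P X → ∀ (h R : ℕ → ℕ) (D : ℕ), Adm h D → 1 ≤ D → (∀ s, s + 1 ≤ R s) →
    ∀ (G : ℕ → ℕ → Prop) (θ : ℕ → ℝ), (∀ A, 0 ≤ θ A ∧ θ A ≤ 1) → (∀ b y, G b y → Free b (h y)) →
    (∀ᶠ A : ℕ in atTop, ∀ b : ℕ, A ≤ 2 * b → b ≤ 2 * A →
      θ A * un ((b ^ κ).factorial) (fun y => Free b (h y)) ≤ un ((b ^ κ).factorial) (G b)) →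
    ∀ᶠ s : ℕ in atTop, θ (R s) * (1 - Real.log (R s) ^ (-(1 / 2) : ℝ)) ≤
      P.real {ω | G (nx h R (fun s b => X s b ω) s) (X s (nx h R (fun s b => X s b ω) s) ω) ∧
        R s ≤ 2 * nx h R (fun s b => X s b ω) s}

/-- ADM1. Proof: `per`: `Nat.ModEq.pow`, and `(x+1)^p ≥ 1`. `roots`: the roots of `(x + 1) ^ p = 1` in the field `ZMod l`, at most
`p` (`Polynomial.card_nthRoots`). `ne`: `x + 1 ≡ 0`: `x = l - 1` (`h x ≡ -1`). `few`: the number `N(d)` of the `x < d` with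
`d ∣ h x` is multiplicative for coprime factors (Chinese remainder theorem), and `N(l ^ j) ≤ 2 p`: `u = x + 1` is a unit with
`u ^ p = 1` in `ZMod (l ^ j)`; for `l ≠ 2` the unit group is cyclic (`ZMod.isCyclic_units_of_prime_pow`), so there are at most `p`
such `u` (`IsCyclic.card_pow_eq_one_le`); for `l = 2`, `p` odd: only `u = 1` (the group has order `2 ^ (j-1)`); for `l = p = 2`:
`2 ^ j ∣ (u - 1)(u + 1)` implies `u ≡ ± 1 (mod 2 ^ (j-1))`, at most `4` values. So `N(d) ≤ (2 p) ^ ω(d) ≤ C d ^ δ` (a prime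
`l ≥ (2p) ^ (1/δ)` contributes `2 p ≤ l ^ δ`, the other ones at most a constant). -/
def P_ADM1 : Prop := ∀ p : ℕ, p.Prime → Adm (hp p) p

/-- ADM2. Proof: `roots`, `ne`: `l ∣ (x+1)(x+2m+1)`: two residues, one for `l = 2`. `few`: if `d ∣ u v`, `u = x + 1`,
`v = u + 2 m`, let `d₁ = gcd (d, u)`, `d₂ = d / d₁`: `d₂ ∣ v` (`Nat.Coprime.dvd_of_dvd_mul_left`). For given `d₁ d₂ = d` the `x < d`
with `d₁ ∣ u`, `d₂ ∣ v` lie in one residue class modulo `lcm (d₁, d₂)`, and if there is one then `gcd (d₁, d₂) ∣ 2 m`: at most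
`2 m` values. So the number is at most `2 m τ(d) ≤ C d ^ δ` (divisor bound, see DA2). -/
def P_ADM2 : Prop := ∀ m : ℕ, 1 ≤ m → Adm (hm m) 2

/-- CMP (from CRT, ADM1). `q_p(b)` is composite, and is not, with positive probability. Proof: `hp p y = y * qp p y`. Let `S` be the
primes `≤ 2b`, `T` the primes `l > 2b` with `l ^ 2 ≤ qp p b` (so `b ^ 2 < l` is allowed: `qp p b ≥ b ^ (p-1) ≥ b ^ 4`; and
`l ≤ b ^ p`, so `l ∣ M`). `un M (Free ∧ ¬ Comp) = un M Free · ∏_T (1 - N_l / l)` by CRT, `N_l = #{x < l : l ∣ qp p x} ≤ p`, and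
`∏_T ≥ exp (-2 p ∑_{2b < l ≤ b ^ p} 1/l) ≥ θ` (Mertens as in DA1). `un M (Free ∧ Comp) = un M Free (1 - ∏_T (1 - N_l / l))`,
and `∏_T (1 - N_l / l) ≤ exp (- ∑_T N_l / l) ≤ 1 - θ`: for `l ≡ 1 (mod p)` there are `p - 1` roots `u ≠ 1` of `u ^ p = 1`, so
`N_l ≥ 1` (then `x = u - 1 ≠ 0` and `l ∣ qp p x`), and `∑ 1/l` over the primes `l ≡ 1 (mod p)` in `(2b, b^2]` is bounded from below: at least
`c 2 ^ i / i` primes in every dyadic interval `(2^i, 2^(i+1)]` (file `Pool/Agent/Cov/PrimesAP.lean`: `AA_tendsto`, `AA_pow`,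
`fresh_lower` and the lemmas between them). (For `l ∣ y`: `Free` and `Comp` concern different primes, no further condition.) -/
def P_CMP : Prop :=
  ∀ p : ℕ, p.Prime → 5 ≤ p → ∃ θ : ℝ, 0 < θ ∧ ∀ᶠ b : ℕ in atTop,
    θ * un ((b ^ p).factorial) (fun y => Free b (hp p y)) ≤
      un ((b ^ p).factorial) (fun y => Free b (hp p y) ∧ Comp p b y) ∧
    θ * un ((b ^ p).factorial) (fun y => Free b (hp p y)) ≤
      un ((b ^ p).factorial) (fun y => Free b (hp p y) ∧ ¬ Comp p b y)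

/-- CONS (from CRT). For most free pairs `y + 1`, `y + 2m + 1` no number between them is free of small primes. Proof: fix
`0 < j < 2m` and let `S` be the primes `l ≤ √b` with `l > 6 m`. Let `N_l = 2` be the number of the residues `y` with `l ∣ hm m y` and
`3` the number of those with `l ∣ (y+1)(y+1+j)(y+2m+1)`. By CRT the proportion of the `y` which are `Free` and for which no `l ∈ S`
divides `y + 1 + j` is `un M Free · ∏_{l ∈ S} (1 - 3/l) / (1 - 2/l) ≤ un M Free · ∏_S (1 - 1/l) ≤ un M Free · C / log b`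
(`∏ (1 - 1/l) ≤ exp (- ∑ 1/l)`, `mertens_inv`). Sum over `j`. -/
def P_CONS : Prop :=
  ∀ m : ℕ, 1 ≤ m → ∃ C : ℝ, ∀ b M : ℕ, 2 ≤ b → AllDvd (2 * b) M →
    un M (fun y => Free b (hm m y) ∧ ∃ j, 0 < j ∧ j < 2 * m ∧ ∀ l : ℕ, l.Prime → l ^ 2 ≤ b → ¬ l ∣ y + 1 + j) ≤
      C / Real.log b * un M fun y => Free b (hm m y)

end Pool.Agent.T2H19.GR
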