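import Pool.Agent.T2H19.GR.Stm

/-! # Random models of gcd recursions: the exact proportion (statements)

For `p ≥ 5` the proportion of the zeros `n` with `q_p(n)` prime in the model is `2 / (p - 1)`, almost surely. -/

set_option autoImplicit false

namespace Pool.Agent.T2H19.GR

open MeasureTheory ProbabilityTheory Finset Filter Topology

/-- MAP. Mertens' theorem for the primes `1 (mod p)` in windows. Proof: library `Pool/Agent/Y669/Mer.lean`: `mabel'` with
`A = (fun l => l % p = 1)`, `δ = 1 / (p - 1)` as in `mer_of` (there `T = (S - δ P) / K`, so `|T y - T x| ≤ 4 / log x`; the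
hypothesis of `mer_of` is the Siegel-Walfisz theorem `Pool.Agent.H387R2.Uni.siegel`, used in this way in
`Pool/Agent/Y405/CQ/MER.lean`, `mertens_ap`). It remains `∑_{x < l ≤ y} 1 / l = log (log y / log x) + O(1 / log x)` over all primes:
partial summation from `∑_{l ≤ x} log l / l = log x + O(1)` (`Pool.Agent.Helper601.Mertens.mertens_log`; perhaps a copy of the
second theorem of Mertens with an error term is in the library: grep `1 / Real.log` in the files with `mertens`), or apply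
the same method (`mabel'`) with `P` and the prime number theorem, `D = π(x) - ∑_{2 ≤ n ≤ x} 1 / log n`. -/
def P_MAP : Prop :=
  ∀ p : ℕ, p.Prime → ∀ ε : ℝ, 0 < ε → ∀ᶠ x : ℕ in atTop, ∀ y : ℕ, x ≤ y →
    |∑ l ∈ (Ioc x y).filter (fun l => l.Prime ∧ l ≡ 1 [MOD p]), (1 : ℝ) / l -
      1 / ((p : ℝ) - 1) * Real.log (Real.log y / Real.log x)| ≤ ε

/-- CMPL (from CRT, MAP). The exact form of CMP. Proof: as in CMP `un M (Free ∧ ¬ Comp) = un M Free · ∏_T (1 - N_l / l)` by CRT
(`un M Free > 0`: the product over `l ≤ 2b` of `un l (¬ l ∣ h x) > 0`, as `x = l - 1` is free), `T` = primes `l > 2b` with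
`l ^ 2 ≤ qp p b`, and for `l > 2b > p`: `N_l = p - 1` if `l ≡ 1 (mod p)`, `N_l = 0` if not (the roots `u ≠ 1` of `u ^ p = 1` in the field
`ZMod l`; `x = 0` is not a root of `qp p` as `qp p 0 = p`). So `log ∏ = - ∑_{l ∈ T, l ≡ 1} (p - 1) / l + O (∑_{l > 2b} p^2 / l^2)`, and by
MAP with `x = 2b`, `y = Nat.sqrt (qp p b)`: `→ - log ((p - 1) / 2)`, as `log y / log x → (p - 1) / 2`
(`b ^ (p-1) ≤ qp p b ≤ (2 b) ^ (p - 1) · p`, say). -/
def P_CMPL : Prop :=
  ∀ p : ℕ, p.Prime → 5 ≤ p →
    Tendsto (fun b : ℕ => un ((b ^ p).factorial) (fun y => Free b (hp p y) ∧ ¬ Comp p b y) /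
      un ((b ^ p).factorial) (fun y => Free b (hp p y))) atTop (𝓝 (2 / ((p : ℝ) - 1)))

/-- LLN (from ZT, GEN). Law of large numbers for the stages. Proof: `Z_k` = indicator of `G` at the stage `ch k`,
`φ s = P (stage s in G)`, `D_k = Z_k - φ (ch k)`, bounded by `1`. `E D_j D_k = 0` for `j < k`: on `{ch k = s}` (finitely many `s`,
`ch k` is bounded by a deterministic function of `k`, ZT (1)) `D_j` and the event `{ch k = s}` depend only on finitely many
`X s' b` with `s' < s` and `Z_k` is the indicator of `G` at the stage `s`, which depends on the `X s b`; so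
`E D_j 1_{ch k = s} (Z_k - φ s) = 0` (GEN: the event is a finite union of `{ch k = s, Z_j = i, ch j = s''}`). So
`E (∑_{k < K} D_k)^2 ≤ K`; by Chebyshev and Borel-Cantelli along `K = i ^ 2`, `∑_{k < K} D_k / K → 0` almost surely (between `i ^ 2` and
`(i + 1) ^ 2` the sum changes by at most `2 i + 1`), and `φ (ch k) → φ`, `ch k ≥ k`, gives the mean of the `φ (ch k)` (Cesaro,
`Filter.Tendsto.cesaro`). -/
def P_LLN : Prop :=
  ∀ (Ω : Type) [MeasurableSpace Ω] (M : ℕ → ℕ) (P : Measure Ω) (X : ℕ → ℕ → Ω → ℕ), Model M P X →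
    ∀ (h R : ℕ → ℕ) (G : ℕ → ℕ → Prop) (φ : ℝ), (∀ s, 0 < R s) →
    Tendsto (fun s : ℕ => P.real {ω | G (nx h R (fun s b => X s b ω) s) (X s (nx h R (fun s b => X s b ω) s) ω)})
      atTop (𝓝 φ) →
    ∀ s₀ : ℕ, ∀ᵐ ω ∂P, Tendsto (fun K : ℕ => (open Classical in (((range K).filter (fun k =>
      G (ch h R (fun s b => X s b ω) s₀ (k + 1))
        (X (ch h R (fun s b => X s b ω) s₀ k) (ch h R (fun s b => X s b ω) s₀ (k + 1)) ω))).card : ℝ)) / K) atTop (𝓝 φ)

end Pool.Agent.T2H19.GR
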