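import Pool.Agent.T2H19.GR.Stm

/-!
# STG: one stage of the model
-/

set_option autoImplicit false

namespace Pool.Agent.T2H19.GR

open MeasureTheory ProbabilityTheory Finset Filter Topology

namespace PkgSTG

/-- the law of the values -/
theorem law_un {Ω : Type} [MeasurableSpace Ω] {M : ℕ → ℕ} {P : Measure Ω} {X : ℕ → ℕ → Ω → ℕ}
    (hM : Model M P X) (s b : ℕ) (Q : ℕ → Prop) :
    P.real {ω | Q (X s b ω)} = un (M b) Q := by
  classical
  have := hM.prob
  have h1 : {ω | Q (X s b ω)} = ⋃ k ∈ (range (M b)).filter Q, {ω | X s b ω = k} := by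
    ext ω
    simp only [Set.mem_ofPred_eq, Set.mem_iUnion, mem_filter, mem_range, exists_prop]
    constructor
    · intro h
      exact ⟨X s b ω, ⟨hM.lt s b ω, h⟩, rfl⟩
    · rintro ⟨k, ⟨-, hk⟩, rfl⟩
      exact hk
  rw [h1, measureReal_biUnion_finset]
  · have h2 : ∀ k ∈ (range (M b)).filter Q, P.real {ω | X s b ω = k} = ((M b : ℕ) : ℝ)⁻¹ := by
      intro k hk
      rw [mem_filter, mem_range] at hk
      unfold Measure.real
      rw [hM.law s b k hk.1, ENNReal.toReal_inv, ENNReal.toReal_natCast]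
    rw [Finset.sum_congr rfl h2, Finset.sum_const, nsmul_eq_mul]
    unfold un
    rw [div_eq_mul_inv]
  · intro i _ j _ hij
    rw [Function.onFun, Set.disjoint_left]
    intro ω hi hj
    apply hij
    rw [← (show X s b ω = i from hi), ← (show X s b ω = j from hj)]
  · intro k _
    exact hM.meas s b (measurableSet_singleton k)

theorem allDvd {κ b : ℕ} (hκ : 2 ≤ κ) (hb : 2 ≤ b) : AllDvd (2 * b) ((b ^ κ).factorial) := by
  refine ⟨Nat.factorial_pos _, fun d h1 h2 => Nat.dvd_factorial h1 (h2.trans ?_)⟩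
  calc 2 * b ≤ b * b := Nat.mul_le_mul_right b hb
    _ = b ^ 2 := (sq b).symm
    _ ≤ b ^ κ := Nat.pow_le_pow_right (by omega) hκ

/-- powers of the logarithm -/
theorem logs (D : ℕ) : ∀ᶠ A : ℕ in atTop, 2 * zz D A < A ∧ Nat.sqrt A ≤ zz D A := by
  have h1 : Tendsto (fun A : ℕ => Real.log A) atTop atTop :=
    Real.tendsto_log_atTop.comp tendsto_natCast_atTop_atTop
  have h2 : ∀ᶠ A : ℕ in atTop, (3 : ℝ) ≤ Real.log A := h1.eventually_ge_atTop 3
  have h3 : (fun x : ℝ => Real.log x ^ (D + 2)) =o[atTop] fun x => x ^ (1 / 2 : ℝ) := by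
    have := isLittleO_log_rpow_rpow_atTop (r := ((D + 2 : ℕ) : ℝ)) (s := 1 / 2) (by norm_num)
    refine this.congr' ?_ (EventuallyEq.refl _ _)
    filter_upwards with x
    rw [Real.rpow_natCast]
  have h4 : ∀ᶠ x : ℝ in atTop, Real.log x ^ (D + 2) ≤ x ^ (1 / 2 : ℝ) := by
    have h5 := h3.bound (c := 1) one_pos
    filter_upwards [h5, eventually_ge_atTop (1 : ℝ)] with x hx hx1
    rw [one_mul, Real.norm_eq_abs, Real.norm_eq_abs, abs_of_nonneg (Real.rpow_nonneg (by linarith) _)] at hx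
    exact (le_abs_self _).trans hx
  have h5 : ∀ᶠ A : ℕ in atTop, Real.log (A : ℝ) ^ (D + 2) ≤ (A : ℝ) ^ (1 / 2 : ℝ) :=
    tendsto_natCast_atTop_atTop.eventually h4
  filter_upwards [h2, h5, eventually_ge_atTop 1] with A hA hA2 hA1
  have hA0 : (0 : ℝ) < A := by exact_mod_cast hA1
  have hp : (3 : ℝ) ≤ Real.log A ^ (D + 2) := by
    calc (3 : ℝ) ≤ Real.log A := hA
      _ = Real.log A ^ 1 := (pow_one _).symm
      _ ≤ Real.log A ^ (D + 2) := pow_le_pow_right₀ (by linarith) (by omega)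
  have hp0 : (0 : ℝ) < Real.log A ^ (D + 2) := by linarith
  constructor
  · have h6 : (zz D A : ℝ) ≤ A / Real.log A ^ (D + 2) := Nat.floor_le (by positivity)
    have h7 : (A : ℝ) / Real.log A ^ (D + 2) ≤ A / 3 := div_le_div_of_nonneg_left hA0.le (by norm_num) hp
    have h8 : (2 : ℝ) * zz D A < A := by linarith
    exact_mod_cast h8
  · unfold zz
    apply Nat.le_floor
    rw [le_div_iff₀ hp0]
    have h6 : (Nat.sqrt A : ℝ) ≤ Real.sqrt A := Real.nat_sqrt_le_real_sqrt
    rw [← Real.sqrt_eq_rpow] at hA2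
    calc (Nat.sqrt A : ℝ) * Real.log A ^ (D + 2) ≤ Real.sqrt A * Real.sqrt A :=
          mul_le_mul h6 hA2 hp0.le (Real.sqrt_nonneg _)
      _ = A := Real.mul_self_sqrt hA0.le

end PkgSTG

open PkgSTG

theorem T_STG (hSL : P_SL) (hNT : P_NT) : P_STG := by
  intro Ω _ κ P X hκ hM h R D hA hD hR G θ hθ hG hGF
  have hRt : Tendsto R atTop atTop :=
    tendsto_atTop_mono (fun s => (Nat.le_succ s).trans (hR s)) tendsto_id
  have e1 := hRt.eventually (hNT h D hA hD)
  have e2 := hRt.eventually (logs D)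
  have e3 := hRt.eventually hGF
  filter_upwards [e1, e2, e3, eventually_ge_atTop 3] with s h1 h2 h3 hs
  have hR0 := hR s
  have := hM.prob
  have key := hSL Ω P (fun b => X s b) (fun b => (b ^ κ).factorial) h hM.prob (fun b => hM.meas s b)
    (hM.indep.precomp (g := fun b : ℕ => (s, b)) (fun a b hab => (Prod.ext_iff.1 hab).2))
    (fun b ω => hM.lt s b ω) (R s) (2 * R s) (zz D (R s)) (Real.log (R s) ^ (-(1 / 2) : ℝ)) (θ (R s)) G
    (by omega) h2.1 h2.2 (Real.rpow_nonneg (Real.log_natCast_nonneg _) _) (hθ _).1 (hθ _).2 hG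
    (fun a b ha1 ha2 hab hb => by
      have hb2 : 2 ≤ b := by omega
      constructor
      · rw [law_un hM s b (fun y => Dang (zz D (R s)) (Nat.sqrt (R s)) a b (h y)),
          law_un hM s b (fun y => Free b (h y))]
        exact h1 a b _ ha1 ha2 hab hb (allDvd hκ hb2)
      · rw [law_un hM s b (fun y => Free b (h y)), law_un hM s b (fun y => G b y)]
        exact h3 b (by omega) hb)
    (s + 1) (R s) le_rfl (by omega)
  rw [sub_self, mul_zero, zero_div, sub_zero] at key
  exact key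

end Pool.Agent.T2H19.GR
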